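import Mathlib
import Pool.Agent.Helper2.Planar.Induce

/-!
# A pseudometric on the mapping class group from a length function on a subgroup

A variant of `Helper2.Planar.exists_pseudometric` for a length function which is only defined on
the subgroup `H` (which is not assumed to be open).
-/

set_option autoImplicit false

open Topology Set Filter

namespace Pool.Agent.ND4

open Pool.Agent.Helper50.Ends Pool.Agent.Helper2.Genus Pool.Agent.Helper2.Planar

variable {Y : Type*} [TopologicalSpace Y]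

lemma IsLen.mul_eq {G : Type*} [Group G] {ℓ : G → ℝ} {H : Subgroup G} (hℓ : IsLen ℓ H) {g h : G}
    (hg : g ∈ H) (hh : h ∈ H) (h0 : ℓ h = 0) : ℓ (g * h) = ℓ g := by
  apply le_antisymm
  · have := hℓ.mul g hg h hh
    rwa [h0, add_zero] at this
  · have := hℓ.mul (g * h) (H.mul_mem hg hh) h⁻¹ (H.inv_mem hh)
    rwa [hℓ.inv h hh, h0, add_zero, mul_inv_cancel_right] at this

theorem exists_pseudometric_sub (H : Subgroup (Y ≃ₜ Y)) {ℓ : (Y ≃ₜ Y) → ℝ}
    (hℓ : Pool.Agent.Helper2.Planar.IsLen ℓ H) (hnear : ∀ᶠ g : Y ≃ₜ Y in 𝓝 1, ℓ g = 0)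
    (hiso : ∀ u ∈ isotopySubgroup Y, ℓ u = 0) :
    ∃ δ : LeftPseudometric (MCG H), ∀ g h : H,
      δ.d (g : MCG H) (h : MCG H) = ℓ ((g : Y ≃ₜ Y)⁻¹ * h) := by
  have hwd : ∀ g h : H, (g : MCG H) = (h : MCG H) → ℓ (g : Y ≃ₜ Y) = ℓ (h : Y ≃ₜ Y) := by
    intro g h hgh
    have h1 := QuotientGroup.eq.mp hgh
    have h2 : ((g⁻¹ * h : H) : Y ≃ₜ Y) ∈ isotopySubgroup Y := h1
    have h3 : (h : Y ≃ₜ Y) = (g : Y ≃ₜ Y) * ((g⁻¹ * h : H) : Y ≃ₜ Y) := by
      push_cast
      group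
    rw [h3, IsLen.mul_eq hℓ g.2 (g⁻¹ * h).2 (hiso _ h2)]
  let L : MCG H → ℝ := fun x => ℓ (x.out : Y ≃ₜ Y)
  have hL : ∀ g : H, L (g : MCG H) = ℓ (g : Y ≃ₜ Y) := fun g =>
    hwd _ _ (QuotientGroup.out_eq' _)
  have L1 : L 1 = 0 := by
    have := hL 1
    rw [QuotientGroup.mk_one] at this
    rw [this]
    exact hℓ.one
  have Linv : ∀ x, L x⁻¹ = L x := by
    intro x
    induction x using QuotientGroup.induction_on with
    | H g =>
      rw [← QuotientGroup.mk_inv, hL, hL]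
      exact hℓ.inv _ g.2
  have Lmul : ∀ x y, L (x * y) ≤ L x + L y := by
    intro x y
    induction x using QuotientGroup.induction_on with
    | H g =>
      induction y using QuotientGroup.induction_on with
      | H h =>
        rw [← QuotientGroup.mk_mul, hL, hL, hL]
        exact hℓ.mul _ g.2 _ h.2
  have Lnear : ∀ x₀ : MCG H, ∀ᶠ x in 𝓝 x₀, L (x₀⁻¹ * x) = 0 := by
    intro x₀
    induction x₀ using QuotientGroup.induction_on with
    | H g₀ =>
      have hopen : IsOpen {x : MCG H | L ((g₀ : MCG H)⁻¹ * x) = 0} := by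
        refine isOpen_coinduced.mpr ?_
        rw [isOpen_iff_mem_nhds]
        intro h hh
        have hh' : L ((g₀ : MCG H)⁻¹ * (h : MCG H)) = 0 := hh
        rw [← QuotientGroup.mk_inv, ← QuotientGroup.mk_mul, hL] at hh'
        have h1 := (continuous_subtype_val.tendsto h).eventually
          (eventually_left hnear (h : Y ≃ₜ Y))
        filter_upwards [h1] with h' hh''
        change L ((g₀ : MCG H)⁻¹ * (h' : MCG H)) = 0
        rw [← QuotientGroup.mk_inv, ← QuotientGroup.mk_mul, hL]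
        have e1 : ((g₀⁻¹ * h' : H) : Y ≃ₜ Y) = ((g₀⁻¹ * h : H) : Y ≃ₜ Y) *
            ((h⁻¹ * h' : H) : Y ≃ₜ Y) := by
          push_cast
          group
        rw [e1, IsLen.mul_eq hℓ (g₀⁻¹ * h).2 (h⁻¹ * h').2 (by push_cast; exact hh''), hh']
      refine hopen.mem_nhds ?_
      change L ((g₀ : MCG H)⁻¹ * (g₀ : MCG H)) = 0
      rw [inv_mul_cancel, L1]
  have Lcongr : ∀ x y z, L x = 0 → L z = 0 → L (x⁻¹ * y * z) = L y := by
    intro x y z hx hz
    apply le_antisymm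
    · have e1 := Lmul (x⁻¹ * y) z
      have e2 := Lmul x⁻¹ y
      rw [Linv] at e2
      linarith
    · have e1 := Lmul x (x⁻¹ * y * z * z⁻¹)
      have e2 := Lmul (x⁻¹ * y * z) z⁻¹
      rw [Linv] at e2
      have e3 : x * (x⁻¹ * y * z * z⁻¹) = y := by group
      rw [e3] at e1
      linarith
  refine ⟨⟨fun x y => L (x⁻¹ * y), ?_, ?_, ?_, ?_, ?_⟩, ?_⟩
  · intro x
    rw [inv_mul_cancel, L1]
  · intro x y
    rw [← Linv]
    congr 1
    group
  · intro x y z
    have : x⁻¹ * z = (x⁻¹ * y) * (y⁻¹ * z) := by group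
    rw [this]
    exact Lmul _ _
  · intro g x y
    congr 1
    group
  · rw [continuous_iff_continuousAt]
    rintro ⟨x, y⟩
    have : ∀ᶠ p : MCG H × MCG H in 𝓝 (x, y), L (p.1⁻¹ * p.2) = L (x⁻¹ * y) := by
      filter_upwards [(Lnear x).prod_nhds (Lnear y)] with p hp
      have e : p.1⁻¹ * p.2 = (x⁻¹ * p.1)⁻¹ * (x⁻¹ * y) * (y⁻¹ * p.2) := by group
      rw [e]
      exact Lcongr _ _ _ hp.1 hp.2
    exact (continuousAt_const (y := L (x⁻¹ * y))).congr (this.mono fun p hp => hp.symm)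
  · intro g h
    change L ((g : MCG H)⁻¹ * (h : MCG H)) = _
    rw [← QuotientGroup.mk_inv, ← QuotientGroup.mk_mul, hL]
    rfl

end Pool.Agent.ND4
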