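import Mathlib

/-!
# Four-holed spheres in a surface, seen from the plane minus the lattice points

The plane `ℝ × ℝ` carries the sup norm.  Let `E` be the plane minus the lattice points and `Γ` the
group of the translations by twice a lattice point and the half turns about the lattice points.
The quotient `E / Γ` is a sphere minus four points and the image of `core` is a four-holed sphere.
-/

set_option autoImplicit false

open Topology Set Filter

namespace Pool.Agent.ND4

/-- The lattice point `u`, as a point of the plane. -/
def lat (u : ℤ × ℤ) : ℝ × ℝ := (u.1, u.2)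

/-- The plane minus the lattice points. -/
abbrev PPlane : Type := {z : ℝ × ℝ // ∀ u : ℤ × ℤ, z ≠ lat u}

/-- `z'` is the image of `z` under a translation by twice a lattice point or under a half turn
about a lattice point. -/
def Rel (z z' : PPlane) : Prop :=
  ∃ u : ℤ × ℤ, (z' : ℝ × ℝ) = z + (2 : ℝ) • lat u ∨ (z' : ℝ × ℝ) = -z + (2 : ℝ) • lat u

/-- The points at distance at least `1/4` from all lattice points, for the sup norm. -/
def core : Set PPlane := {z | ∀ u : ℤ × ℤ, 1 / 4 ≤ ‖(z : ℝ × ℝ) - lat u‖}

/-- A four-holed sphere in `Y`: a covering map `q` from the plane minus the lattice points onto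
`Y`, invariant under the translations by twice a lattice point and the half turns about the
lattice points, which identifies two points of the core only if they are related in this way.
The four-holed sphere is the image of the core. -/
structure HoledSphere (Y : Type*) [TopologicalSpace Y] where
  /-- the covering map -/
  q : PPlane → Y
  isCoveringMap : IsCoveringMap q
  surjective : Function.Surjective q
  map_rel : ∀ z z' : PPlane, Rel z z' → q z = q z'
  rel_of_core : ∀ z ∈ core, ∀ z' ∈ core, q z = q z' → Rel z z'

/-- The closed curve `c` (a function on the real line with period one) has a lift `l` to the plane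
minus the lattice points which joins two lattice points with difference `v ≠ 0` or is invariant
under the translation by `2 v ≠ 0`. -/
def Slope {Y : Type*} (q : PPlane → Y) (c : ℝ → Y) (v : ℤ × ℤ) : Prop :=
  v ≠ 0 ∧ ∃ l : ℝ → PPlane, Continuous l ∧ (∀ t, q (l t) = c t) ∧
    ((∃ x : ℤ × ℤ, Tendsto (fun t => (l t : ℝ × ℝ)) atBot (𝓝 (lat x)) ∧
        Tendsto (fun t => (l t : ℝ × ℝ)) atTop (𝓝 (lat (x + v)))) ∨
      ∀ t, (l (t + 1) : ℝ × ℝ) = l t + (2 : ℝ) • lat v)

/-- The closed curve `c` crosses the four-holed sphere essentially. -/
def Essential {Y : Type*} (q : PPlane → Y) (c : ℝ → Y) : Prop := ∃ v, Slope q c v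

lemma half_ne_int (n : ℤ) : (1 / 2 : ℝ) ≠ n := by
  intro h
  have h1 : (2 : ℝ) * n = 1 := by rw [← h]; norm_num
  have h2 : (2 : ℤ) * n = 1 := by exact_mod_cast h1
  omega

/-- The horizontal line at height `1/2`. -/
noncomputable def pt0 (t : ℝ) : PPlane :=
  ⟨(2 * t, 1 / 2), fun u h => half_ne_int u.2 (congrArg Prod.snd h)⟩

/-- The vertical line at abscissa `1/2`. -/
noncomputable def pt1 (t : ℝ) : PPlane :=
  ⟨(1 / 2, 2 * t), fun u h => half_ne_int u.1 (congrArg Prod.fst h)⟩

/-- The first of two closed curves filling the four-holed sphere: the image of the horizontal line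
at height `1/2`. -/
noncomputable def HoledSphere.curve0 {Y : Type*} [TopologicalSpace Y] (R : HoledSphere Y)
    (t : ℝ) : Y := R.q (pt0 t)

/-- The second of two closed curves filling the four-holed sphere: the image of the vertical line
at abscissa `1/2`. -/
noncomputable def HoledSphere.curve1 {Y : Type*} [TopologicalSpace Y] (R : HoledSphere Y)
    (t : ℝ) : Y := R.q (pt1 t)

end Pool.Agent.ND4
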