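import Mathlib
import Pool.Agent.ND4.Defs

/-!
# Basic facts on the plane minus the lattice points
-/

set_option autoImplicit false

open Topology Set Filter

namespace Pool.Agent.ND4

/-! ### Lattice points -/

@[simp] lemma lat_fst (u : ℤ × ℤ) : (lat u).1 = u.1 := rfl
@[simp] lemma lat_snd (u : ℤ × ℤ) : (lat u).2 = u.2 := rfl

lemma lat_injective : Function.Injective lat := by
  intro u v h
  have h1 := congrArg Prod.fst h
  have h2 := congrArg Prod.snd h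
  simp only [lat_fst, lat_snd, Int.cast_inj] at h1 h2
  exact Prod.ext h1 h2

@[simp] lemma lat_inj {u v : ℤ × ℤ} : lat u = lat v ↔ u = v := lat_injective.eq_iff

lemma lat_add (u v : ℤ × ℤ) : lat (u + v) = lat u + lat v := by
  ext <;> simp [lat]

lemma lat_neg (u : ℤ × ℤ) : lat (-u) = -lat u := by
  ext <;> simp [lat]

lemma lat_sub (u v : ℤ × ℤ) : lat (u - v) = lat u - lat v := by
  ext <;> simp [lat]

lemma lat_zero : lat 0 = 0 := by
  ext <;> simp [lat]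

lemma lat_zsmul (n : ℤ) (u : ℤ × ℤ) : lat (n • u) = (n : ℝ) • lat u := by
  ext <;> simp [lat]

/-- The discs around the lattice points. -/
def disc (u : ℤ × ℤ) : Set (ℝ × ℝ) := {z | ‖z - lat u‖ < 1 / 4}

lemma disc_eq_ball (u : ℤ × ℤ) : disc u = Metric.ball (lat u) (1 / 4) := by
  ext z
  simp [disc, Metric.mem_ball, dist_eq_norm]

lemma isOpen_disc (u : ℤ × ℤ) : IsOpen (disc u) := by
  rw [disc_eq_ball]
  exact Metric.isOpen_ball

lemma lat_mem_disc (u : ℤ × ℤ) : lat u ∈ disc u := by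
  simp [disc]

lemma one_le_norm_lat {u : ℤ × ℤ} (hu : u ≠ 0) : 1 ≤ ‖lat u‖ := by
  rw [Prod.norm_def]
  by_cases h : u.1 = 0
  · have h2 : u.2 ≠ 0 := fun h2 => hu (Prod.ext h h2)
    refine le_trans ?_ (le_max_right _ _)
    rw [lat_snd, Real.norm_eq_abs, ← Int.cast_abs]
    exact_mod_cast Int.one_le_abs h2
  · refine le_trans ?_ (le_max_left _ _)
    rw [lat_fst, Real.norm_eq_abs, ← Int.cast_abs]
    exact_mod_cast Int.one_le_abs h

lemma one_le_norm_lat_sub {u v : ℤ × ℤ} (h : u ≠ v) : 1 ≤ ‖lat u - lat v‖ := by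
  rw [← lat_sub]
  exact one_le_norm_lat (sub_ne_zero.mpr h)

/-- A point is at distance less than `1/2` from at most one lattice point. -/
lemma eq_of_near {z : ℝ × ℝ} {u v : ℤ × ℤ} (hu : ‖z - lat u‖ < 1 / 2) (hv : ‖z - lat v‖ < 1 / 2) :
    u = v := by
  by_contra h
  have h1 := one_le_norm_lat_sub h
  have h2 : lat u - lat v = (z - lat v) - (z - lat u) := by abel
  rw [h2] at h1
  have := norm_sub_le (z - lat v) (z - lat u)
  linarith

lemma disc_disjoint {z : ℝ × ℝ} {u v : ℤ × ℤ} (hu : z ∈ disc u) (hv : z ∈ disc v) : u = v := by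
  simp only [disc, mem_ofPred_eq] at hu hv
  exact eq_of_near (hu.trans (by norm_num)) (hv.trans (by norm_num))

/-! ### Core and discs -/

lemma notMem_core_iff {z : PPlane} : z ∉ core ↔ ∃ u, (z : ℝ × ℝ) ∈ disc u := by
  simp [core, disc]

lemma mem_core_iff {z : PPlane} : z ∈ core ↔ ∀ u, (z : ℝ × ℝ) ∉ disc u := by
  rw [← not_iff_not, notMem_core_iff]
  push Not
  rfl

lemma core_or_disc (z : PPlane) : z ∈ core ∨ ∃ u, (z : ℝ × ℝ) ∈ disc u := by
  by_cases h : z ∈ core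
  · exact Or.inl h
  · exact Or.inr (notMem_core_iff.mp h)

lemma isClosed_core : IsClosed core := by
  have : core = ⋂ u : ℤ × ℤ, {z : PPlane | 1 / 4 ≤ ‖(z : ℝ × ℝ) - lat u‖} := by
    ext z
    simp [core]
  rw [this]
  exact isClosed_iInter fun u => isClosed_le continuous_const (by fun_prop)

/-- A connected set which avoids the core lies in one disc. -/
lemma subset_disc_of_isPreconnected {s : Set PPlane} (hs : IsPreconnected s)
    (h : Disjoint s core) {z : PPlane} (hz : z ∈ s) {u : ℤ × ℤ} (hzu : (z : ℝ × ℝ) ∈ disc u) :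
    ∀ w ∈ s, (w : ℝ × ℝ) ∈ disc u := by
  have hU : IsOpen {w : PPlane | (w : ℝ × ℝ) ∈ disc u} :=
    (isOpen_disc u).preimage continuous_subtype_val
  have hV : IsOpen {w : PPlane | ∃ v, v ≠ u ∧ (w : ℝ × ℝ) ∈ disc v} := by
    have : {w : PPlane | ∃ v, v ≠ u ∧ (w : ℝ × ℝ) ∈ disc v} =
        ⋃ v : ℤ × ℤ, ⋃ _ : v ≠ u, {w : PPlane | (w : ℝ × ℝ) ∈ disc v} := by
      ext w
      simp
    rw [this]
    exact isOpen_iUnion fun v => isOpen_iUnion fun _ =>
      (isOpen_disc v).preimage continuous_subtype_val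
  have hsub : s ⊆ {w : PPlane | (w : ℝ × ℝ) ∈ disc u} := by
    refine hs.subset_left_of_subset_union hU hV ?_ ?_ ⟨z, hz, hzu⟩
    · rw [Set.disjoint_left]
      rintro w hw ⟨v, hvu, hv⟩
      exact hvu (disc_disjoint hv hw)
    · intro w hw
      obtain ⟨v, hv⟩ := notMem_core_iff.mp (Set.disjoint_left.mp h hw)
      by_cases hvu : v = u
      · exact Or.inl (hvu ▸ hv)
      · exact Or.inr ⟨v, hvu, hv⟩
  exact fun w hw => hsub hw

/-! ### The group of translations and half turns -/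

/-- The affine map `z ↦ ε z + 2 g`. -/
noncomputable def gact (ε : ℤˣ) (g : ℤ × ℤ) (z : ℝ × ℝ) : ℝ × ℝ :=
  ((ε : ℤ) : ℝ) • z + (2 : ℝ) • lat g

lemma eps_cases (ε : ℤˣ) : ε = 1 ∨ ε = -1 := Int.units_eq_one_or ε

@[simp] lemma gact_one_zero (z : ℝ × ℝ) : gact 1 0 z = z := by
  simp [gact, lat_zero]

lemma gact_one (g : ℤ × ℤ) (z : ℝ × ℝ) : gact 1 g z = z + (2 : ℝ) • lat g := by
  simp [gact]

lemma gact_neg_one (g : ℤ × ℤ) (z : ℝ × ℝ) : gact (-1) g z = -z + (2 : ℝ) • lat g := by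
  simp [gact]

lemma eps_sq (ε : ℤˣ) : ((ε : ℤ) : ℝ) * ((ε : ℤ) : ℝ) = 1 := by
  rcases eps_cases ε with rfl | rfl <;> simp

lemma eps_abs (ε : ℤˣ) : |((ε : ℤ) : ℝ)| = 1 := by
  rcases eps_cases ε with rfl | rfl <;> simp

lemma gact_gact (ε ε' : ℤˣ) (g g' : ℤ × ℤ) (z : ℝ × ℝ) :
    gact ε g (gact ε' g' z) = gact (ε * ε') (g + (ε : ℤ) • g') z := by
  simp only [gact, lat_add, lat_zsmul, Units.val_mul, Int.cast_mul, smul_add, smul_smul]
  rw [mul_comm (2 : ℝ) ((ε : ℤ) : ℝ)]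
  abel

lemma gact_lat (ε : ℤˣ) (g u : ℤ × ℤ) : gact ε g (lat u) = lat ((ε : ℤ) • u + (2 : ℤ) • g) := by
  simp only [gact, lat_add, lat_zsmul]
  norm_num

/-- The inverse of `gact ε g` is `gact ε (-ε g)`. -/
lemma gact_inv (ε : ℤˣ) (g : ℤ × ℤ) (z : ℝ × ℝ) :
    gact ε (-((ε : ℤ) • g)) (gact ε g z) = z := by
  rw [gact_gact]
  have h : -((ε : ℤ) • g) + (ε : ℤ) • g = 0 := by simp
  rw [h]
  have h2 : ε * ε = 1 := Int.units_mul_self ε
  rw [h2, gact_one_zero]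

lemma gact_injective (ε : ℤˣ) (g : ℤ × ℤ) : Function.Injective (gact ε g) := by
  intro z w h
  rw [← gact_inv ε g z, h, gact_inv]

@[fun_prop]
lemma continuous_gact (ε : ℤˣ) (g : ℤ × ℤ) : Continuous (gact ε g) := by
  unfold gact
  fun_prop

lemma norm_gact_sub (ε : ℤˣ) (g : ℤ × ℤ) (z w : ℝ × ℝ) :
    ‖gact ε g z - gact ε g w‖ = ‖z - w‖ := by
  have : gact ε g z - gact ε g w = ((ε : ℤ) : ℝ) • (z - w) := by
    simp only [gact, smul_sub]
    abel
  rw [this, norm_smul, Real.norm_eq_abs, eps_abs, one_mul]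

lemma norm_gact_sub_lat (ε : ℤˣ) (g u : ℤ × ℤ) (z : ℝ × ℝ) :
    ‖gact ε g z - lat ((ε : ℤ) • u + (2 : ℤ) • g)‖ = ‖z - lat u‖ := by
  rw [← gact_lat, norm_gact_sub]

lemma gact_mem_disc {ε : ℤˣ} {g u : ℤ × ℤ} {z : ℝ × ℝ} (hz : z ∈ disc u) :
    gact ε g z ∈ disc ((ε : ℤ) • u + (2 : ℤ) • g) := by
  simp only [disc, mem_ofPred_eq] at hz ⊢
  rwa [norm_gact_sub_lat]

lemma gact_ne_lat (ε : ℤˣ) (g : ℤ × ℤ) (z : PPlane) (u : ℤ × ℤ) : gact ε g z ≠ lat u := by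
  intro h
  have h1 := gact_inv ε g (z : ℝ × ℝ)
  rw [h, gact_lat] at h1
  exact z.2 _ h1.symm

/-- The action on the plane minus the lattice points. -/
noncomputable def gactE (ε : ℤˣ) (g : ℤ × ℤ) (z : PPlane) : PPlane :=
  ⟨gact ε g z, gact_ne_lat ε g z⟩

@[simp] lemma coe_gactE (ε : ℤˣ) (g : ℤ × ℤ) (z : PPlane) :
    (gactE ε g z : ℝ × ℝ) = gact ε g z := rfl

@[fun_prop]
lemma continuous_gactE (ε : ℤˣ) (g : ℤ × ℤ) : Continuous (gactE ε g) :=
  Continuous.subtype_mk (by fun_prop) _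

lemma gactE_one_zero (z : PPlane) : gactE 1 0 z = z := Subtype.ext (gact_one_zero _)

lemma gactE_gactE (ε ε' : ℤˣ) (g g' : ℤ × ℤ) (z : PPlane) :
    gactE ε g (gactE ε' g' z) = gactE (ε * ε') (g + (ε : ℤ) • g') z :=
  Subtype.ext (gact_gact ..)

lemma gactE_inv (ε : ℤˣ) (g : ℤ × ℤ) (z : PPlane) :
    gactE ε (-((ε : ℤ) • g)) (gactE ε g z) = z := Subtype.ext (gact_inv ..)

lemma rel_iff {z z' : PPlane} : Rel z z' ↔ ∃ (ε : ℤˣ) (g : ℤ × ℤ), z' = gactE ε g z := by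
  constructor
  · rintro ⟨u, h | h⟩
    · exact ⟨1, u, Subtype.ext (by rw [h, coe_gactE, gact_one])⟩
    · exact ⟨-1, u, Subtype.ext (by rw [h, coe_gactE, gact_neg_one])⟩
  · rintro ⟨ε, g, rfl⟩
    rcases eps_cases ε with rfl | rfl
    · exact ⟨g, Or.inl (gact_one _ _)⟩
    · exact ⟨g, Or.inr (gact_neg_one _ _)⟩

lemma rel_gactE (ε : ℤˣ) (g : ℤ × ℤ) (z : PPlane) : Rel z (gactE ε g z) := rel_iff.mpr ⟨ε, g, rfl⟩

lemma Rel.refl (z : PPlane) : Rel z z := rel_iff.mpr ⟨1, 0, (gactE_one_zero z).symm⟩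

lemma Rel.symm {z z' : PPlane} (h : Rel z z') : Rel z' z := by
  obtain ⟨ε, g, rfl⟩ := rel_iff.mp h
  exact rel_iff.mpr ⟨ε, _, (gactE_inv ε g z).symm⟩

lemma Rel.trans {z z' z'' : PPlane} (h : Rel z z') (h' : Rel z' z'') : Rel z z'' := by
  obtain ⟨ε, g, rfl⟩ := rel_iff.mp h
  obtain ⟨ε', g', rfl⟩ := rel_iff.mp h'
  exact rel_iff.mpr ⟨_, _, gactE_gactE ..⟩

lemma gactE_mem_core {ε : ℤˣ} {g : ℤ × ℤ} {z : PPlane} : gactE ε g z ∈ core ↔ z ∈ core := by
  suffices h : ∀ (ε : ℤˣ) (g : ℤ × ℤ) (z : PPlane), z ∈ core → gactE ε g z ∈ core by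
    refine ⟨fun hz => ?_, h ε g z⟩
    rw [← gactE_inv ε g z]
    exact h _ _ _ hz
  intro ε g z hz
  by_contra hc
  obtain ⟨u, hu⟩ := notMem_core_iff.mp hc
  have h1 := gact_mem_disc (ε := ε) (g := -((ε : ℤ) • g)) hu
  rw [coe_gactE, gact_inv] at h1
  exact mem_core_iff.mp hz _ h1

/-- The action is free. -/
lemma gactE_eq_self {ε : ℤˣ} {g : ℤ × ℤ} {z : PPlane} (h : gactE ε g z = z) : ε = 1 ∧ g = 0 := by
  have h1 : gact ε g (z : ℝ × ℝ) = z := congrArg Subtype.val h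
  rcases eps_cases ε with rfl | rfl
  · rw [gact_one] at h1
    have h2 : (2 : ℝ) • lat g = 0 := by simpa using h1
    have h3 : lat g = lat 0 := by
      rw [lat_zero]
      simpa using h2
    exact ⟨rfl, lat_injective h3⟩
  · rw [gact_neg_one] at h1
    exfalso
    refine z.2 g ?_
    have h2 : (2 : ℝ) • (z : ℝ × ℝ) = (2 : ℝ) • lat g := by
      rw [two_smul ℝ (z : ℝ × ℝ)]
      nth_rewrite 1 [← h1]
      abel
    exact smul_right_injective (ℝ × ℝ) (two_ne_zero (α := ℝ)) h2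

variable {Y : Type*} [TopologicalSpace Y] (R : HoledSphere Y)

lemma HoledSphere.continuous_q : Continuous R.q := R.isCoveringMap.continuous

@[simp] lemma HoledSphere.q_gactE (ε : ℤˣ) (g : ℤ × ℤ) (z : PPlane) : R.q (gactE ε g z) = R.q z :=
  (R.map_rel _ _ (rel_gactE ε g z)).symm

/-- Uniqueness of lifts. -/
lemma HoledSphere.lift_unique {A : Type*} [TopologicalSpace A] [PreconnectedSpace A]
    {g₁ g₂ : A → PPlane} (h₁ : Continuous g₁) (h₂ : Continuous g₂)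
    (he : ∀ a, R.q (g₁ a) = R.q (g₂ a)) {a : A} (ha : g₁ a = g₂ a) : g₁ = g₂ :=
  R.isCoveringMap.eq_of_comp_eq h₁ h₂ (funext he) a ha

/-- Uniqueness of lifts on a preconnected set. -/
lemma HoledSphere.lift_unique_on {A : Type*} [TopologicalSpace A] {s : Set A}
    (hs : IsPreconnected s) {g₁ g₂ : A → PPlane} (h₁ : ContinuousOn g₁ s)
    (h₂ : ContinuousOn g₂ s) (he : ∀ a ∈ s, R.q (g₁ a) = R.q (g₂ a)) {a : A} (has : a ∈ s)
    (ha : g₁ a = g₂ a) : ∀ b ∈ s, g₁ b = g₂ b :=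
  R.isCoveringMap.eqOn_of_comp_eqOn hs h₁ h₂ (fun a ha => he a ha) has ha

/-- Paths on the real line lift. -/
lemma HoledSphere.exists_lift_real {c : ℝ → Y} (hc : Continuous c) {t₀ : ℝ} {e : PPlane}
    (he : R.q e = c t₀) : ∃ l : ℝ → PPlane, Continuous l ∧ (∀ t, R.q (l t) = c t) ∧ l t₀ = e := by
  obtain ⟨F, ⟨h1, h2⟩, -⟩ := R.isCoveringMap.existsUnique_continuousMap_lifts
    (⟨c, hc⟩ : C(ℝ, Y)) t₀ e he
  exact ⟨F, F.continuous, fun t => congrFun h2 t, h1⟩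

/-! ### Determinants -/

/-- The determinant of two lattice vectors. -/
def det (a b : ℤ × ℤ) : ℤ := a.1 * b.2 - a.2 * b.1

lemma det_self (a : ℤ × ℤ) : det a a = 0 := by simp [det, mul_comm]

lemma det_add_right (a b c : ℤ × ℤ) : det a (b + c) = det a b + det a c := by
  simp [det]; ring

lemma det_sub_right (a b c : ℤ × ℤ) : det a (b - c) = det a b - det a c := by
  simp [det]; ring

lemma det_neg_right (a b : ℤ × ℤ) : det a (-b) = -det a b := by
  simp [det]; ring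

lemma det_zsmul_right (a b : ℤ × ℤ) (n : ℤ) : det a (n • b) = n * det a b := by
  simp [det]; ring

lemma det_zsmul_left (a b : ℤ × ℤ) (n : ℤ) : det (n • a) b = n * det a b := by
  simp [det]; ring

lemma exists_det_eq_one {v : ℤ × ℤ} (hv : IsCoprime v.1 v.2) (j : ℤ) : ∃ u, det v u = j := by
  obtain ⟨a, b, h⟩ := hv
  exact ⟨(-b * j, a * j), by simp only [det]; linear_combination j * h⟩

/-! ### The two types of essential lifts -/

/-- `Kind l v e`: if `e = some x`, the line `l` joins the lattice points `x` and `x + v`; if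
`e = none` it is invariant under the translation by `2 v`. -/
def Kind (l : ℝ → PPlane) (v : ℤ × ℤ) : Option (ℤ × ℤ) → Prop
  | some x => Tendsto (fun t => (l t : ℝ × ℝ)) atBot (𝓝 (lat x)) ∧
      Tendsto (fun t => (l t : ℝ × ℝ)) atTop (𝓝 (lat (x + v)))
  | none => ∀ t, (l (t + 1) : ℝ × ℝ) = l t + (2 : ℝ) • lat v

/-- The lattice points which are limits of the line. -/
def ends (v : ℤ × ℤ) : Option (ℤ × ℤ) → Set (ℤ × ℤ)
  | some x => {x, x + v}
  | none => ∅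

omit [TopologicalSpace Y] in
lemma slope_iff {q : PPlane → Y} {c : ℝ → Y} {v : ℤ × ℤ} :
    Slope q c v ↔ v ≠ 0 ∧ ∃ (l : ℝ → PPlane) (e : Option (ℤ × ℤ)), Continuous l ∧
      (∀ t, q (l t) = c t) ∧ Kind l v e := by
  constructor
  · rintro ⟨hv, l, hl, hq, ⟨x, hx⟩ | hp⟩
    · exact ⟨hv, l, some x, hl, hq, hx⟩
    · exact ⟨hv, l, none, hl, hq, hp⟩
  · rintro ⟨hv, l, e, hl, hq, hk⟩
    cases e with
    | none => exact ⟨hv, l, hl, hq, Or.inr hk⟩
    | some x => exact ⟨hv, l, hl, hq, Or.inl ⟨x, hk⟩⟩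

end Pool.Agent.ND4
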