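import Mathlib
import Pool.Agent.ND4.Basic

/-!
# Small arcs of two closed curves, and what two crossings over the same pair of arcs have in common
-/

set_option autoImplicit false

open Topology Set Filter

namespace Pool.Agent.ND4

variable {Y : Type*} [TopologicalSpace Y]

/-- The arcs `a(I)` and `b(J)` lie in a common disc `q(B)`, `q` injective on the convex open set
`B`; `α` and `β` are the lifts of the two arcs to `B`. -/
def CommonDisc (R : HoledSphere Y) (a b : ℝ → Y) (I J : Set ℝ) : Prop :=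
  ∃ (B : Set (ℝ × ℝ)) (α β : ℝ → PPlane), IsOpen B ∧ Convex ℝ B ∧
    (∀ z ∈ B, ∀ u : ℤ × ℤ, z ≠ lat u) ∧
    (∀ z z' : PPlane, (z : ℝ × ℝ) ∈ B → (z' : ℝ × ℝ) ∈ B → R.q z = R.q z' → z = z') ∧
    ContinuousOn α I ∧ ContinuousOn β J ∧
    (∀ s ∈ I, (α s : ℝ × ℝ) ∈ B ∧ R.q (α s) = a s) ∧
    (∀ t ∈ J, (β t : ℝ × ℝ) ∈ B ∧ R.q (β t) = b t)

private lemma isOpen_pplane : IsOpen {z : ℝ × ℝ | ∀ u : ℤ × ℤ, z ≠ lat u} := by
  rw [Metric.isOpen_iff]
  intro z hz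
  by_cases h : ∃ u, z ∈ disc u
  · obtain ⟨u, hu⟩ := h
    have hpos : 0 < ‖z - lat u‖ := norm_pos_iff.mpr (sub_ne_zero.mpr (hz u))
    refine ⟨min (‖z - lat u‖) (1 / 4), by positivity, fun w hw v hv => ?_⟩
    rw [Metric.mem_ball, dist_eq_norm] at hw
    have h1 : ‖w - z‖ < ‖z - lat u‖ := lt_of_lt_of_le hw (min_le_left _ _)
    have h2 : ‖w - z‖ < 1 / 4 := lt_of_lt_of_le hw (min_le_right _ _)
    have hvu : v = u := by
      apply eq_of_near (z := z)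
      · rw [← hv, norm_sub_rev]
        linarith
      · have : ‖z - lat u‖ < 1 / 4 := hu
        linarith
    rw [hv, hvu, norm_sub_rev] at h1
    exact lt_irrefl _ h1
  · push Not at h
    refine ⟨1 / 4, by norm_num, fun w hw v hv => ?_⟩
    rw [Metric.mem_ball, dist_eq_norm, hv, norm_sub_rev] at hw
    exact h v hw

/-- Locally around a pair of parameters. -/
private lemma local_cell [T2Space Y] (R : HoledSphere Y) {a b : ℝ → Y} (ha : Continuous a)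
    (hb : Continuous b) (x : ℝ × ℝ) : ∃ W : Set (ℝ × ℝ), IsOpen W ∧ x ∈ W ∧
      ∀ I J : Set ℝ, I ×ˢ J ⊆ W → I.Nonempty → J.Nonempty →
        (∀ s ∈ I, ∀ t ∈ J, a s ≠ b t) ∨ CommonDisc R a b I J := by
  by_cases hx : a x.1 = b x.2
  · obtain ⟨z, hz⟩ := R.surjective (a x.1)
    obtain ⟨e, hze, hqe⟩ := R.isCoveringMap.isLocalHomeomorph z
    have hS : IsOpen (Subtype.val '' e.source : Set (ℝ × ℝ)) :=
      isOpen_pplane.isOpenMap_subtype_val _ e.open_source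
    obtain ⟨r, hr, hrB⟩ := Metric.isOpen_iff.mp hS z.1 ⟨z, hze, rfl⟩
    set B := Metric.ball (z : ℝ × ℝ) r with hB
    have hBl : ∀ w ∈ B, ∀ u : ℤ × ℤ, w ≠ lat u := by
      intro w hw
      obtain ⟨w', -, rfl⟩ := hrB hw
      exact w'.2
    have hBs : ∀ w : PPlane, (w : ℝ × ℝ) ∈ B → w ∈ e.source := by
      intro w hw
      obtain ⟨w', h1, h2⟩ := hrB hw
      rwa [Subtype.ext h2] at h1
    set O : Set PPlane := Subtype.val ⁻¹' B with hO
    have hOo : IsOpen O := Metric.isOpen_ball.preimage continuous_subtype_val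
    set U := R.q '' O with hU
    have hUo : IsOpen U := R.isCoveringMap.isLocalHomeomorph.isOpenMap _ hOo
    have hUt : U ⊆ e.target := by
      rintro y ⟨w, hw, rfl⟩
      rw [hqe]
      exact e.map_source (hBs w hw)
    have hsymm : ∀ y ∈ U, (e.symm y : ℝ × ℝ) ∈ B ∧ R.q (e.symm y) = y := by
      rintro y ⟨w, hw, rfl⟩
      have h1 : e.symm (R.q w) = w := by
        rw [hqe]
        exact e.left_inv (hBs w hw)
      rw [h1]
      exact ⟨hw, rfl⟩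
    have hzU : a x.1 ∈ U := ⟨z, Metric.mem_ball_self hr, hz⟩
    refine ⟨(fun p : ℝ × ℝ => a p.1) ⁻¹' U ∩ (fun p : ℝ × ℝ => b p.2) ⁻¹' U,
      (hUo.preimage (by fun_prop)).inter (hUo.preimage (by fun_prop)), ⟨hzU, ?_⟩, ?_⟩
    · change b x.2 ∈ U
      rw [← hx]
      exact hzU
    · rintro I J hIJ ⟨s0, hs0⟩ ⟨t0, ht0⟩
      right
      have hI : ∀ s ∈ I, a s ∈ U := fun s hs => (hIJ (mk_mem_prod hs ht0)).1
      have hJ : ∀ t ∈ J, b t ∈ U := fun t ht => (hIJ (mk_mem_prod hs0 ht)).2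
      refine ⟨B, fun s => e.symm (a s), fun t => e.symm (b t), Metric.isOpen_ball,
        convex_ball _ _, hBl, ?_, ?_, ?_, fun s hs => hsymm _ (hI s hs),
        fun t ht => hsymm _ (hJ t ht)⟩
      · intro w w' hw hw' hq
        rw [hqe] at hq
        exact e.injOn (hBs w hw) (hBs w' hw') hq
      · exact e.continuousOn_symm.comp ha.continuousOn fun s hs => hUt (hI s hs)
      · exact e.continuousOn_symm.comp hb.continuousOn fun t ht => hUt (hJ t ht)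
  · obtain ⟨U, V, hU, hV, hxU, hxV, hUV⟩ := t2_separation hx
    refine ⟨(fun p : ℝ × ℝ => a p.1) ⁻¹' U ∩ (fun p : ℝ × ℝ => b p.2) ⁻¹' V,
      (hU.preimage (by fun_prop)).inter (hV.preimage (by fun_prop)), ⟨hxU, hxV⟩, ?_⟩
    intro I J hIJ _ _
    left
    intro s hs t ht hst
    obtain ⟨h1, h2⟩ := hIJ (mk_mem_prod hs ht)
    change a s ∈ U at h1
    change b t ∈ V at h2
    rw [hst] at h1
    exact Set.disjoint_left.mp hUV h1 h2

theorem exists_partition [T2Space Y] (R : HoledSphere Y) {a b : ℝ → Y} (ha : Continuous a)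
    (hb : Continuous b) : ∃ n : ℕ, 0 < n ∧ ∀ i j : Fin n,
      (∀ s ∈ Icc ((i : ℝ) / n) ((i + 1) / n), ∀ t ∈ Icc ((j : ℝ) / n) ((j + 1) / n), a s ≠ b t) ∨
      CommonDisc R a b (Icc ((i : ℝ) / n) ((i + 1) / n)) (Icc ((j : ℝ) / n) ((j + 1) / n)) := by
  choose W hWo hxW hW using local_cell R ha hb
  have hcomp : IsCompact (Icc (0 : ℝ) 1 ×ˢ Icc (0 : ℝ) 1) := isCompact_Icc.prod isCompact_Icc
  obtain ⟨δ, hδ, hball⟩ := lebesgue_number_lemma_of_metric (c := W) hcomp (fun x => hWo x)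
    (fun x _ => mem_iUnion.mpr ⟨x, hxW x⟩)
  obtain ⟨n, hn⟩ := exists_nat_gt (1 / δ)
  have hn0 : (0 : ℝ) < n := lt_trans (by positivity) hn
  have hn0' : 0 < n := by exact_mod_cast hn0
  have hnδ : 1 / (n : ℝ) < δ := by
    rw [div_lt_iff₀ hδ] at hn
    rw [div_lt_iff₀ hn0]
    linarith
  refine ⟨n, hn0', fun i j => ?_⟩
  have hi : ∀ i : Fin n, (i : ℝ) / n ∈ Icc (0 : ℝ) 1 := by
    intro i
    refine ⟨by positivity, ?_⟩
    rw [div_le_one hn0]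
    exact_mod_cast i.2.le
  obtain ⟨x, hx⟩ := hball ((i : ℝ) / n, (j : ℝ) / n) (mk_mem_prod (hi i) (hi j))
  have hstep : ∀ i : Fin n, ∀ s ∈ Icc ((i : ℝ) / n) ((i + 1) / n), |s - (i : ℝ) / n| < δ := by
    intro i s hs
    rw [abs_of_nonneg (by linarith [hs.1])]
    have h1 := hs.2
    rw [add_div] at h1
    linarith
  refine hW x _ _ ?_ ⟨(i : ℝ) / n, left_mem_Icc.mpr ?_⟩ ⟨(j : ℝ) / n, left_mem_Icc.mpr ?_⟩
  · rintro ⟨s, t⟩ ⟨hs, ht⟩
    apply hx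
    rw [Metric.mem_ball, Prod.dist_eq, max_lt_iff]
    exact ⟨hstep i s hs, hstep j t ht⟩
  · gcongr
    linarith
  · gcongr
    linarith

private lemma per_int {Z : Type*} {a : ℝ → Z} (pa : ∀ t, a (t + 1) = a t) (n : ℤ) (t : ℝ) :
    a (n + t) = a t := by
  have h : Function.Periodic a 1 := pa
  have := h.int_mul n t
  rw [mul_one] at this
  rw [add_comm, this]

theorem cell_shift (R : HoledSphere Y) (k : Y ≃ₜ Y) {a b : ℝ → Y} (ha : Continuous a)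
    (hb : Continuous b) (pa : ∀ t, a (t + 1) = a t) (pb : ∀ t, b (t + 1) = b t)
    {l m : ℝ → PPlane} (hl : Continuous l) (hm : Continuous m) (hla : ∀ t, R.q (l t) = k (a t))
    (hmb : ∀ t, R.q (m t) = k (b t)) {I J : Set ℝ} (hI : IsPreconnected I)
    (hJ : IsPreconnected J) (hIJ : CommonDisc R a b I J) {s₁ s₂ t₁ t₂ : ℝ} (hs₁ : s₁ ∈ I)
    (hs₂ : s₂ ∈ I) (ht₁ : t₁ ∈ J) (ht₂ : t₂ ∈ J) {p₁ p₂ n₁ n₂ : ℤ} {ε₁ ε₂ : ℤˣ} {g₁ g₂ : ℤ × ℤ}
    (h₁ : (m (n₁ + t₁) : ℝ × ℝ) = gact ε₁ g₁ (l (p₁ + s₁)))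
    (h₂ : (m (n₂ + t₂) : ℝ × ℝ) = gact ε₂ g₂ (l (p₂ + s₂))) :
    (m (n₂ + t₁) : ℝ × ℝ) = gact ε₂ g₂ (l (p₂ + s₁)) := by
  obtain ⟨B, α, β, hBo, hBc, hBl, hBi, hα, hβ, hα', hβ'⟩ := hIJ
  have hq : ∀ {ε : ℤˣ} {g : ℤ × ℤ} {p n : ℤ} {s t : ℝ} (_ : s ∈ I) (_ : t ∈ J)
      (_ : (m (n + t) : ℝ × ℝ) = gact ε g (l (p + s))), α s = β t := by
    intro ε g p n s t hs ht h
    have h1 : m (n + t) = gactE ε g (l (p + s)) := Subtype.ext h
    have h2 : k (b t) = k (a s) := by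
      rw [← per_int pb n t, ← hmb, h1, R.q_gactE, hla, per_int pa]
    apply hBi _ _ (hα' s hs).1 (hβ' t ht).1
    rw [(hα' s hs).2, (hβ' t ht).2, k.injective h2]
  have e₁ : α s₁ = β t₁ := hq hs₁ ht₁ h₁
  have e₂ : α s₂ = β t₂ := hq hs₂ ht₂ h₂
  have : LocallyPathConnectedSpace B := hBo.locallyPathConnectedSpace
  have hBne : (β t₂ : ℝ × ℝ) ∈ B := (hβ' t₂ ht₂).1
  have : ContractibleSpace B := hBc.contractibleSpace ⟨_, hBne⟩
  let ι : B → PPlane := fun z => ⟨z.1, hBl z.1 z.2⟩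
  have hι : Continuous ι := Continuous.subtype_mk continuous_subtype_val _
  obtain ⟨F, ⟨hF0, hF⟩, -⟩ := R.isCoveringMap.existsUnique_continuousMap_lifts
    (A := B) ⟨fun z => k (R.q (ι z)), by
      have := R.continuous_q
      fun_prop⟩ ⟨(β t₂ : ℝ × ℝ), hBne⟩ (m (n₂ + t₂)) (by
      change R.q (m (n₂ + t₂)) = k (R.q (ι ⟨(β t₂ : ℝ × ℝ), hBne⟩))
      have h3 : ι ⟨(β t₂ : ℝ × ℝ), hBne⟩ = β t₂ := rfl
      rw [h3, (hβ' t₂ ht₂).2, hmb, per_int pb])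
  have hFq : ∀ z : B, R.q (F z) = k (R.q (ι z)) := fun z => congrFun hF z
  -- the extended map
  classical
  let G : PPlane → PPlane := fun z => if h : (z : ℝ × ℝ) ∈ B then F ⟨z, h⟩ else z
  have hG : ∀ z : PPlane, ∀ h : (z : ℝ × ℝ) ∈ B, G z = F ⟨z, h⟩ := fun z h => dif_pos h
  have hGc : ContinuousOn G {z : PPlane | (z : ℝ × ℝ) ∈ B} := by
    rw [continuousOn_iff_continuous_domRestrict]
    have h4 : ({z : PPlane | (z : ℝ × ℝ) ∈ B}).domRestrict G =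
        fun z : {z : PPlane | (z : ℝ × ℝ) ∈ B} => F ⟨((z : PPlane) : ℝ × ℝ), z.2⟩ := by
      funext z
      exact hG z.1 z.2
    rw [h4]
    exact F.continuous.comp (Continuous.subtype_mk
      (continuous_subtype_val.comp continuous_subtype_val) _)
  have hGq : ∀ z : PPlane, (z : ℝ × ℝ) ∈ B → R.q (G z) = k (R.q z) := by
    intro z h
    rw [hG z h, hFq]
  have hGβ : ∀ t ∈ J, G (β t) = m (n₂ + t) := by
    refine R.lift_unique_on hJ (hGc.comp hβ fun t ht => (hβ' t ht).1) (by fun_prop)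
      (fun t ht => ?_) ht₂ ?_
    · rw [hGq _ (hβ' t ht).1, (hβ' t ht).2, hmb, per_int pb]
    · rw [hG _ (hβ' t₂ ht₂).1, hF0]
  have hGα : ∀ s ∈ I, G (α s) = gactE ε₂ g₂ (l (p₂ + s)) := by
    refine R.lift_unique_on hI (hGc.comp hα fun s hs => (hα' s hs).1)
      (Continuous.continuousOn (by fun_prop)) (fun s hs => ?_) hs₂ ?_
    · rw [hGq _ (hα' s hs).1, (hα' s hs).2, R.q_gactE, hla, per_int pa]
    · rw [e₂, hGβ t₂ ht₂]
      exact Subtype.ext h₂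
  rw [← hGβ t₁ ht₁, ← e₁, hGα s₁ hs₁]
  rfl

end Pool.Agent.ND4
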