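import Mathlib
import Pool.Agent.CPB.PM

/-!
# Two periodic lines in the plane with independent periods cross

`L M : ℝ → ℝ × ℝ` continuous, `L (t + 1) = L t + V`, `M (s + 1) = M s + W`, `det (V, W) ≠ 0`:
every translate of `M` meets `L`.
-/

set_option autoImplicit false

namespace Pool.Agent.ND4

open Set

/-- A continuous map `L` with `L (t + 1) = L t + V` stays at bounded distance from `t V`. -/
theorem line_bounded {L : ℝ → ℝ} (hL : Continuous L) {V : ℝ} (hV : ∀ t, L (t + 1) = L t + V) :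
    ∃ K, 0 ≤ K ∧ ∀ t, |L t - t * V| ≤ K := by
  have hg : Continuous fun t => L t - t * V := hL.sub (continuous_id.mul continuous_const)
  have hper : Function.Periodic (fun t => L t - t * V) 1 := by
    intro t
    simp only [hV]
    ring
  obtain ⟨K, hK⟩ := (isCompact_Icc (a := (0 : ℝ)) (b := 1)).exists_bound_of_continuousOn
    hg.continuousOn
  refine ⟨K, (norm_nonneg _).trans (hK 0 (by simp)), fun t => ?_⟩
  obtain ⟨y, hy, hyt⟩ := hper.exists_mem_Ico₀ one_pos t
  rw [hyt]
  exact hK y ⟨hy.1, hy.2.le⟩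

/-- **Crossing lemma.** -/
theorem cross {L M : ℝ → ℝ × ℝ} (hL : Continuous L) (hM : Continuous M) {V W : ℝ × ℝ}
    (hV : ∀ t, L (t + 1) = L t + V) (hW : ∀ s, M (s + 1) = M s + W)
    (hD : V.1 * W.2 - V.2 * W.1 ≠ 0) (u : ℝ × ℝ) : ∃ t s, L t = M s + u := by
  obtain ⟨K1, hK1, h1⟩ := line_bounded (continuous_fst.comp hL) (V := V.1)
    (fun t => by simp only [Function.comp, hV, Prod.fst_add])
  obtain ⟨K2, hK2, h2⟩ := line_bounded (continuous_snd.comp hL) (V := V.2)
    (fun t => by simp only [Function.comp, hV, Prod.snd_add])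
  obtain ⟨K3, hK3, h3⟩ := line_bounded (continuous_fst.comp hM) (V := W.1)
    (fun t => by simp only [Function.comp, hW, Prod.fst_add])
  obtain ⟨K4, hK4, h4⟩ := line_bounded (continuous_snd.comp hM) (V := W.2)
    (fun t => by simp only [Function.comp, hW, Prod.snd_add])
  simp only [Function.comp] at h1 h2 h3 h4
  set D := V.1 * W.2 - V.2 * W.1 with hDdef
  -- the inverse of `(t, s) ↦ t V - s W`
  let T : ℝ × ℝ → Fin 2 → ℝ := fun p =>
    ![(p.1 * W.2 - p.2 * W.1) / D, (p.1 * V.2 - p.2 * V.1) / D]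
  let F : (Fin 2 → ℝ) → (Fin 2 → ℝ) := fun x => T (L (x 0) - M (x 1))
  have hT : Continuous T := by
    refine continuous_pi fun i => ?_
    fin_cases i
    · simp only [T]
      show Continuous fun p : ℝ × ℝ => (p.1 * W.2 - p.2 * W.1) / D
      fun_prop
    · simp only [T]
      show Continuous fun p : ℝ × ℝ => (p.1 * V.2 - p.2 * V.1) / D
      fun_prop
  have hF : Continuous F := hT.comp
    ((hL.comp (continuous_apply 0)).sub (hM.comp (continuous_apply 1)))
  let a : Fin 2 → ℝ := ![((K1 + K3) * |W.2| + (K2 + K4) * |W.1|) / |D|,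
    ((K1 + K3) * |V.2| + (K2 + K4) * |V.1|) / |D|]
  have hDpos : 0 < |D| := abs_pos.2 hD
  have ha : ∀ i, 0 ≤ a i := by
    intro i
    fin_cases i
    · show 0 ≤ ((K1 + K3) * |W.2| + (K2 + K4) * |W.1|) / |D|
      positivity
    · show 0 ≤ ((K1 + K3) * |V.2| + (K2 + K4) * |V.1|) / |D|
      positivity
  have key : ∀ (A B p q P Q : ℝ), |p| ≤ P → |q| ≤ Q → |(p * A - q * B) / D| ≤
      (P * |A| + Q * |B|) / |D| := by
    intro A B p q P Q hp hq
    rw [abs_div]
    refine div_le_div_of_nonneg_right ?_ hDpos.le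
    calc |p * A - q * B| ≤ |p * A| + |q * B| := abs_sub _ _
      _ = |p| * |A| + |q| * |B| := by rw [abs_mul, abs_mul]
      _ ≤ _ := add_le_add (mul_le_mul_of_nonneg_right hp (abs_nonneg _))
          (mul_le_mul_of_nonneg_right hq (abs_nonneg _))
  have hb : ∀ t s, |(L t).1 - t * V.1 - ((M s).1 - s * W.1)| ≤ K1 + K3 := fun t s =>
    (abs_sub _ _).trans (add_le_add (h1 t) (h3 s))
  have hb' : ∀ t s, |(L t).2 - t * V.2 - ((M s).2 - s * W.2)| ≤ K2 + K4 := fun t s =>
    (abs_sub _ _).trans (add_le_add (h2 t) (h4 s))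
  have hn : ∀ x i, |F x i - x i| ≤ a i := by
    intro x i
    fin_cases i
    · show |((L (x 0) - M (x 1)).1 * W.2 - (L (x 0) - M (x 1)).2 * W.1) / D - x 0| ≤
        ((K1 + K3) * |W.2| + (K2 + K4) * |W.1|) / |D|
      have := key W.2 W.1 _ _ _ _ (hb (x 0) (x 1)) (hb' (x 0) (x 1))
      convert this using 2
      field_simp
      simp only [Prod.fst_sub, Prod.snd_sub, hDdef]
      ring
    · show |((L (x 0) - M (x 1)).1 * V.2 - (L (x 0) - M (x 1)).2 * V.1) / D - x 1| ≤
        ((K1 + K3) * |V.2| + (K2 + K4) * |V.1|) / |D|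
      have := key V.2 V.1 _ _ _ _ (hb (x 0) (x 1)) (hb' (x 0) (x 1))
      convert this using 2
      field_simp
      simp only [Prod.fst_sub, Prod.snd_sub, hDdef]
      ring
  obtain ⟨x, -, hx⟩ := Pool.Agent.CPB.exists_eq_of_near_id a (T u) F hF.continuousOn ha
    (fun x _ => hn x)
  refine ⟨x 0, x 1, ?_⟩
  have e0 : ((L (x 0) - M (x 1)).1 * W.2 - (L (x 0) - M (x 1)).2 * W.1) / D =
    (u.1 * W.2 - u.2 * W.1) / D := congrFun hx 0
  have e1 : ((L (x 0) - M (x 1)).1 * V.2 - (L (x 0) - M (x 1)).2 * V.1) / D =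
    (u.1 * V.2 - u.2 * V.1) / D := congrFun hx 1
  rw [div_left_inj' hD] at e0 e1
  simp only [Prod.fst_sub, Prod.snd_sub] at e0 e1
  ext
  · simp only [Prod.fst_add]
    have : ((L (x 0)).1 - (M (x 1)).1 - u.1) * D = 0 := by
      rw [hDdef]
      linear_combination V.1 * e0 - W.1 * e1
    rcases mul_eq_zero.1 this with h | h
    · linarith
    · exact absurd h hD
  · simp only [Prod.snd_add]
    have : ((L (x 0)).2 - (M (x 1)).2 - u.2) * D = 0 := by
      rw [hDdef]
      linear_combination V.2 * e0 - W.2 * e1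
    rcases mul_eq_zero.1 this with h | h
    · linarith
    · exact absurd h hD

end Pool.Agent.ND4
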