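import Mathlib

/-!
# The index of the lattice spanned by two vectors of `ℤ × ℤ`
-/

set_option autoImplicit false

namespace Pool.Agent.ND4

/-- If a code with values in a finite type separates the classes of `ℤ × ℤ` modulo `ℤ v + ℤ w`, then
`|det (v, w)|` is at most the number of codes. -/
theorem natAbs_det_le {ι : Type*} [Fintype ι] (v w : ℤ × ℤ) (code : ℤ × ℤ → ι)
    (h : ∀ u₁ u₂, code u₁ = code u₂ → ∃ j k : ℤ, u₁ - u₂ = j • v + k • w) :
    (v.1 * w.2 - v.2 * w.1).natAbs ≤ Fintype.card ι := by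
  classical
  by_cases hD : v.1 * w.2 - v.2 * w.1 = 0
  · rw [hD]; simp
  let f : (ℤ × ℤ) →ₗ[ℤ] (ℤ × ℤ) :=
    (LinearMap.toSpanSingleton ℤ (ℤ × ℤ) v).coprod (LinearMap.toSpanSingleton ℤ (ℤ × ℤ) w)
  have hf : ∀ p : ℤ × ℤ, f p = p.1 • v + p.2 • w := fun p => by simp [f]
  have hinj : Function.Injective f := by
    rw [injective_iff_map_eq_zero]
    intro p hp
    rw [hf] at hp
    have h1 : p.1 * v.1 + p.2 * w.1 = 0 := by
      have := congrArg Prod.fst hp
      simpa using this
    have h2 : p.1 * v.2 + p.2 * w.2 = 0 := by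
      have := congrArg Prod.snd hp
      simpa using this
    have h3 : p.1 * (v.1 * w.2 - v.2 * w.1) = 0 := by linear_combination w.2 * h1 - w.1 * h2
    have h4 : p.2 * (v.1 * w.2 - v.2 * w.1) = 0 := by linear_combination v.1 * h2 - v.2 * h1
    ext
    · exact (mul_eq_zero.1 h3).resolve_right hD
    · exact (mul_eq_zero.1 h4).resolve_right hD
  have hdet : LinearMap.det f = v.1 * w.2 - v.2 * w.1 := by
    rw [← LinearMap.det_toMatrix (Module.Basis.finTwoProd ℤ), Matrix.det_fin_two]
    simp [LinearMap.toMatrix_apply, hf]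
    ring
  have hcard := Submodule.natAbs_det_equiv (LinearMap.range f) (LinearEquiv.ofInjective f hinj)
  have hcomp : (LinearMap.range f).subtype ∘ₗ
      AddMonoidHom.toIntLinearMap ((LinearEquiv.ofInjective f hinj : (ℤ × ℤ) →+ LinearMap.range f)) = f := by
    ext <;> rfl
  rw [hcomp, hdet] at hcard
  rw [hcard]
  let g : ((ℤ × ℤ) ⧸ (LinearMap.range f)) → ι := fun c => code (Quotient.out c)
  have hg : Function.Injective g := by
    intro c₁ c₂ hc
    obtain ⟨j, k, hjk⟩ := h _ _ hc
    rw [← Quotient.out_eq c₁, ← Quotient.out_eq c₂]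
    refine (Submodule.Quotient.eq _).2 ?_
    exact ⟨(j, k), by rw [hf]; exact hjk.symm⟩
  rw [← Nat.card_eq_fintype_card (α := ι)]
  exact Nat.card_le_card_of_injective g hg

end Pool.Agent.ND4
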