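import Pool.Agent.ND4.Basic

/-!
# The direction lemma

Let `(ζ, ζ')` be a path of pairs of points of the punctured plane over the same point of the
surface, not related by the group.  If `ζ` starts and ends in the core, then `ζ'` starts and ends
in one disc: the punctured plane retracts to the core, and by homotopy lifting one may assume that
`ζ` stays in the core; then `ζ'` never meets the core.
-/

set_option autoImplicit false

open Topology Set Filter unitInterval

namespace Pool.Agent.ND4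

/-! ### The retraction of the punctured plane to the core -/

/-- The factor by which the radii about the lattice point `u` are multiplied. -/
noncomputable def facD (s : ℝ) (u : ℤ × ℤ) (z : ℝ × ℝ) : ℝ :=
  1 + s * (max 1 ((4 * ‖z - lat u‖)⁻¹) - 1)

/-- The retraction in the disc about `u`. -/
noncomputable def radD (s : ℝ) (u : ℤ × ℤ) (z : ℝ × ℝ) : ℝ × ℝ :=
  lat u + facD s u z • (z - lat u)

lemma norm_pos_of_ne (z : PPlane) (u : ℤ × ℤ) : 0 < ‖(z : ℝ × ℝ) - lat u‖ :=
  norm_pos_iff.2 (sub_ne_zero.2 (z.2 u))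

lemma facD_eq_one {s : ℝ} {u : ℤ × ℤ} {z : ℝ × ℝ} (h : z ∉ disc u) : facD s u z = 1 := by
  have h1 : 1 / 4 ≤ ‖z - lat u‖ := not_lt.1 h
  have h2 : (4 * ‖z - lat u‖)⁻¹ ≤ 1 := by
    rw [inv_le_one_iff₀]
    right
    linarith
  rw [facD, max_eq_left h2]
  ring

lemma radD_eq_self {s : ℝ} {u : ℤ × ℤ} {z : ℝ × ℝ} (h : z ∉ disc u) : radD s u z = z := by
  rw [radD, facD_eq_one h, one_smul]
  abel

lemma one_le_facD {s : ℝ} (hs : 0 ≤ s) (u : ℤ × ℤ) (z : ℝ × ℝ) : 1 ≤ facD s u z := by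
  have h1 : (1 : ℝ) ≤ max 1 ((4 * ‖z - lat u‖)⁻¹) := le_max_left _ _
  have h2 := mul_nonneg hs (sub_nonneg.2 h1)
  unfold facD
  linarith

lemma radD_zero (u : ℤ × ℤ) (z : ℝ × ℝ) : radD 0 u z = z := by
  rw [radD, facD]
  simp

lemma norm_radD_sub {s : ℝ} (hs : 0 ≤ s) (u : ℤ × ℤ) (z : ℝ × ℝ) :
    ‖radD s u z - lat u‖ = facD s u z * ‖z - lat u‖ := by
  have h1 : radD s u z - lat u = facD s u z • (z - lat u) := by
    rw [radD]
    abel
  rw [h1, norm_smul, Real.norm_eq_abs, abs_of_nonneg (zero_le_one.trans (one_le_facD hs u z))]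

lemma norm_radD_le {s : ℝ} (hs : s ∈ Icc (0 : ℝ) 1) {u : ℤ × ℤ} {z : ℝ × ℝ}
    (hz : z ∈ disc u) : ‖radD s u z - lat u‖ ≤ 1 / 4 := by
  have h0 : ‖z - lat u‖ < 1 / 4 := hz
  rcases eq_or_lt_of_le (norm_nonneg (z - lat u)) with h | h
  · rw [norm_radD_sub hs.1, ← h, mul_zero]
    norm_num
  · have h2 : 1 ≤ (4 * ‖z - lat u‖)⁻¹ := by
      rw [one_le_inv₀ (by linarith)]
      linarith
    have h3 : facD s u z ≤ (4 * ‖z - lat u‖)⁻¹ := by
      rw [facD, max_eq_right h2]
      have := mul_le_mul_of_nonneg_right hs.2 (sub_nonneg.2 h2)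
      linarith
    rw [norm_radD_sub hs.1]
    calc facD s u z * ‖z - lat u‖ ≤ (4 * ‖z - lat u‖)⁻¹ * ‖z - lat u‖ :=
          mul_le_mul_of_nonneg_right h3 h.le
      _ = 1 / 4 := by
          field_simp

lemma norm_radD_one {u : ℤ × ℤ} {z : PPlane} (hz : (z : ℝ × ℝ) ∈ disc u) :
    ‖radD 1 u z - lat u‖ = 1 / 4 := by
  have h0 : ‖(z : ℝ × ℝ) - lat u‖ < 1 / 4 := hz
  have h := norm_pos_of_ne z u
  have h2 : 1 ≤ (4 * ‖(z : ℝ × ℝ) - lat u‖)⁻¹ := by
    rw [one_le_inv₀ (by linarith)]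
    linarith
  rw [norm_radD_sub zero_le_one, facD, max_eq_right h2, one_mul, add_sub_cancel]
  field_simp

open Classical in
/-- The retraction. -/
noncomputable def retV (s : ℝ) (z : PPlane) : ℝ × ℝ :=
  if h : ∃ u, (z : ℝ × ℝ) ∈ disc u then radD s h.choose z else z

lemma retV_core {s : ℝ} {z : PPlane} (hz : z ∈ core) : retV s z = z := by
  rw [retV, dif_neg]
  rintro ⟨u, hu⟩
  exact mem_core_iff.1 hz u hu

lemma retV_disc {s : ℝ} {z : PPlane} {u : ℤ × ℤ} (hz : (z : ℝ × ℝ) ∈ disc u) :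
    retV s z = radD s u z := by
  have h : ∃ u, (z : ℝ × ℝ) ∈ disc u := ⟨u, hz⟩
  rw [retV, dif_pos h, disc_disjoint h.choose_spec hz]

/-- Near a point the retraction is given by one of the formulas. -/
lemma retV_near {s : ℝ} {z : PPlane} {u : ℤ × ℤ} (hz : ‖(z : ℝ × ℝ) - lat u‖ < 1 / 2) :
    retV s z = radD s u z := by
  by_cases h : (z : ℝ × ℝ) ∈ disc u
  · exact retV_disc h
  · rw [radD_eq_self h]
    refine retV_core (mem_core_iff.2 fun w hw => h ?_)
    have h1 : ‖(z : ℝ × ℝ) - lat w‖ < 1 / 4 := hw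
    have h2 := eq_of_near hz (h1.trans (by norm_num))
    rw [h2]
    exact hw

lemma continuous_retV : Continuous fun p : ℝ × PPlane => retV p.1 p.2 := by
  rw [continuous_iff_continuousAt]
  rintro ⟨s, z⟩
  by_cases h : ∃ u, ‖(z : ℝ × ℝ) - lat u‖ < 1 / 2
  · obtain ⟨u, hu⟩ := h
    have h1 : ContinuousAt (fun p : ℝ × PPlane => radD p.1 u p.2) (s, z) := by
      unfold radD facD
      have hne : (4 * ‖((s, z) : ℝ × PPlane).2.1 - lat u‖) ≠ 0 :=
        mul_ne_zero four_ne_zero (norm_pos_of_ne z u).ne'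
      have h2 : ContinuousAt (fun p : ℝ × PPlane => (4 * ‖(p.2 : ℝ × ℝ) - lat u‖)⁻¹) (s, z) :=
        ContinuousAt.inv₀ (by fun_prop) hne
      fun_prop
    refine h1.congr ?_
    have h3 : ∀ᶠ p : ℝ × PPlane in 𝓝 (s, z), ‖(p.2 : ℝ × ℝ) - lat u‖ < 1 / 2 := by
      have h4 : Continuous fun p : ℝ × PPlane => ‖(p.2 : ℝ × ℝ) - lat u‖ := by fun_prop
      exact h4.continuousAt.eventually (gt_mem_nhds hu)
    filter_upwards [h3] with p hp
    exact (retV_near hp).symm
  · push Not at h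
    have h1 : ContinuousAt (fun p : ℝ × PPlane => (p.2 : ℝ × ℝ)) (s, z) := by fun_prop
    refine h1.congr ?_
    have h3 : ∀ᶠ p : ℝ × PPlane in 𝓝 (s, z), ‖(p.2 : ℝ × ℝ) - z‖ < 1 / 4 := by
      have h4 : Continuous fun p : ℝ × PPlane => ‖(p.2 : ℝ × ℝ) - z‖ := by fun_prop
      refine h4.continuousAt.eventually (gt_mem_nhds ?_)
      simp
    filter_upwards [h3] with p hp
    refine (retV_core (mem_core_iff.2 fun w hw => ?_)).symm
    have h5 : ‖(p.2 : ℝ × ℝ) - lat w‖ < 1 / 4 := hw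
    have h6 := h w
    have h7 : (z : ℝ × ℝ) - lat w = ((p.2 : ℝ × ℝ) - lat w) - ((p.2 : ℝ × ℝ) - z) := by abel
    rw [h7] at h6
    have h8 := norm_sub_le ((p.2 : ℝ × ℝ) - lat w) ((p.2 : ℝ × ℝ) - z)
    linarith

lemma retV_ne {s : ℝ} (hs : s ∈ Icc (0 : ℝ) 1) (z : PPlane) (w : ℤ × ℤ) : retV s z ≠ lat w := by
  rcases core_or_disc z with h | ⟨u, hu⟩
  · rw [retV_core h]
    exact z.2 w
  · rw [retV_disc hu]
    intro hw
    have h1 := norm_radD_le hs hu
    rw [hw] at h1
    have h2 : w = u := by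
      by_contra hne
      have := one_le_norm_lat_sub hne
      linarith
    have h3 := norm_radD_sub hs.1 u (z : ℝ × ℝ)
    rw [hw, h2, sub_self, norm_zero] at h3
    have h4 := mul_pos (zero_lt_one.trans_le (one_le_facD hs.1 u (z : ℝ × ℝ)))
      (norm_pos_of_ne z u)
    linarith

/-- The retraction, as a homotopy of maps from the punctured plane to itself. -/
noncomputable def ret (s : I) (z : PPlane) : PPlane := ⟨retV s z, retV_ne s.2 z⟩

lemma continuous_ret : Continuous fun p : I × PPlane => ret p.1 p.2 :=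
  Continuous.subtype_mk (continuous_retV.comp
    ((continuous_subtype_val.comp continuous_fst).prodMk continuous_snd)) _

lemma ret_core {s : I} {z : PPlane} (hz : z ∈ core) : ret s z = z := Subtype.ext (retV_core hz)

lemma ret_zero (z : PPlane) : ret 0 z = z := by
  apply Subtype.ext
  show retV ((0 : I) : ℝ) z = z
  rcases core_or_disc z with h | ⟨u, hu⟩
  · exact retV_core h
  · rw [retV_disc hu]
    exact radD_zero _ _

lemma ret_one_mem (z : PPlane) : ret 1 z ∈ core := by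
  rcases core_or_disc z with h | ⟨u, hu⟩
  · rw [ret_core h]
    exact h
  · have h1 : ‖((ret 1 z : PPlane) : ℝ × ℝ) - lat u‖ = 1 / 4 := by
      show ‖retV ((1 : I) : ℝ) z - lat u‖ = 1 / 4
      rw [retV_disc hu]
      exact norm_radD_one hu
    rw [mem_core_iff]
    intro w hw
    have h2 : ‖((ret 1 z : PPlane) : ℝ × ℝ) - lat w‖ < 1 / 4 := hw
    have h3 : u = w := eq_of_near (by rw [h1]; norm_num) (h2.trans (by norm_num))
    rw [h3] at h1
    linarith

/-! ### The direction lemma -/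

variable {Y : Type*} [TopologicalSpace Y]

/-- The pairs of points of the punctured plane over the same point. -/
def Pairs (q : PPlane → Y) : Set (PPlane × PPlane) := {p | q p.1 = q p.2}

theorem direction (R : HoledSphere Y) {z₀ z₀' z₁ z₁' : PPlane}
    (hj : JoinedIn (Pairs R.q) (z₀, z₀') (z₁, z₁')) (h0 : z₀ ∈ core) (h1 : z₁ ∈ core)
    (hne : ¬ Rel z₀ z₀') :
    ∃ u : ℤ × ℤ, (z₀' : ℝ × ℝ) ∈ disc u ∧ (z₁' : ℝ × ℝ) ∈ disc u := by
  obtain ⟨γ, hγ⟩ := hj
  have hγ' : ∀ t : I, R.q (γ t).1 = R.q (γ t).2 := hγ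
  let F : C(I × I, PPlane) := ⟨fun p => ret p.1 (γ p.2).1, continuous_ret.comp
    (continuous_fst.prodMk (continuous_fst.comp (γ.continuous.comp continuous_snd)))⟩
  let H : C(I × I, Y) := ⟨fun p => R.q (F p), R.continuous_q.comp F.continuous⟩
  let f : C(I, PPlane) := ⟨fun t => (γ t).2, continuous_snd.comp γ.continuous⟩
  have hH : ∀ a, H (0, a) = R.q (f a) := by
    intro a
    show R.q (ret 0 (γ a).1) = R.q (γ a).2
    rw [ret_zero]
    exact hγ' a
  let F' : C(I × I, PPlane) := R.isCoveringMap.liftHomotopy H f hH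
  have hF' : ∀ p, R.q (F' p) = R.q (F p) := fun p =>
    congrFun (R.isCoveringMap.liftHomotopy_lifts H f hH) p
  have hF0 : ∀ a, F' (0, a) = (γ a).2 := fun a => R.isCoveringMap.liftHomotopy_zero H f hH a
  -- the endpoints do not move
  have hend : ∀ t : I, (γ t).1 ∈ core → F' (1, t) = (γ t).2 := by
    intro t ht
    have hc1 : Continuous fun s : I => F' (s, t) :=
      F'.continuous.comp (continuous_id.prodMk continuous_const)
    have h2 := R.lift_unique (g₁ := fun s : I => F' (s, t)) (g₂ := fun _ => (γ t).2) hc1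
      continuous_const (fun s => by
        rw [hF']
        show R.q (ret s (γ t).1) = R.q (γ t).2
        rw [ret_core ht]
        exact hγ' t) (a := 0) (hF0 t)
    exact congrFun h2 1
  have e0 : F' (1, 0) = z₀' := by
    rw [hend 0 (by rw [γ.source]; exact h0), γ.source]
  have e1 : F' (1, 1) = z₁' := by
    rw [hend 1 (by rw [γ.target]; exact h1), γ.target]
  have hc : Continuous fun t : I => F' (1, t) :=
    F'.continuous.comp (continuous_const.prodMk continuous_id)
  -- the second coordinate never meets the core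
  have hcore : ∀ t : I, F' (1, t) ∉ core := by
    intro t ht
    obtain ⟨ε, g, hg⟩ := rel_iff.1 (R.rel_of_core (F (1, t)) (ret_one_mem _) (F' (1, t)) ht
      (hF' _).symm)
    have h2 := R.lift_unique (g₁ := fun t : I => F' (1, t)) (g₂ := fun t => gactE ε g (F (1, t)))
      hc ((continuous_gactE ε g).comp
        (F.continuous.comp (continuous_const.prodMk continuous_id)))
      (fun s => by rw [hF', R.q_gactE]) (a := t) hg
    refine hne ?_
    have h3 : F' (1, 0) = gactE ε g (F (1, 0)) := congrFun h2 0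
    have h4 : F (1, 0) = z₀ := by
      show ret 1 (γ 0).1 = z₀
      rw [γ.source]
      exact ret_core h0
    rw [e0, h4] at h3
    rw [h3]
    exact rel_gactE ε g z₀
  have hdis : Disjoint (range fun t : I => F' (1, t)) core := by
    rw [Set.disjoint_left]
    rintro _ ⟨t, rfl⟩ ht
    exact hcore t ht
  obtain ⟨u, hu⟩ := notMem_core_iff.1 (hcore 0)
  refine ⟨u, by rw [← e0]; exact hu, ?_⟩
  rw [← e1]
  exact subset_disc_of_isPreconnected (isPreconnected_range hc) hdis ⟨0, rfl⟩ hu _ ⟨1, rfl⟩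

end Pool.Agent.ND4
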