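import Mathlib
import Pool.Agent.ND4.Dir

/-!
# The shift lemma
-/

set_option autoImplicit false

open Topology Set Filter

namespace Pool.Agent.ND4

variable {Y : Type*} [TopologicalSpace Y]

/-! ### Auxiliary facts -/

omit [TopologicalSpace Y] in
lemma shift_joined {q : PPlane → Y} {l l' : ℝ → PPlane} (hl : Continuous l)
    (hl' : Continuous l') (hq : ∀ s, q (l s) = q (l' s)) (s t : ℝ) :
    JoinedIn (Pairs q) (l s, l' s) (l t, l' t) := by
  have h1 : IsPathConnected (range fun s => (l s, l' s)) :=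
    isPathConnected_range (hl.prodMk hl')
  refine (h1.joinedIn _ (mem_range_self s) _ (mem_range_self t)).mono ?_
  rintro _ ⟨s, rfl⟩
  exact hq s

omit [TopologicalSpace Y] in
lemma shift_swap {q : PPlane → Y} {z z' w w' : PPlane}
    (h : JoinedIn (Pairs q) (z, z') (w, w')) : JoinedIn (Pairs q) (z', z) (w', w) := by
  obtain ⟨γ, hγ⟩ := h
  refine ⟨γ.map continuous_swap, fun t => ?_⟩
  exact (hγ t).symm

/-- A line which avoids the core stays in one disc. -/
lemma shift_avoid {l : ℝ → PPlane} (hl : Continuous l) {s : Set ℝ} (hs : IsPreconnected s)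
    (h : ∀ t ∈ s, l t ∉ core) {t₀ : ℝ} (ht₀ : t₀ ∈ s) {u : ℤ × ℤ}
    (hu : (l t₀ : ℝ × ℝ) ∈ disc u) : ∀ t ∈ s, (l t : ℝ × ℝ) ∈ disc u := by
  have h1 := subset_disc_of_isPreconnected (hs.image l hl.continuousOn)
    (Set.disjoint_left.mpr (by rintro _ ⟨t, ht, rfl⟩; exact h t ht)) ⟨t₀, ht₀, rfl⟩ hu
  exact fun t ht => h1 _ ⟨t, ht, rfl⟩

/-- After the last time in the core. -/
lemma shift_last {l : ℝ → PPlane} (hl : Continuous l) {x y : ℤ × ℤ} (hxy : x ≠ y) {s₀ : ℝ}
    (hs₀ : (l s₀ : ℝ × ℝ) ∈ disc x) (htop : ∀ᶠ s in atTop, (l s : ℝ × ℝ) ∈ disc y) :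
    ∃ T, s₀ < T ∧ l T ∈ core ∧ ∀ s, T < s → (l s : ℝ × ℝ) ∈ disc y := by
  obtain ⟨S, hS⟩ := eventually_atTop.mp htop
  have hne : {s | s₀ ≤ s ∧ l s ∈ core}.Nonempty := by
    by_contra hc
    rw [Set.not_nonempty_iff_eq_empty] at hc
    have h1 : ∀ t ∈ Ici s₀, l t ∉ core := fun t ht htc => by
      have : t ∈ {s | s₀ ≤ s ∧ l s ∈ core} := ⟨ht, htc⟩
      rw [hc] at this
      exact this
    have h2 := shift_avoid hl isPreconnected_Ici h1 (mem_Ici.mpr le_rfl) hs₀ (max s₀ S)
      (mem_Ici.mpr (le_max_left _ _))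
    exact hxy (disc_disjoint h2 (hS _ (le_max_right _ _)))
  have hbdd : BddAbove {s | s₀ ≤ s ∧ l s ∈ core} := by
    refine ⟨S, fun s hs => ?_⟩
    by_contra hlt
    exact notMem_core_iff.mpr ⟨y, hS s (not_le.mp hlt).le⟩ hs.2
  have hcl : IsClosed {s | s₀ ≤ s ∧ l s ∈ core} :=
    isClosed_Ici.inter (isClosed_core.preimage hl)
  have hmem := hcl.csSup_mem hne hbdd
  set T := sSup {s | s₀ ≤ s ∧ l s ∈ core} with hT
  have hgt : s₀ < T := by
    rcases eq_or_lt_of_le hmem.1 with h | h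
    · exfalso
      rw [← h] at hmem
      exact notMem_core_iff.mpr ⟨x, hs₀⟩ hmem.2
    · exact h
  refine ⟨T, hgt, hmem.2, ?_⟩
  have h1 : ∀ t ∈ Ioi T, l t ∉ core := fun t ht htc => by
    have : t ≤ T := le_csSup hbdd ⟨(hgt.trans ht).le, htc⟩
    exact absurd ht (not_lt.mpr this)
  intro s hs
  refine shift_avoid hl isPreconnected_Ioi h1 (t₀ := max s S) ?_ (hS _ (le_max_right _ _)) s hs
  exact lt_of_lt_of_le hs (le_max_left _ _)

lemma shift_eventually {l : ℝ → PPlane} {F : Filter ℝ} {y : ℤ × ℤ}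
    (h : Tendsto (fun t => (l t : ℝ × ℝ)) F (𝓝 (lat y))) : ∀ᶠ s in F, (l s : ℝ × ℝ) ∈ disc y :=
  h.eventually ((isOpen_disc y).mem_nhds (lat_mem_disc y))

lemma shift_tendsto_bot {l : ℝ → PPlane} {z : ℝ × ℝ}
    (h : Tendsto (fun t => (l t : ℝ × ℝ)) atBot (𝓝 z)) :
    Tendsto (fun t => (l (-t) : ℝ × ℝ)) atTop (𝓝 z) :=
  h.comp tendsto_neg_atTop_atBot

omit [TopologicalSpace Y] in
lemma shift_int {q : PPlane → Y} {μ : ℝ → PPlane} (hper : ∀ t, q (μ (t + 1)) = q (μ t))
    (m : ℕ) (t : ℝ) : q (μ (t + m)) = q (μ t) := by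
  have h : Function.Periodic (fun t => q (μ t)) 1 := hper
  have := h.nat_mul m t
  rwa [mul_one] at this

/-- A line with two different limits is not shifted into itself by an element of the group. -/
lemma shift_not_rel {R : HoledSphere Y} {μ : ℝ → PPlane} (hμ : Continuous μ)
    (hper : ∀ t, R.q (μ (t + 1)) = R.q (μ t)) {y y' : ℤ × ℤ} (hne : y ≠ y')
    (hbot : Tendsto (fun t => (μ t : ℝ × ℝ)) atBot (𝓝 (lat y)))
    (htop : Tendsto (fun t => (μ t : ℝ × ℝ)) atTop (𝓝 (lat y'))) {m : ℕ} (hm : 0 < m)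
    (t : ℝ) : ¬ Rel (μ t) (μ (t + m)) := by
  intro hrel
  obtain ⟨ε, g, hg⟩ := rel_iff.mp hrel
  have hall : (fun s => μ (s + m)) = fun s => gactE ε g (μ s) := by
    refine R.lift_unique (by fun_prop) (by fun_prop) (fun s => ?_) (a := t) hg
    rw [R.q_gactE, shift_int hper]
  have hm' : (0 : ℝ) < m := by exact_mod_cast hm
  have e1 : lat y' = gact ε g (lat y') := by
    refine tendsto_nhds_unique
      (htop.comp (tendsto_atTop_add_const_right atTop (m : ℝ) tendsto_id)) ?_
    have h1 := ((continuous_gact ε g).tendsto (lat y')).comp htop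
    refine h1.congr fun s => ?_
    exact (congrArg Subtype.val (congrFun hall s)).symm
  have e2 : lat y = gact ε g (lat y) := by
    refine tendsto_nhds_unique
      (hbot.comp (tendsto_atBot_add_const_right atBot (m : ℝ) tendsto_id)) ?_
    have h1 := ((continuous_gact ε g).tendsto (lat y)).comp hbot
    refine h1.congr fun s => ?_
    exact (congrArg Subtype.val (congrFun hall s)).symm
  rcases eps_cases ε with rfl | rfl
  · rw [gact_one] at e1
    have hg0 : (2 : ℝ) • lat g = 0 := by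
      have := e1.symm
      rwa [add_eq_left] at this
    have hp : ∀ s, μ (s + m) = μ s := by
      intro s
      have h1 := congrArg Subtype.val (congrFun hall s)
      apply Subtype.ext
      rw [h1, coe_gactE, gact_one, hg0, add_zero]
    have hp2 : ∀ n : ℕ, μ (t + n * m) = μ t := by
      intro n
      induction n with
      | zero => simp
      | succ n ih =>
        rw [← ih, ← hp (t + n * m)]
        congr 1
        push_cast
        ring
    have h3 : Tendsto (fun n : ℕ => (μ (t + n * m) : ℝ × ℝ)) atTop (𝓝 (lat y')) := by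
      refine htop.comp (tendsto_atTop_add_const_left atTop t ?_)
      exact Tendsto.atTop_mul_const hm' tendsto_natCast_atTop_atTop
    have h4 : Tendsto (fun _ : ℕ => (μ t : ℝ × ℝ)) atTop (𝓝 (lat y')) := by
      refine h3.congr fun n => ?_
      rw [hp2]
    exact (μ t).2 y' (tendsto_nhds_unique tendsto_const_nhds h4)
  · rw [gact_neg_one] at e1 e2
    apply hne
    have f1 : (2 : ℝ) • lat y' = (2 : ℝ) • lat g := by
      rw [two_smul ℝ (lat y')]
      nth_rewrite 1 [e1]
      abel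
    have f2 : (2 : ℝ) • lat y = (2 : ℝ) • lat g := by
      rw [two_smul ℝ (lat y)]
      nth_rewrite 1 [e2]
      abel
    have h2 : Function.Injective (fun z : ℝ × ℝ => (2 : ℝ) • z) :=
      smul_right_injective (ℝ × ℝ) (two_ne_zero (α := ℝ))
    exact lat_injective (h2 (f2.trans f1.symm))

/-! ### The shift lemma -/

section Shift

variable {R : HoledSphere Y} {μ : ℝ → PPlane} (hμ : Continuous μ)
  (hper : ∀ t, R.q (μ (t + 1)) = R.q (μ t)) {y y' : ℤ × ℤ} (hne : y ≠ y')
  (hbot : Tendsto (fun t => (μ t : ℝ × ℝ)) atBot (𝓝 (lat y)))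
  (htop : Tendsto (fun t => (μ t : ℝ × ℝ)) atTop (𝓝 (lat y'))) {m : ℕ} (hm : 0 < m)

include hμ hper hne hbot htop hm

theorem shift_pair {t₀ : ℝ} {z z' : PPlane}
    (hj : JoinedIn (Pairs R.q) (μ t₀, μ (t₀ + m)) (z, z')) :
    (z ∈ core → (z' : ℝ × ℝ) ∈ disc y') ∧ (z' ∈ core → (z : ℝ × ℝ) ∈ disc y) := by
  have hm' : (0 : ℝ) < m := by exact_mod_cast hm
  have hμm : Continuous fun t => μ (t + m) := by fun_prop
  have hj' : ∀ t, JoinedIn (Pairs R.q) (μ t, μ (t + m)) (z, z') := fun t =>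
    (shift_joined hμ hμm (fun s => (shift_int hper m s).symm) t t₀).trans hj
  have hrel := shift_not_rel hμ hper hne hbot htop hm
  constructor
  · intro hz
    obtain ⟨s₀, hs₀⟩ := (shift_eventually hbot).exists
    obtain ⟨T, -, hT, hT'⟩ := shift_last hμ hne hs₀ (shift_eventually htop)
    obtain ⟨u, hu, hu'⟩ := direction R (hj' T) hT hz (hrel T)
    have h1 : y' = u := disc_disjoint (hT' (T + m) (by linarith)) hu
    rw [h1]
    exact hu'
  · intro hz
    obtain ⟨s₀, hs₀⟩ := (shift_eventually htop).exists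
    have hs₀' : (μ (- -s₀) : ℝ × ℝ) ∈ disc y' := by rwa [neg_neg]
    have hμn : Continuous fun t => μ (-t) := by fun_prop
    obtain ⟨T, -, hT, hT'⟩ := shift_last (l := fun t => μ (-t)) hμn hne.symm hs₀'
      (shift_eventually (shift_tendsto_bot hbot))
    have hj2 := hj' (-T - m)
    have h3 : -T - m + m = -T := by ring
    rw [h3] at hj2
    have hr2 := hrel (-T - m)
    rw [h3] at hr2
    obtain ⟨u, hu, hu'⟩ := direction R (shift_swap hj2) hT hz (fun h => hr2 h.symm)
    have h4 := hT' (T + m) (by linarith)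
    have h5 : -(T + m) = -T - m := by ring
    rw [h5] at h4
    have h1 : y = u := disc_disjoint h4 hu
    rw [h1]
    exact hu'

theorem shift_top {l l' : ℝ → PPlane} (hl : Continuous l) (hl' : Continuous l')
    (hq : ∀ s, R.q (l s) = R.q (l' s)) {s₁ t₁ : ℝ} (h : l s₁ = μ t₁) (h' : l' s₁ = μ (t₁ + m))
    {p : ℤ × ℤ} (hp : p ≠ y) (hlim : Tendsto (fun s => (l s : ℝ × ℝ)) atTop (𝓝 (lat p))) :
    ∀ᶠ s in atTop, (l' s : ℝ × ℝ) ∈ disc y' := by
  have hpair := fun {t₀ : ℝ} {z z' : PPlane} =>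
    shift_pair hμ hper hne hbot htop hm (t₀ := t₀) (z := z) (z' := z')
  have hμm : Continuous fun t => μ (t + m) := by fun_prop
  -- the combined path
  set c : ℝ → PPlane := fun s => if s ≤ s₁ then μ (t₁ + s₁ - s) else l s with hc
  set c' : ℝ → PPlane := fun s => if s ≤ s₁ then μ (t₁ + s₁ - s + m) else l' s with hc'
  have hcc : Continuous c := by
    refine Continuous.if_le (by fun_prop) hl continuous_id continuous_const ?_
    intro s hs
    rw [hs, add_sub_cancel_right, h]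
  have hcc' : Continuous c' := by
    refine Continuous.if_le (by fun_prop) hl' continuous_id continuous_const ?_
    intro s hs
    rw [hs, add_sub_cancel_right, h']
  have hev : ∀ᶠ s in atTop, c s = l s ∧ c' s = l' s := by
    filter_upwards [eventually_gt_atTop s₁] with s hs
    exact ⟨if_neg (not_le.mpr hs), if_neg (not_le.mpr hs)⟩
  have hcp : ∀ s, (c s ∈ core → (c' s : ℝ × ℝ) ∈ disc y') ∧
      (c' s ∈ core → (c s : ℝ × ℝ) ∈ disc y) := by
    intro s
    by_cases hs : s ≤ s₁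
    · have e1 : c s = μ (t₁ + s₁ - s) := if_pos hs
      have e2 : c' s = μ (t₁ + s₁ - s + m) := if_pos hs
      rw [e1, e2]
      exact hpair (shift_joined hμ hμm (fun s => (shift_int hper m s).symm) (t₁ + s₁ - s) _)
    · have e1 : c s = l s := if_neg hs
      have e2 : c' s = l' s := if_neg hs
      rw [e1, e2]
      refine hpair (t₀ := t₁) ?_
      rw [← h, ← h']
      exact shift_joined hl hl' hq s₁ s
  have hlimc : ∀ᶠ s in atTop, (c s : ℝ × ℝ) ∈ disc p := by
    filter_upwards [hev, shift_eventually hlim] with s hs hs2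
    rwa [hs.1]
  obtain ⟨S, hS⟩ := eventually_atTop.mp hlimc
  suffices hfin : ∀ᶠ s in atTop, (c' s : ℝ × ℝ) ∈ disc y' by
    filter_upwards [hev, hfin] with s hs hs2
    rwa [← hs.2]
  by_cases hT : ∃ s, c' s ∈ core
  · -- the last time in the core
    have hne' : {s | c' s ∈ core}.Nonempty := hT
    have hbdd : BddAbove {s | c' s ∈ core} := by
      refine ⟨S, fun s hs => ?_⟩
      by_contra hlt
      exact hp (disc_disjoint (hS s (not_le.mp hlt).le) ((hcp s).2 hs))
    have hcl : IsClosed {s | c' s ∈ core} := isClosed_core.preimage hcc'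
    have hmem := hcl.csSup_mem hne' hbdd
    set T := sSup {s | c' s ∈ core} with hTdef
    have hcT : (c T : ℝ × ℝ) ∈ disc y := (hcp T).2 hmem
    obtain ⟨T₂, hT₂, hT₂c, -⟩ := shift_last hcc hp.symm hcT hlimc
    have h1 : ∀ t ∈ Ioi T, c' t ∉ core := fun t ht htc =>
      absurd ht (not_lt.mpr (le_csSup hbdd htc))
    have h2 := shift_avoid hcc' isPreconnected_Ioi h1 (mem_Ioi.mpr hT₂) ((hcp T₂).1 hT₂c)
    filter_upwards [eventually_gt_atTop T] with s hs
    exact h2 s hs
  · push Not at hT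
    -- never in the core
    obtain ⟨A, hA, hA'⟩ := ((eventually_ge_atTop (t₁ + m)).and (shift_eventually htop)).exists
    have hle : t₁ + s₁ + m - A ≤ s₁ := by linarith
    have e2 : c' (t₁ + s₁ + m - A) = μ A := by
      have : c' (t₁ + s₁ + m - A) = μ (t₁ + s₁ - (t₁ + s₁ + m - A) + m) := if_pos hle
      rw [this]
      congr 1
      ring
    have h2 := shift_avoid hcc' isPreconnected_univ (fun t _ => hT t)
      (mem_univ (t₁ + s₁ + m - A)) (u := y') (by rw [e2]; exact hA')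
    exact Eventually.of_forall fun s => h2 s (mem_univ _)

theorem shift_bot {l l' : ℝ → PPlane} (hl : Continuous l) (hl' : Continuous l')
    (hq : ∀ s, R.q (l s) = R.q (l' s)) {s₁ t₁ : ℝ} (h : l s₁ = μ t₁) (h' : l' s₁ = μ (t₁ + m))
    {p : ℤ × ℤ} (hp : p ≠ y) (hlim : Tendsto (fun s => (l s : ℝ × ℝ)) atBot (𝓝 (lat p))) :
    ∀ᶠ s in atBot, (l' s : ℝ × ℝ) ∈ disc y' := by
  have h1 := shift_top hμ hper hne hbot htop hm (l := fun s => l (-s)) (l' := fun s => l' (-s))
    (by fun_prop) (by fun_prop) (fun s => hq (-s)) (s₁ := -s₁) (t₁ := t₁)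
    (by simpa using h) (by simpa using h') hp (shift_tendsto_bot hlim)
  have h2 := tendsto_neg_atBot_atTop.eventually h1
  simpa using h2

theorem shift_per {l l' : ℝ → PPlane} (hl : Continuous l) (hl' : Continuous l')
    (hq : ∀ s, R.q (l s) = R.q (l' s)) {s₁ t₁ : ℝ} (h : l s₁ = μ t₁) (h' : l' s₁ = μ (t₁ + m))
    {v v' : ℤ × ℤ} (hv : v ≠ 0) (hv' : v' ≠ 0)
    (hlv : ∀ s, (l (s + 1) : ℝ × ℝ) = l s + (2 : ℝ) • lat v) :
    ¬ ∀ s, (l' (s + 1) : ℝ × ℝ) = l' s + (2 : ℝ) • lat v' := by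
  intro hlv'
  have hcp : ∀ s, l s ∈ core → (l' s : ℝ × ℝ) ∈ disc y' := by
    intro s
    refine (shift_pair hμ hper hne hbot htop hm (t₀ := t₁) ?_).1
    rw [← h, ← h']
    exact shift_joined hl hl' hq s₁ s
  have hbig : ∀ {a b : ℝ × ℝ} {u v : ℤ × ℤ}, v ≠ 0 → a ∈ disc u → b ∈ disc u →
      b = a + (2 : ℝ) • lat v → False := by
    intro a b u v hv ha hb hab
    have h1 := one_le_norm_lat hv
    have h2 : ‖(2 : ℝ) • lat v‖ = 2 * ‖lat v‖ := by
      rw [norm_smul, Real.norm_of_nonneg (by norm_num)]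
    have h3 : (2 : ℝ) • lat v = (b - lat u) - (a - lat u) := by
      rw [hab]
      abel
    have h4 := norm_sub_le (b - lat u) (a - lat u)
    rw [← h3, h2] at h4
    simp only [disc, mem_ofPred_eq] at ha hb
    linarith
  obtain ⟨s, hs⟩ : ∃ s, l s ∈ core := by
    by_contra hc
    push Not at hc
    obtain ⟨u, hu⟩ := notMem_core_iff.mp (hc 0)
    have h1 := shift_avoid hl isPreconnected_univ (fun t _ => hc t) (mem_univ (0 : ℝ)) hu
    exact hbig hv (h1 0 (mem_univ _)) (h1 (0 + 1) (mem_univ _)) (hlv 0)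
  have hs' : l (s + 1) ∈ core := by
    have : l (s + 1) = gactE 1 v (l s) := by
      apply Subtype.ext
      rw [hlv, coe_gactE, gact_one]
    rw [this]
    exact gactE_mem_core.mpr hs
  exact hbig hv' (hcp s hs) (hcp (s + 1) hs') (hlv' s)

end Shift

end Pool.Agent.ND4
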