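import Mathlib
import Pool.Agent.ND4.Shift

/-!
# Two crossings of the same line, shifted by periods
-/

set_option autoImplicit false

open Topology Set Filter

namespace Pool.Agent.ND4

variable {Y : Type*} [TopologicalSpace Y]

lemma inj_tendsto_gact {F : Filter ℝ} {f : ℝ → ℝ × ℝ} {x : ℤ × ℤ} (h : Tendsto f F (𝓝 (lat x)))
    (ε : ℤˣ) (g : ℤ × ℤ) :
    Tendsto (fun s => gact ε g (f s)) F (𝓝 (lat ((ε : ℤ) • x + (2 : ℤ) • g))) := by
  rw [← gact_lat]
  exact ((continuous_gact ε g).tendsto _).comp h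

/-- A line which tends to `lat r` and stays eventually in the disc of `y'` has `r = y'`. -/
lemma inj_limit_eq {F : Filter ℝ} [F.NeBot] {f : ℝ → ℝ × ℝ} {r y' : ℤ × ℤ}
    (h : Tendsto f F (𝓝 (lat r))) (h' : ∀ᶠ s in F, f s ∈ disc y') : r = y' := by
  have h1 : ∀ᶠ s in F, f s ∈ disc r := h.eventually ((isOpen_disc r).mem_nhds (lat_mem_disc r))
  obtain ⟨s, hs, hs'⟩ := (h1.and h').exists
  exact disc_disjoint hs hs'

/-- The eventual statements are stable under integer translations. -/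
lemma inj_tendsto_add (P : ℝ) : Tendsto (fun s : ℝ => s + P) atTop atTop ∧
    Tendsto (fun s : ℝ => s + P) atBot atBot :=
  ⟨tendsto_atTop_add_const_right _ _ tendsto_id, tendsto_atBot_add_const_right _ _ tendsto_id⟩

section Lim

variable (R : HoledSphere Y) {μ : ℝ → PPlane} (hμ : Continuous μ)
  (hper : ∀ t, R.q (μ (t + 1)) = R.q (μ t)) {y y' : ℤ × ℤ} (hne : y ≠ y')
  (hbot : Tendsto (fun t => (μ t : ℝ × ℝ)) atBot (𝓝 (lat y)))
  (htop : Tendsto (fun t => (μ t : ℝ × ℝ)) atTop (𝓝 (lat y'))) {N : ℤ} (hN : 0 < N)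

include hμ hper hne hbot htop hN

/-- No two lifts with different limits, shifted by a positive number of periods. -/
lemma inj_no_lim {l l' : ℝ → PPlane} (hl : Continuous l) (hl' : Continuous l')
    (hq : ∀ s, R.q (l s) = R.q (l' s)) {s₁ t₁ : ℝ} (h : l s₁ = μ t₁) (h' : l' s₁ = μ (t₁ + N))
    {p p' r r' : ℤ × ℤ} (hp : p ≠ y) (hp' : p' ≠ y)
    (hlb : Tendsto (fun s => (l s : ℝ × ℝ)) atBot (𝓝 (lat p)))
    (hlt : Tendsto (fun s => (l s : ℝ × ℝ)) atTop (𝓝 (lat p')))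
    (hlb' : Tendsto (fun s => (l' s : ℝ × ℝ)) atBot (𝓝 (lat r)))
    (hlt' : Tendsto (fun s => (l' s : ℝ × ℝ)) atTop (𝓝 (lat r'))) : r = r' := by
  obtain ⟨m, rfl⟩ := Int.eq_ofNat_of_zero_le hN.le
  have hm : 0 < m := by exact_mod_cast hN
  rw [Int.cast_natCast] at h'
  have h1 := shift_top hμ hper hne hbot htop hm hl hl' hq h h' hp' hlt
  have h2 := shift_bot hμ hper hne hbot htop hm hl hl' hq h h' hp hlb
  rw [inj_limit_eq hlb' h2, inj_limit_eq hlt' h1]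

lemma inj_no_per {l l' : ℝ → PPlane} (hl : Continuous l) (hl' : Continuous l')
    (hq : ∀ s, R.q (l s) = R.q (l' s)) {s₁ t₁ : ℝ} (h : l s₁ = μ t₁) (h' : l' s₁ = μ (t₁ + N))
    {v v' : ℤ × ℤ} (hv : v ≠ 0) (hv' : v' ≠ 0)
    (hlv : ∀ s, (l (s + 1) : ℝ × ℝ) = l s + (2 : ℝ) • lat v)
    (hlv' : ∀ s, (l' (s + 1) : ℝ × ℝ) = l' s + (2 : ℝ) • lat v') : False := by
  obtain ⟨m, rfl⟩ := Int.eq_ofNat_of_zero_le hN.le
  have hm : 0 < m := by exact_mod_cast hN
  rw [Int.cast_natCast] at h'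
  exact shift_per hμ hper hne hbot htop hm hl hl' hq h h' hv hv' hlv hlv'

end Lim

lemma eps_smul_ne_zero (ε : ℤˣ) {v : ℤ × ℤ} (hv : v ≠ 0) : (ε : ℤ) • v ≠ 0 := by
  rcases eps_cases ε with rfl | rfl
  · simpa using hv
  · simpa using hv

lemma eps_smul_cancel {ε₁ ε₂ : ℤˣ} {v : ℤ × ℤ} (hv : v ≠ 0) (h : (ε₁ : ℤ) • v = (ε₂ : ℤ) • v) :
    ε₁ = ε₂ := by
  have h1 : ((ε₁ : ℤ) - ε₂) • v = 0 := by rw [sub_smul, h, sub_self]
  rcases smul_eq_zero.mp h1 with h2 | h2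
  · exact Units.ext (sub_eq_zero.mp h2)
  · exact absurd h2 hv

/-- The image under `gact ε g` of a line invariant under the translation by `2 v`. -/
lemma inj_per_gact {l : ℝ → PPlane} {v : ℤ × ℤ}
    (hl : ∀ t, (l (t + 1) : ℝ × ℝ) = l t + (2 : ℝ) • lat v) (ε : ℤˣ) (g : ℤ × ℤ) (P : ℝ) (s : ℝ) :
    (gactE ε g (l (s + 1 + P)) : ℝ × ℝ) =
      gactE ε g (l (s + P)) + (2 : ℝ) • lat ((ε : ℤ) • v) := by
  have h : s + 1 + P = s + P + 1 := by ring
  rw [coe_gactE, coe_gactE, h, hl]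
  simp only [gact, lat_zsmul, smul_add, smul_smul]
  rw [mul_comm (2 : ℝ) ((ε : ℤ) : ℝ)]
  abel

lemma inj_gact_add (ε : ℤˣ) (g u : ℤ × ℤ) (z : ℝ × ℝ) :
    gact ε g (z + (2 : ℝ) • lat u) = gact ε (g + (ε : ℤ) • u) z := by
  simp only [gact, lat_add, lat_zsmul, smul_add, smul_smul]
  rw [mul_comm (2 : ℝ) ((ε : ℤ) : ℝ)]
  abel

lemma inj_gact_add' (ε : ℤˣ) (g u : ℤ × ℤ) (z : ℝ × ℝ) :
    gact ε g z + (2 : ℝ) • lat u = gact ε (g + u) z := by
  simp only [gact, lat_add, smul_add]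
  abel

lemma inj_per_int {l : ℝ → PPlane} {v : ℤ × ℤ}
    (hl : ∀ t, (l (t + 1) : ℝ × ℝ) = l t + (2 : ℝ) • lat v) (N : ℤ) (s : ℝ) :
    (l (s + N) : ℝ × ℝ) = l s + (2 : ℝ) • lat (N • v) := by
  have key : Function.Periodic (fun t => (l t : ℝ × ℝ) - t • ((2 : ℝ) • lat v)) 1 := by
    intro t
    simp only [hl, add_smul, one_smul]
    abel
  have h := key.int_mul N s
  simp only [mul_one] at h
  have h2 : (l (s + N) : ℝ × ℝ) = l s - s • ((2 : ℝ) • lat v) + (s + N) • ((2 : ℝ) • lat v) := by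
    rw [← h]
    abel
  rw [h2, add_smul, lat_zsmul, smul_comm (2 : ℝ) (N : ℝ)]
  abel

/-- Freeness for the action on a point. -/
lemma inj_free {ε₁ ε₂ : ℤˣ} {g₁ g₂ : ℤ × ℤ} {z : PPlane}
    (h : gact ε₁ g₁ (z : ℝ × ℝ) = gact ε₂ g₂ (z : ℝ × ℝ)) : ε₁ = ε₂ ∧ g₁ = g₂ := by
  have h1 : gactE (ε₂ * ε₁) (-((ε₂ : ℤ) • g₂) + (ε₂ : ℤ) • g₁) z = z := by
    rw [← gactE_gactE]
    have h2 : gactE ε₁ g₁ z = gactE ε₂ g₂ z := Subtype.ext h
    rw [h2, gactE_inv]
  obtain ⟨h3, h4⟩ := gactE_eq_self h1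
  refine ⟨?_, ?_⟩
  · have : ε₂ * (ε₂ * ε₁) = ε₂ * 1 := by rw [h3]
    rw [← mul_assoc, Int.units_mul_self, one_mul, mul_one] at this
    exact this
  · have h5 : (ε₂ : ℤ) • (g₁ - g₂) = 0 := by
      rw [smul_sub, ← h4]
      abel
    rcases eps_cases ε₂ with rfl | rfl
    · simpa [sub_eq_zero] using h5
    · simpa [sub_eq_zero, eq_comm] using h5

theorem inj (R : HoledSphere Y) {l m : ℝ → PPlane} (hl : Continuous l) (hm : Continuous m)
    (hlp : ∀ s, R.q (l (s + 1)) = R.q (l s)) (hmp : ∀ s, R.q (m (s + 1)) = R.q (m s))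
    {v w : ℤ × ℤ} (hv : v ≠ 0) (hw : w ≠ 0) {e e' : Option (ℤ × ℤ)} (hk : Kind l v e)
    (hk' : Kind m w e') {ε₁ ε₂ : ℤˣ} {g₁ g₂ : ℤ × ℤ} {a₁ b₁ : ℝ} {N P : ℤ}
    (h₁ : (m b₁ : ℝ × ℝ) = gact ε₁ g₁ (l a₁))
    (h₂ : (m (b₁ + N) : ℝ × ℝ) = gact ε₂ g₂ (l (a₁ + P)))
    (hex : ∀ y, e' = some y → ∀ x ∈ ends v e,
      lat y ≠ gact ε₁ g₁ (lat x) ∧ lat y ≠ gact ε₂ g₂ (lat x)) :
    ε₁ = ε₂ ∧ ∃ n n' : ℤ, g₂ = g₁ + n • v + n' • w := by
  have hlpz : ∀ (P : ℤ) (s : ℝ), R.q (l (s + P)) = R.q (l s) := by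
    intro P s
    have h : Function.Periodic (fun s => R.q (l s)) 1 := hlp
    simpa using h.int_mul P s
  have hmpz : ∀ (P : ℤ) (s : ℝ), R.q (m (s + P)) = R.q (m s) := by
    intro P s
    have h : Function.Periodic (fun s => R.q (m s)) 1 := hmp
    simpa using h.int_mul P s
  -- the two images of `l`
  set l₁ : ℝ → PPlane := fun s => gactE ε₁ g₁ (l s) with hl₁
  set l₂ : ℝ → PPlane := fun s => gactE ε₂ g₂ (l (s + P)) with hl₂
  have hl₁c : Continuous l₁ := (continuous_gactE ε₁ g₁).comp hl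
  have hl₂c : Continuous l₂ :=
    (continuous_gactE ε₂ g₂).comp (hl.comp (continuous_id.add continuous_const))
  have hq : ∀ s, R.q (l₁ s) = R.q (l₂ s) := by
    intro s
    simp only [hl₁, hl₂, R.q_gactE, hlpz]
  have e₁ : l₁ a₁ = m b₁ := Subtype.ext h₁.symm
  have e₂ : l₂ a₁ = m (b₁ + N) := Subtype.ext h₂.symm
  cases e' with
  | some y =>
    obtain ⟨hbot, htop⟩ := hk'
    have hyne : y ≠ y + w := by
      intro h
      exact hw (by simpa using h)
    have hex' := hex y rfl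
    cases e with
    | some x =>
      obtain ⟨lbot, ltop⟩ := hk
      -- limits of the two images
      have t₁b := inj_tendsto_gact lbot ε₁ g₁
      have t₁t := inj_tendsto_gact ltop ε₁ g₁
      have t₂b := inj_tendsto_gact (lbot.comp (inj_tendsto_add (P : ℝ)).2) ε₂ g₂
      have t₂t := inj_tendsto_gact (ltop.comp (inj_tendsto_add (P : ℝ)).1) ε₂ g₂
      have hx := hex' x (by simp [ends])
      have hxv := hex' (x + v) (by simp [ends])
      rw [gact_lat, gact_lat] at hx hxv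
      have hx1 : (ε₁ : ℤ) • x + (2 : ℤ) • g₁ ≠ y := fun h => hx.1 (by rw [h])
      have hx2 : (ε₂ : ℤ) • x + (2 : ℤ) • g₂ ≠ y := fun h => hx.2 (by rw [h])
      have hxv1 : (ε₁ : ℤ) • (x + v) + (2 : ℤ) • g₁ ≠ y := fun h => hxv.1 (by rw [h])
      have hxv2 : (ε₂ : ℤ) • (x + v) + (2 : ℤ) • g₂ ≠ y := fun h => hxv.2 (by rw [h])
      have habs : ∀ (ε : ℤˣ) (g : ℤ × ℤ),
          (ε : ℤ) • x + (2 : ℤ) • g ≠ (ε : ℤ) • (x + v) + (2 : ℤ) • g := by
        intro ε g h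
        have : (ε : ℤ) • v = 0 := by
          rw [smul_add] at h
          simpa using h
        exact eps_smul_ne_zero ε hv this
      rcases lt_trichotomy N 0 with hN | hN | hN
      · exfalso
        have e₁' : l₁ a₁ = m (b₁ + N + ((-N : ℤ) : ℝ)) := by
          rw [e₁]
          congr 1
          push_cast
          ring
        exact habs ε₁ g₁ (inj_no_lim R hm hmp hyne hbot htop (N := -N) (by omega) hl₂c hl₁c
          (fun s => (hq s).symm) e₂ e₁' hx2 hxv2 t₂b t₂t t₁b t₁t)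
      · subst hN
        have h3 : l₁ = l₂ := R.lift_unique hl₁c hl₂c hq (a := a₁) (by
          rw [e₁, e₂, Int.cast_zero, add_zero])
        have h4 : (ε₁ : ℤ) • x + (2 : ℤ) • g₁ = (ε₂ : ℤ) • x + (2 : ℤ) • g₂ := by
          refine lat_injective (tendsto_nhds_unique t₁b ?_)
          refine t₂b.congr fun s => ?_
          exact (congrArg Subtype.val (congrFun h3 s)).symm
        have h5 : (ε₁ : ℤ) • (x + v) + (2 : ℤ) • g₁ = (ε₂ : ℤ) • (x + v) + (2 : ℤ) • g₂ := by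
          refine lat_injective (tendsto_nhds_unique t₁t ?_)
          refine t₂t.congr fun s => ?_
          exact (congrArg Subtype.val (congrFun h3 s)).symm
        have h6 : (ε₁ : ℤ) • v = (ε₂ : ℤ) • v := by
          have h7 : (ε₁ : ℤ) • (x + v) + (2 : ℤ) • g₁ - ((ε₁ : ℤ) • x + (2 : ℤ) • g₁) =
              (ε₂ : ℤ) • (x + v) + (2 : ℤ) • g₂ - ((ε₂ : ℤ) • x + (2 : ℤ) • g₂) := by
            rw [h4, h5]
          rw [smul_add, smul_add] at h7
          have h8 : ∀ a b c : ℤ × ℤ, a + b + c - (a + c) = b := fun a b c => by abel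
          rwa [h8, h8] at h7
        have h7 := eps_smul_cancel hv h6
        subst h7
        refine ⟨rfl, 0, 0, ?_⟩
        rw [zero_smul, zero_smul, add_zero, add_zero]
        have h9 := add_left_cancel h4
        exact (smul_right_injective (ℤ × ℤ) (two_ne_zero (α := ℤ)) h9).symm
      · exfalso
        exact habs ε₂ g₂ (inj_no_lim R hm hmp hyne hbot htop hN hl₁c hl₂c hq e₁ e₂ hx1 hxv1
          t₁b t₁t t₂b t₂t)
    | none =>
      have hk : ∀ t, (l (t + 1) : ℝ × ℝ) = l t + (2 : ℝ) • lat v := hk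
      have p₁ : ∀ s, (l₁ (s + 1) : ℝ × ℝ) = l₁ s + (2 : ℝ) • lat ((ε₁ : ℤ) • v) := by
        intro s
        have := inj_per_gact hk ε₁ g₁ 0 s
        simpa [hl₁] using this
      have p₂ : ∀ s, (l₂ (s + 1) : ℝ × ℝ) = l₂ s + (2 : ℝ) • lat ((ε₂ : ℤ) • v) :=
        fun s => inj_per_gact hk ε₂ g₂ P s
      rcases lt_trichotomy N 0 with hN | hN | hN
      · exfalso
        have e₁' : l₁ a₁ = m (b₁ + N + ((-N : ℤ) : ℝ)) := by
          rw [e₁]
          congr 1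
          push_cast
          ring
        exact inj_no_per R hm hmp hyne hbot htop (N := -N) (by omega) hl₂c hl₁c
          (fun s => (hq s).symm) e₂ e₁' (eps_smul_ne_zero ε₂ hv) (eps_smul_ne_zero ε₁ hv) p₂ p₁
      · subst hN
        rw [Int.cast_zero, add_zero, h₁, inj_per_int hk, inj_gact_add] at h₂
        obtain ⟨h3, h4⟩ := inj_free h₂
        refine ⟨h3, -((ε₂ : ℤ) * P), 0, ?_⟩
        rw [h4]
        module
      · exfalso
        exact inj_no_per R hm hmp hyne hbot htop hN hl₁c hl₂c hq e₁ e₂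
          (eps_smul_ne_zero ε₁ hv) (eps_smul_ne_zero ε₂ hv) p₁ p₂
  | none =>
    have hk' : ∀ t, (m (t + 1) : ℝ × ℝ) = m t + (2 : ℝ) • lat w := hk'
    cases e with
    | none =>
      have hk : ∀ t, (l (t + 1) : ℝ × ℝ) = l t + (2 : ℝ) • lat v := hk
      rw [inj_per_int hk', h₁, inj_gact_add', inj_per_int hk, inj_gact_add] at h₂
      obtain ⟨h3, h4⟩ := inj_free h₂
      refine ⟨h3, -((ε₂ : ℤ) * P), N, ?_⟩
      have h5 : g₂ = g₁ + N • w - (ε₂ : ℤ) • P • v := by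
        rw [h4]
        abel
      rw [h5]
      module
    | some x =>
      obtain ⟨lbot, ltop⟩ := hk
      have hxne : x ≠ x + v := by
        intro h
        exact hv (by simpa using h)
      -- the two preimages of `m`
      set m₁ : ℝ → PPlane := fun s => gactE ε₁ (-((ε₁ : ℤ) • g₁)) (m s) with hm₁
      set m₂ : ℝ → PPlane := fun s => gactE ε₂ (-((ε₂ : ℤ) • g₂)) (m (s + N)) with hm₂
      have hm₁c : Continuous m₁ := (continuous_gactE _ _).comp hm
      have hm₂c : Continuous m₂ :=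
        (continuous_gactE _ _).comp (hm.comp (continuous_id.add continuous_const))
      have hqm : ∀ s, R.q (m₁ s) = R.q (m₂ s) := by
        intro s
        simp only [hm₁, hm₂, R.q_gactE, hmpz]
      have f₁ : m₁ b₁ = l a₁ := by
        simp only [hm₁]
        rw [← e₁]
        exact gactE_inv ε₁ g₁ (l a₁)
      have f₂ : m₂ b₁ = l (a₁ + P) := by
        simp only [hm₂]
        rw [← e₂]
        exact gactE_inv ε₂ g₂ (l (a₁ + P))
      have p₁ : ∀ s, (m₁ (s + 1) : ℝ × ℝ) = m₁ s + (2 : ℝ) • lat ((ε₁ : ℤ) • w) := by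
        intro s
        have := inj_per_gact hk' ε₁ (-((ε₁ : ℤ) • g₁)) 0 s
        simpa [hm₁] using this
      have p₂ : ∀ s, (m₂ (s + 1) : ℝ × ℝ) = m₂ s + (2 : ℝ) • lat ((ε₂ : ℤ) • w) :=
        fun s => inj_per_gact hk' ε₂ (-((ε₂ : ℤ) • g₂)) N s
      rcases lt_trichotomy P 0 with hP | hP | hP
      · exfalso
        have f₁' : m₁ b₁ = l (a₁ + P + ((-P : ℤ) : ℝ)) := by
          rw [f₁]
          congr 1
          push_cast
          ring
        exact inj_no_per R hl hlp hxne lbot ltop (N := -P) (by omega) hm₂c hm₁c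
          (fun s => (hqm s).symm) f₂ f₁' (eps_smul_ne_zero ε₂ hw) (eps_smul_ne_zero ε₁ hw) p₂ p₁
      · subst hP
        rw [Int.cast_zero, add_zero, inj_per_int hk', h₁, inj_gact_add'] at h₂
        obtain ⟨h3, h4⟩ := inj_free h₂
        refine ⟨h3, 0, N, ?_⟩
        rw [← h4]
        module
      · exfalso
        exact inj_no_per R hl hlp hxne lbot ltop hP hm₁c hm₂c hqm f₁ f₂
          (eps_smul_ne_zero ε₁ hw) (eps_smul_ne_zero ε₂ hw) p₁ p₂

end Pool.Agent.ND4
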