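import Pool.Agent.ND4.Basic
import Pool.Agent.ND4.Cross

/-!
# Many translates of an essential lift meet another one

An essential lift, together with its limits and continued by half turns about the limits, is a
line which is invariant under a translation.  Two such lines in different directions meet, and so
do all their translates.
-/

set_option autoImplicit false

open Topology Set Filter

namespace Pool.Agent.ND4

/-- The points of the line and its limits. -/
def pts (l : ℝ → PPlane) (v : ℤ × ℤ) (e : Option (ℤ × ℤ)) : Set (ℝ × ℝ) :=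
  range (fun t => (l t : ℝ × ℝ)) ∪ lat '' ends v e

/-- A reparametrisation of the real line. -/
noncomputable def phi (t : ℝ) : ℝ := (1 - t)⁻¹ - t⁻¹

lemma phi_bot : Tendsto phi (𝓝[>] 0) atBot := by
  have h1 : Tendsto (fun t : ℝ => (1 - t)⁻¹) (𝓝[>] 0) (𝓝 ((1 - 0)⁻¹)) := by
    have : ContinuousAt (fun t : ℝ => (1 - t)⁻¹) 0 :=
      ContinuousAt.inv₀ (by fun_prop) (by norm_num)
    exact this.tendsto.mono_left nhdsWithin_le_nhds
  have h2 : Tendsto (fun t : ℝ => -t⁻¹) (𝓝[>] 0) atBot :=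
    tendsto_neg_atTop_atBot.comp tendsto_inv_nhdsGT_zero
  have h3 := h1.add_atBot h2
  refine h3.congr fun t => ?_
  simp [phi, sub_eq_add_neg]

lemma phi_top : Tendsto phi (𝓝[<] 1) atTop := by
  have h1 : Tendsto (fun t : ℝ => -t⁻¹) (𝓝[<] 1) (𝓝 (-1⁻¹)) := by
    have : ContinuousAt (fun t : ℝ => -t⁻¹) 1 :=
      ContinuousAt.neg (ContinuousAt.inv₀ (by fun_prop) (by norm_num))
    exact this.tendsto.mono_left nhdsWithin_le_nhds
  have h2 : Tendsto (fun t : ℝ => (1 - t)⁻¹) (𝓝[<] 1) atTop := by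
    refine tendsto_inv_nhdsGT_zero.comp ?_
    refine tendsto_nhdsWithin_iff.2 ⟨?_, ?_⟩
    · have : Tendsto (fun t : ℝ => 1 - t) (𝓝 1) (𝓝 (1 - 1)) := by
        exact (continuous_const.sub continuous_id).tendsto 1
      rw [sub_self] at this
      exact this.mono_left nhdsWithin_le_nhds
    · filter_upwards [self_mem_nhdsWithin] with t ht
      have h : t < 1 := ht
      show 0 < 1 - t
      linarith
  have h3 := h1.add_atTop h2
  refine h3.congr fun t => ?_
  simp [phi, sub_eq_add_neg, add_comm]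

/-- The line with its limits, as a path. -/
lemma exists_path {l : ℝ → PPlane} (hl : Continuous l) {v x : ℤ × ℤ}
    (hk : Kind l v (some x)) : ∃ f : ℝ → ℝ × ℝ, Continuous f ∧ (∀ t ≤ 0, f t = lat x) ∧
      (∀ t, 1 ≤ t → f t = lat (x + v)) ∧ ∀ t, f t ∈ pts l v (some x) := by
  obtain ⟨h0, h1⟩ := hk
  set F : ℝ → ℝ × ℝ := fun t => (l (phi t) : ℝ × ℝ) with hF
  have hphi : ContinuousOn phi (Ioo 0 1) := by
    unfold phi
    refine ContinuousOn.sub (ContinuousOn.inv₀ (by fun_prop) fun t ht => ?_)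
      (ContinuousOn.inv₀ (by fun_prop) fun t ht => ?_)
    · have := ht.2
      exact (sub_pos.2 this).ne'
    · exact ht.1.ne'
  have hFc : ContinuousOn F (Ioo 0 1) :=
    (continuous_subtype_val.comp hl).comp_continuousOn hphi
  have hF0 : Tendsto F (𝓝[>] 0) (𝓝 (lat x)) := h0.comp phi_bot
  have hF1 : Tendsto F (𝓝[<] 1) (𝓝 (lat (x + v))) := h1.comp phi_top
  set g := extendFrom (Ioo (0 : ℝ) 1) F with hg
  have hgc : ContinuousOn g (Icc 0 1) :=
    continuousOn_Icc_extendFrom_Ioo hFc hF0 hF1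
  have hg0 : g 0 = lat x := eq_lim_at_left_extendFrom_Ioo zero_lt_one hF0
  have hg1 : g 1 = lat (x + v) := eq_lim_at_right_extendFrom_Ioo zero_lt_one hF1
  have hgm : ∀ t ∈ Ioo (0 : ℝ) 1, g t = F t := fun t ht =>
    extendFrom_eq (subset_closure ht) (hFc t ht)
  have hpts : ∀ t ∈ Icc (0 : ℝ) 1, g t ∈ pts l v (some x) := by
    intro t ht
    rcases eq_or_lt_of_le ht.1 with h | h
    · rw [← h, hg0]
      exact Or.inr ⟨x, Or.inl rfl, rfl⟩
    · rcases eq_or_lt_of_le ht.2 with h' | h'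
      · rw [h', hg1]
        exact Or.inr ⟨x + v, Or.inr rfl, rfl⟩
      · rw [hgm t ⟨h, h'⟩]
        exact Or.inl ⟨phi t, rfl⟩
  have hr : ∀ t : ℝ, max 0 (min 1 t) ∈ Icc (0 : ℝ) 1 := fun t =>
    ⟨le_max_left _ _, max_le zero_le_one (min_le_left _ _)⟩
  refine ⟨fun t => g (max 0 (min 1 t)), hgc.comp_continuous (by fun_prop) hr, ?_, ?_, ?_⟩
  · intro t ht
    have : max 0 (min 1 t) = 0 := max_eq_left ((min_le_right _ _).trans ht)
    simp only [this, hg0]
  · intro t ht
    have : max 0 (min 1 t) = 1 := by rw [min_eq_left ht]; exact max_eq_right zero_le_one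
    simp only [this, hg1]
  · intro t
    exact hpts _ (hr t)

theorem exists_line {l : ℝ → PPlane} (hl : Continuous l) {v : ℤ × ℤ} {e : Option (ℤ × ℤ)}
    (hk : Kind l v e) : ∃ (L : ℝ → ℝ × ℝ) (c : ℤˣ → ℤ × ℤ), Continuous L ∧
      (∀ t, L (t + 1) = L t + (2 : ℝ) • lat v) ∧
      ∀ t, ∃ (σ : ℤˣ) (n : ℤ), ∃ p ∈ pts l v e, L t = gact σ (c σ + n • v) p := by
  rcases e with _ | x
  · refine ⟨fun t => (l t : ℝ × ℝ), fun _ => 0, by fun_prop, hk, fun t => ?_⟩
    refine ⟨1, 0, _, Or.inl ⟨t, rfl⟩, ?_⟩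
    simp
  · obtain ⟨f, hf, hf0, hf1, hfp⟩ := exists_path hl hk
    set K : ℝ → ℝ × ℝ := fun s => f (2 * s) + lat (x + v) - f (2 - 2 * s) with hK
    have hKc : Continuous K := by
      rw [hK]
      fun_prop
    have hKa : ∀ s ≤ 1 / 2, K s = f (2 * s) := by
      intro s hs
      simp only [hK]
      rw [hf1 (2 - 2 * s) (by linarith)]
      abel
    have hKb : ∀ s, 1 / 2 ≤ s → K s = (2 : ℝ) • lat (x + v) - f (2 - 2 * s) := by
      intro s hs
      simp only [hK]
      rw [hf1 (2 * s) (by linarith), two_smul]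
    have hP : Continuous fun t : ℝ => K (Int.fract t) - (2 * Int.fract t) • lat v := by
      refine ContinuousOn.comp_fract'' (f := fun s : ℝ => K s - (2 * s) • lat v)
        (Continuous.continuousOn (by fun_prop)) ?_
      have h0 : K 0 = lat x := by
        rw [hKa 0 (by norm_num), hf0 _ (by norm_num)]
      have h1 : K 1 = (2 : ℝ) • lat (x + v) - lat x := by
        rw [hKb 1 (by norm_num), hf0 _ (by norm_num)]
      show K 0 - (2 * 0 : ℝ) • lat v = K 1 - (2 * 1 : ℝ) • lat v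
      rw [h0, h1, lat_add]
      simp only [mul_zero, zero_smul, mul_one, smul_add, two_smul]
      abel
    refine ⟨fun t => K (Int.fract t) + (2 * (⌊t⌋ : ℝ)) • lat v,
      fun σ => if σ = 1 then 0 else x + v, ?_, ?_, ?_⟩
    · have h1 : (fun t : ℝ => K (Int.fract t) + (2 * (⌊t⌋ : ℝ)) • lat v) =
          fun t => (K (Int.fract t) - (2 * Int.fract t) • lat v) + (2 * t) • lat v := by
        funext t
        have h2 : t = ⌊t⌋ + Int.fract t := (Int.floor_add_fract t).symm
        have h3 : (2 * t) • lat v = (2 * (⌊t⌋ : ℝ)) • lat v + (2 * Int.fract t) • lat v := by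
          rw [← add_smul]
          congr 1
          nth_rewrite 1 [h2]
          ring
        rw [h3]
        abel
      rw [h1]
      exact hP.add (by fun_prop)
    · intro t
      simp only [Int.fract_add_one, Int.floor_add_one, Int.cast_add, Int.cast_one, mul_add,
        mul_one, add_smul]
      abel
    · intro t
      rcases le_total (Int.fract t) (1 / 2) with h | h
      · refine ⟨1, ⌊t⌋, f (2 * Int.fract t), hfp _, ?_⟩
        simp only
        rw [hKa _ h, if_pos trivial, zero_add, gact_one, lat_zsmul, smul_smul]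
      · refine ⟨-1, ⌊t⌋, f (2 - 2 * Int.fract t), hfp _, ?_⟩
        simp only
        rw [hKb _ h, if_neg (by decide), gact_neg_one, lat_add (x + v), lat_zsmul, smul_add,
          smul_smul]
        abel

theorem many {l m : ℝ → PPlane} (hl : Continuous l) (hm : Continuous m) {v w : ℤ × ℤ}
    {e e' : Option (ℤ × ℤ)} (hk : Kind l v e) (hk' : Kind m w e') {v₀ : ℤ × ℤ}
    (hv₀ : IsCoprime v₀.1 v₀.2) {n₀ : ℤ} (hn₀ : v = n₀ • v₀) (hd : det v w ≠ 0) :
    ∃ s : ℤˣ × ℤˣ → ℤ × ℤ, ∀ j : ℤ, ∃ (τ : ℤˣ × ℤˣ) (ε : ℤˣ) (g : ℤ × ℤ),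
      det v₀ w ∣ j - (s τ).1 * det v₀ g - (s τ).2 ∧
      ∃ p ∈ pts l v e, ∃ p' ∈ pts m w e', p' = gact ε g p := by
  obtain ⟨L, c, hLc, hLv, hL⟩ := exists_line hl hk
  obtain ⟨M, c', hMc, hMw, hM⟩ := exists_line hm hk'
  refine ⟨fun τ => ((τ.2 : ℤ), -det v₀ (c τ.1 - c' τ.2)), fun j => ?_⟩
  obtain ⟨u, hu⟩ := exists_det_eq_one hv₀ j
  have hdet : ((2 : ℝ) • lat v).1 * ((2 : ℝ) • lat w).2 -
      ((2 : ℝ) • lat v).2 * ((2 : ℝ) • lat w).1 ≠ 0 := by
    have h1 : ((2 : ℝ) • lat v).1 * ((2 : ℝ) • lat w).2 -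
        ((2 : ℝ) • lat v).2 * ((2 : ℝ) • lat w).1 = 4 * (det v w : ℝ) := by
      simp only [Prod.smul_fst, Prod.smul_snd, lat_fst, lat_snd, smul_eq_mul, det, Int.cast_sub,
        Int.cast_mul]
      ring
    rw [h1]
    exact mul_ne_zero (by norm_num) (by exact_mod_cast hd)
  obtain ⟨t, s, hts⟩ := cross hLc hMc hLv hMw hdet (-((2 : ℝ) • lat u))
  obtain ⟨σ, n, p, hp, hLt⟩ := hL t
  obtain ⟨σ', n', p', hp', hMs⟩ := hM s
  have h1 : gact σ' (c' σ' + n' • w) p' = gact σ (u + (c σ + n • v)) p := by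
    rw [← hMs]
    have h2 : M s = gact 1 u (L t) := by
      rw [gact_one, hts]
      abel
    rw [h2, hLt, gact_gact]
    simp
  have h3 : p' = gact (σ' * σ) ((σ' : ℤ) • (u + (c σ - c' σ') + n • v - n' • w)) p := by
    rw [← gact_inv σ' (c' σ' + n' • w) p', h1, gact_gact]
    congr 1
    rw [← smul_neg, ← smul_add]
    congr 1
    abel
  refine ⟨(σ, σ'), σ' * σ, _, ?_, p, hp, p', hp', h3⟩
  have h4 : det v₀ v = 0 := by
    rw [hn₀, det_zsmul_right, det_self, mul_zero]
  have h5 : (σ' : ℤ) * (σ' : ℤ) = 1 := by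
    rcases eps_cases σ' with h | h <;> rw [h] <;> simp
  refine ⟨n', ?_⟩
  show j - (σ' : ℤ) * det v₀ ((σ' : ℤ) • (u + (c σ - c' σ') + n • v - n' • w)) -
    -det v₀ (c σ - c' σ') = det v₀ w * n'
  rw [det_zsmul_right, det_sub_right, det_add_right, det_add_right, det_zsmul_right,
    det_zsmul_right, hu, h4]
  linear_combination (-(j + det v₀ (c σ - c' σ') - n' * det v₀ w)) * h5

end Pool.Agent.ND4
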