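import Mathlib
import Pool.Agent.ND4.Inj
import Pool.Agent.ND4.Cell
import Pool.Agent.ND4.Many
import Pool.Agent.ND4.Cross
import Pool.Agent.ND4.Idx

/-!
# The number of periods

The slopes of two closed curves, seen through any homeomorphism, have bounded determinant.
-/

set_option autoImplicit false

open Topology Set Filter

namespace Pool.Agent.ND4

variable {Y : Type*} [TopologicalSpace Y]

lemma gact_add_lat (ε : ℤˣ) (g u : ℤ × ℤ) (z : ℝ × ℝ) :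
    gact ε g z + (2 : ℝ) • lat u = gact ε (g + u) z := by
  simp only [gact, lat_add, smul_add]
  abel

lemma gact_left_inj {ε : ℤˣ} {g₁ g₂ : ℤ × ℤ} {z : ℝ × ℝ} (h : gact ε g₁ z = gact ε g₂ z) :
    g₁ = g₂ := by
  simp only [gact, add_right_inj] at h
  exact lat_injective (smul_right_injective (ℝ × ℝ) (two_ne_zero (α := ℝ)) h)

lemma eps_mul_self (ε : ℤˣ) : (ε : ℤ) * (ε : ℤ) = 1 := by
  rcases eps_cases ε with rfl | rfl <;> simp

/-- Every real number is an integer plus a point of one of the `n` arcs of `[0, 1]`. -/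
lemma exists_arc {n : ℕ} (hn : 0 < n) (a : ℝ) : ∃ (P : ℤ) (i : Fin n),
    ∃ s ∈ Icc ((i : ℝ) / n) ((i + 1) / n), a = P + s := by
  have hn' : (0 : ℝ) < n := by exact_mod_cast hn
  have h0 := Int.fract_nonneg a
  have h1 := Int.fract_lt_one a
  have h2 : 0 ≤ n * Int.fract a := by positivity
  have h3 : ⌊n * Int.fract a⌋₊ < n := by
    rw [Nat.floor_lt h2]
    nlinarith
  have h4 : (⌊n * Int.fract a⌋₊ : ℝ) / n ≤ Int.fract a := by
    rw [div_le_iff₀ hn']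
    linarith [Nat.floor_le h2]
  have h5 : Int.fract a ≤ ((⌊n * Int.fract a⌋₊ : ℝ) + 1) / n := by
    rw [le_div_iff₀ hn']
    linarith [(Nat.lt_floor_add_one (n * Int.fract a)).le]
  exact ⟨⌊a⌋, ⟨_, h3⟩, Int.fract a, ⟨h4, h5⟩, (Int.floor_add_fract a).symm⟩

/-- The codes of a crossing. -/
abbrev Code (n : ℕ) : Type := (Fin n × Fin n) ⊕ (Bool × Bool)

/-- `x` is a code of the crossing of `m` with the image of `l` under `gact ε g`. -/
def HasCode (n : ℕ) (l m : ℝ → PPlane) (v w : ℤ × ℤ) (e e' : Option (ℤ × ℤ)) (ε : ℤˣ)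
    (g : ℤ × ℤ) : Code n → Prop
  | .inl (i, j) => (∀ y, e' = some y → ∀ x ∈ ends v e, lat y ≠ gact ε g (lat x)) ∧
      ∃ s ∈ Icc ((i : ℝ) / n) ((i + 1) / n), ∃ t ∈ Icc ((j : ℝ) / n) ((j + 1) / n),
        ∃ P N : ℤ, (m (N + t) : ℝ × ℝ) = gact ε g (l (P + s))
  | .inr (i, j) => ∃ x y, e = some x ∧ e' = some y ∧
      lat (if j then y + w else y) = gact ε g (lat (if i then x + v else x))

lemma mem_ends {v x : ℤ × ℤ} {e : Option (ℤ × ℤ)} (h : x ∈ ends v e) :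
    ∃ x₀, e = some x₀ ∧ ∃ i : Bool, x = if i then x₀ + v else x₀ := by
  cases e with
  | none => exact absurd h (notMem_empty _)
  | some x₀ =>
    refine ⟨x₀, rfl, ?_⟩
    rcases h with h | h
    · exact ⟨false, by simpa using h⟩
    · exact ⟨true, by simpa using h⟩

lemma exists_code {n : ℕ} (hn : 0 < n) {l m : ℝ → PPlane} {v w : ℤ × ℤ} {e e' : Option (ℤ × ℤ)}
    {ε : ℤˣ} {g : ℤ × ℤ} {p p' : ℝ × ℝ} (hp : p ∈ pts l v e) (hp' : p' ∈ pts m w e')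
    (h : p' = gact ε g p) : ∃ x, HasCode n l m v w e e' ε g x := by
  by_cases hc : ∃ y, e' = some y ∧ ∃ x ∈ ends v e, lat y = gact ε g (lat x)
  · obtain ⟨y, hy, x, hx, hxy⟩ := hc
    obtain ⟨x₀, hx₀, i, hi⟩ := mem_ends hx
    exact ⟨.inr (i, false), x₀, y, hx₀, hy, by rw [← hi, ← hxy]; simp⟩
  · push Not at hc
    rcases hp with ⟨a, ha⟩ | ⟨x, hx, hxp⟩
    · rcases hp' with ⟨b, hb⟩ | ⟨y, hy, hyp⟩
      · obtain ⟨P, i, s, hs, has⟩ := exists_arc hn a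
        obtain ⟨N, j, t, ht, hbt⟩ := exists_arc hn b
        refine ⟨.inl (i, j), hc, s, hs, t, ht, P, N, ?_⟩
        rw [← has, ← hbt]
        simp only at ha hb
        rw [ha, hb, h]
      · exfalso
        simp only at ha
        rw [← hyp, ← ha] at h
        exact gact_ne_lat _ _ _ _ h.symm
    · rcases hp' with ⟨b, hb⟩ | ⟨y, hy, hyp⟩
      · exfalso
        simp only at hb
        rw [← hxp, ← hb, gact_lat] at h
        exact (m b).2 _ h
      · obtain ⟨x₀, hx₀, i, hi⟩ := mem_ends hx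
        obtain ⟨y₀, hy₀, j, hj⟩ := mem_ends hy
        exact ⟨.inr (i, j), x₀, y₀, hx₀, hy₀, by rw [← hi, ← hj, hxp, hyp, h]⟩

/-- Two crossings with the same code differ by periods. -/
lemma same_code (R : HoledSphere Y) {a b : ℝ → Y} (ha : Continuous a) (hb : Continuous b)
    (pa : ∀ t, a (t + 1) = a t) (pb : ∀ t, b (t + 1) = b t) {n : ℕ}
    (hpart : ∀ i j : Fin n,
      (∀ s ∈ Icc ((i : ℝ) / n) ((i + 1) / n), ∀ t ∈ Icc ((j : ℝ) / n) ((j + 1) / n), a s ≠ b t) ∨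
      CommonDisc R a b (Icc ((i : ℝ) / n) ((i + 1) / n)) (Icc ((j : ℝ) / n) ((j + 1) / n)))
    (k : Y ≃ₜ Y) {v w : ℤ × ℤ} (hv : v ≠ 0) (hw : w ≠ 0) {l m : ℝ → PPlane} (hl : Continuous l)
    (hm : Continuous m) (hla : ∀ t, R.q (l t) = k (a t)) (hmb : ∀ t, R.q (m t) = k (b t))
    {e e' : Option (ℤ × ℤ)} (hk : Kind l v e) (hk' : Kind m w e') {ε : ℤˣ} {g₁ g₂ : ℤ × ℤ}
    {x : Code n} (h₁ : HasCode n l m v w e e' ε g₁ x) (h₂ : HasCode n l m v w e e' ε g₂ x) :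
    ∃ j j' : ℤ, g₂ = g₁ + j • v + j' • w := by
  have paz : ∀ (N : ℤ) (t : ℝ), a (N + t) = a t := by
    intro N t
    have h : Function.Periodic a 1 := pa
    rw [add_comm]
    simpa using h.int_mul N t
  have pbz : ∀ (N : ℤ) (t : ℝ), b (N + t) = b t := by
    intro N t
    have h : Function.Periodic b 1 := pb
    rw [add_comm]
    simpa using h.int_mul N t
  rcases x with ⟨i, j⟩ | ⟨i, j⟩
  · obtain ⟨hc₁, s₁, hs₁, t₁, ht₁, P₁, N₁, h₁⟩ := h₁
    obtain ⟨hc₂, s₂, hs₂, t₂, ht₂, P₂, N₂, h₂⟩ := h₂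
    have hab : a s₁ = b t₁ := by
      have h1 : m (N₁ + t₁) = gactE ε g₁ (l (P₁ + s₁)) := Subtype.ext h₁
      have h2 := congrArg R.q h1
      rw [R.q_gactE, hla, hmb, paz, pbz] at h2
      exact (k.injective h2).symm
    have hcd := (hpart i j).resolve_left (fun h => h s₁ hs₁ t₁ ht₁ hab)
    have h3 := cell_shift R k ha hb pa pb hl hm hla hmb isPreconnected_Icc isPreconnected_Icc hcd
      hs₁ hs₂ ht₁ ht₂ h₁ h₂
    have hinj := inj R hl hm (fun s => by rw [hla, hla, pa]) (fun s => by rw [hmb, hmb, pb])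
      hv hw hk hk' (ε₁ := ε) (ε₂ := ε) (g₁ := g₁) (g₂ := g₂) (a₁ := P₁ + s₁) (b₁ := N₁ + t₁)
      (N := N₂ - N₁) (P := P₂ - P₁) h₁
      (by
        have e1 : (N₁ : ℝ) + t₁ + ((N₂ - N₁ : ℤ) : ℝ) = N₂ + t₁ := by push_cast; ring
        have e2 : (P₁ : ℝ) + s₁ + ((P₂ - P₁ : ℤ) : ℝ) = P₂ + s₁ := by push_cast; ring
        rw [e1, e2]
        exact h3)
      (fun y hy x hx => ⟨hc₁ y hy x hx, hc₂ y hy x hx⟩)
    exact hinj.2
  · obtain ⟨x₁, y₁, hx₁, hy₁, h₁⟩ := h₁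
    obtain ⟨x₂, y₂, hx₂, hy₂, h₂⟩ := h₂
    have hx : x₂ = x₁ := Option.some.inj (hx₂.symm.trans hx₁)
    have hy : y₂ = y₁ := Option.some.inj (hy₂.symm.trans hy₁)
    subst hx hy
    refine ⟨0, 0, ?_⟩
    rw [zero_smul, zero_smul, add_zero, add_zero]
    exact (gact_left_inj (h₁.symm.trans h₂)).symm

/-- **Counting lemma.** -/
theorem count [T2Space Y] (R : HoledSphere Y) {a b : ℝ → Y} (ha : Continuous a)
    (hb : Continuous b) (pa : ∀ t, a (t + 1) = a t) (pb : ∀ t, b (t + 1) = b t) :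
    ∃ C : ℕ, ∀ (k : Y ≃ₜ Y) (v w : ℤ × ℤ), Slope R.q (fun t => k (a t)) v →
      Slope R.q (fun t => k (b t)) w → |det v w| ≤ C := by
  classical
  obtain ⟨n, hn, hpart⟩ := exists_partition R ha hb
  refine ⟨Fintype.card ((ℤˣ × ℤˣ) × Code n), ?_⟩
  intro k v w hsv hsw
  obtain ⟨hv, l, e, hl, hla, hk⟩ := slope_iff.mp hsv
  obtain ⟨hw, m, e', hm, hmb, hk'⟩ := slope_iff.mp hsw
  by_cases hd : det v w = 0
  · rw [hd, abs_zero]
    exact Int.natCast_nonneg _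
  obtain ⟨L, c, hL, hLv, hLp⟩ := exists_line hl hk
  obtain ⟨M, c', hM, hMw, hMp⟩ := exists_line hm hk'
  have hD : ((2 : ℝ) • lat v).1 * ((2 : ℝ) • lat w).2 - ((2 : ℝ) • lat v).2 * ((2 : ℝ) • lat w).1
      ≠ 0 := by
    have h1 : ((2 : ℝ) • lat v).1 * ((2 : ℝ) • lat w).2 -
        ((2 : ℝ) • lat v).2 * ((2 : ℝ) • lat w).1 = 4 * ((det v w : ℤ) : ℝ) := by
      simp only [det, Prod.smul_fst, Prod.smul_snd, lat_fst, lat_snd, smul_eq_mul]
      push_cast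
      ring
    rw [h1]
    have h2 : ((det v w : ℤ) : ℝ) ≠ 0 := by exact_mod_cast hd
    positivity
  -- a crossing for each `u`
  have key : ∀ u : ℤ × ℤ, ∃ (στ : ℤˣ × ℤˣ) (x : Code n) (n₁ n₂ : ℤ),
      HasCode n l m v w e e' (στ.2 * στ.1)
        ((στ.2 : ℤ) • (c στ.1 + n₁ • v + u - (c' στ.2 + n₂ • w))) x := by
    intro u
    obtain ⟨t, s, hts⟩ := cross hL hM hLv hMw hD (-((2 : ℝ) • lat u))
    obtain ⟨σ, n₁, p, hp, hpL⟩ := hLp t
    obtain ⟨τ, n₂, p', hp', hpM⟩ := hMp s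
    have h1 : gact σ (c σ + n₁ • v + u) p = gact τ (c' τ + n₂ • w) p' := by
      rw [← gact_add_lat, ← hpL, ← hpM, hts]
      abel
    have h2 : p' = gact (τ * σ) ((τ : ℤ) • (c σ + n₁ • v + u - (c' τ + n₂ • w))) p := by
      rw [← gact_inv τ (c' τ + n₂ • w) p', ← h1, gact_gact]
      congr 1
      rw [smul_sub]
      abel
    obtain ⟨x, hx⟩ := exists_code hn hp hp' h2
    exact ⟨(σ, τ), x, n₁, n₂, hx⟩
  choose στ x n₁ n₂ hcode using key
  have hle := natAbs_det_le v w (fun u => (στ u, x u)) (by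
    intro u₁ u₂ hu
    have hu1 : στ u₁ = στ u₂ := congrArg Prod.fst hu
    have hu2 : x u₁ = x u₂ := congrArg Prod.snd hu
    have h1 := hcode u₁
    have h2 := hcode u₂
    rw [← hu1, ← hu2] at h2
    obtain ⟨j, j', hj⟩ := same_code R ha hb pa pb hpart k hv hw hl hm hla hmb hk hk' h2 h1
    set τ := (στ u₁).2 with hτ
    set C₁ := c (στ u₁).1
    set C₂ := c' (στ u₁).2
    have h3 : (τ : ℤ) • ((C₁ + n₁ u₁ • v + u₁ - (C₂ + n₂ u₁ • w)) -
        (C₁ + n₁ u₂ • v + u₂ - (C₂ + n₂ u₂ • w))) = j • v + j' • w := by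
      rw [smul_sub, hj]
      abel
    have h4 : u₁ - u₂ + (n₁ u₁ - n₁ u₂) • v - (n₂ u₁ - n₂ u₂) • w =
        (τ : ℤ) • (j • v + j' • w) := by
      rw [← h3, smul_smul, eps_mul_self, one_smul]
      simp only [sub_smul]
      abel
    refine ⟨(τ : ℤ) * j - (n₁ u₁ - n₁ u₂), (τ : ℤ) * j' + (n₂ u₁ - n₂ u₂), ?_⟩
    have h5 : u₁ - u₂ = (τ : ℤ) • (j • v + j' • w) - (n₁ u₁ - n₁ u₂) • v +
        (n₂ u₁ - n₂ u₂) • w := by
      rw [← h4]
      abel
    rw [h5]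
    module)
  have h6 : |det v w| = ((v.1 * w.2 - v.2 * w.1).natAbs : ℤ) := by
    rw [det, Int.natCast_natAbs]
  rw [h6]
  exact_mod_cast hle

end Pool.Agent.ND4
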