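import Mathlib

/-!
# Finiteness of lifts

`q : E → S` a covering map onto a Hausdorff space, `X` compact, connected and locally connected,
`h : X → S` continuous and `K ⊆ E` compact: only finitely many lifts of `h` to `E` meet `K`.
-/

set_option autoImplicit false

namespace Pool.Agent.ND4

open Set Topology

variable {E S : Type*} [TopologicalSpace E] [TopologicalSpace S]

/-- The local statement: near a point `(x, k)` there is at most one lift. -/
theorem lifts_local {q : E → S} (hq : IsCoveringMap q) [T2Space S]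
    {X : Type*} [TopologicalSpace X] [PreconnectedSpace X] [LocallyConnectedSpace X]
    {h : X → S} (hh : Continuous h) (x : X) (k : E) :
    ∃ N ∈ 𝓝 (x, k), {F : X → E | Continuous F ∧ q ∘ F = h ∧ ∃ y, (y, F y) ∈ N}.Subsingleton := by
  by_cases hxk : q k = h x
  · -- a local section
    obtain ⟨e, hke, rfl⟩ := hq.isLocalHomeomorph k
    have h1 : h ⁻¹' e.target ∈ 𝓝 x := by
      refine (e.open_target.preimage hh).mem_nhds ?_
      show h x ∈ e.target
      rw [← hxk]
      exact e.map_source hke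
    obtain ⟨V, hV1, hV2, hxV, hV3⟩ :=
      locallyConnectedSpace_iff_subsets_isOpen_isConnected.1 ‹_› x _ h1
    refine ⟨V ×ˢ e.source, prod_mem_nhds (hV2.mem_nhds hxV) (e.open_source.mem_nhds hke), ?_⟩
    have key : ∀ F : X → E, Continuous F → e ∘ F = h → (∃ y, (y, F y) ∈ V ×ˢ e.source) →
        F x = k := by
      rintro F hF hFh ⟨y, hy1, hy2⟩
      have hs : ContinuousOn (e.symm ∘ h) V :=
        e.continuousOn_symm.comp hh.continuousOn fun z hz => hV1 hz
      have heq : EqOn (e ∘ F) (e ∘ (e.symm ∘ h)) V := by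
        intro z hz
        rw [hFh]
        exact (e.right_inv (hV1 hz)).symm
      have hya : F y = (e.symm ∘ h) y := by
        show F y = e.symm (h y)
        rw [← hFh]
        exact (e.left_inv hy2).symm
      have := hq.eqOn_of_comp_eqOn hV3.isPreconnected hF.continuousOn hs heq hy1 hya hxV
      rw [this]
      show e.symm (h x) = k
      rw [← hxk]
      exact e.left_inv hke
    rintro F ⟨hF, hFh, hFy⟩ F' ⟨hF', hFh', hFy'⟩
    refine hq.eq_of_comp_eq hF hF' (hFh.trans hFh'.symm) x ?_
    rw [key F hF hFh hFy, key F' hF' hFh' hFy']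
  · obtain ⟨U, V, hU, hV, hxU, hkV, hUV⟩ := t2_separation (Ne.symm hxk)
    refine ⟨(h ⁻¹' U) ×ˢ (q ⁻¹' V), prod_mem_nhds ((hU.preimage hh).mem_nhds hxU)
      ((hV.preimage hq.continuous).mem_nhds hkV), ?_⟩
    rintro F ⟨hF, hFh, y, hy1, hy2⟩
    exfalso
    have h2 : q (F y) = h y := congrFun hFh y
    have hy2' : q (F y) ∈ V := hy2
    rw [h2] at hy2'
    exact disjoint_left.1 hUV hy1 hy2'

/-- **Finiteness lemma.** -/
theorem finite_lifts {q : E → S} (hq : IsCoveringMap q) [T2Space S]
    {X : Type*} [TopologicalSpace X] [CompactSpace X] [PreconnectedSpace X]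
    [LocallyConnectedSpace X] {h : X → S} (hh : Continuous h) {K : Set E} (hK : IsCompact K) :
    {F : X → E | Continuous F ∧ q ∘ F = h ∧ ∃ x, F x ∈ K}.Finite := by
  choose N hN hsub using lifts_local hq hh
  obtain ⟨t, ht⟩ := (isCompact_univ (X := X)).prod hK |>.elim_nhds_subcover'
    (fun p _ => N p.1 p.2) fun p _ => hN p.1 p.2
  refine (t.finite_toSet.biUnion (t := fun p => {F : X → E | Continuous F ∧ q ∘ F = h ∧
    ∃ y, (y, F y) ∈ N p.1.1 p.1.2}) fun p _ => (hsub p.1.1 p.1.2).finite).subset ?_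
  rintro F ⟨hF, hFh, x, hx⟩
  obtain ⟨p, hp, hxp⟩ := mem_iUnion₂.1 (ht (show (x, F x) ∈ univ ×ˢ K from ⟨mem_univ _, hx⟩))
  exact mem_biUnion hp ⟨hF, hFh, x, hxp⟩

/-- The finiteness lemma for maps on a compact, connected, locally connected subset `A` of a
space `Y`: the restrictions to `A` of the lifts which meet `K`. -/
theorem finite_lifts_on {q : E → S} (hq : IsCoveringMap q) [T2Space S]
    {Y : Type*} [TopologicalSpace Y] {A : Set Y} (hA : IsCompact A) (hA' : IsPreconnected A)
    [LocallyConnectedSpace A] {h : Y → S} (hh : ContinuousOn h A) {K : Set E} (hK : IsCompact K) :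
    {F : A → E | Continuous F ∧ (∀ x, q (F x) = h x) ∧ ∃ x, F x ∈ K}.Finite := by
  have h1 : CompactSpace A := isCompact_iff_compactSpace.1 hA
  have h2 : PreconnectedSpace A := isPreconnected_iff_preconnectedSpace.1 hA'
  refine (finite_lifts hq (X := A) (h := fun x => h x)
    (continuousOn_iff_continuous_domRestrict.1 hh) hK).subset ?_
  rintro F ⟨hF, hFh, hx⟩
  exact ⟨hF, funext fun x => hFh x, hx⟩

/-- The finiteness lemma for maps on a compact convex set, for instance `Icc a b`. -/
theorem finite_lifts_convex {q : E → S} (hq : IsCoveringMap q) [T2Space S]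
    {Y : Type*} [AddCommGroup Y] [Module ℝ Y] [TopologicalSpace Y] [IsTopologicalAddGroup Y]
    [ContinuousSMul ℝ Y] [LocallyConvexSpace ℝ Y] {A : Set Y} (hA : IsCompact A)
    (hA' : Convex ℝ A) {h : Y → S} (hh : ContinuousOn h A) {K : Set E} (hK : IsCompact K) :
    {F : A → E | Continuous F ∧ (∀ x, q (F x) = h x) ∧ ∃ x, F x ∈ K}.Finite := by
  have h1 : LocallyPathConnectedSpace A := hA'.locallyPathConnectedSpace
  exact finite_lifts_on hq hA hA'.isPreconnected hh hK

/-- The finiteness lemma for paths, in terms of families: if `F i : Y → E`, `i : ι`, are lifts of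
`h` on the compact convex set `A` which meet `K` in points of `A`, and if two of them which agree
on `A` have the same index then `ι` is finite. -/
theorem finite_of_lifts {q : E → S} (hq : IsCoveringMap q) [T2Space S]
    {Y : Type*} [AddCommGroup Y] [Module ℝ Y] [TopologicalSpace Y] [IsTopologicalAddGroup Y]
    [ContinuousSMul ℝ Y] [LocallyConvexSpace ℝ Y] {A : Set Y} (hA : IsCompact A)
    (hA' : Convex ℝ A) {h : Y → S} (hh : ContinuousOn h A) {K : Set E} (hK : IsCompact K)
    {ι : Type*} {T : Set ι} (F : ι → Y → E) (hF : ∀ i ∈ T, ContinuousOn (F i) A)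
    (hFh : ∀ i ∈ T, ∀ x ∈ A, q (F i x) = h x) (hFK : ∀ i ∈ T, ∃ x ∈ A, F i x ∈ K)
    (hinj : ∀ i ∈ T, ∀ j ∈ T, EqOn (F i) (F j) A → i = j) : T.Finite := by
  refine Finite.of_finite_image (f := fun i (x : A) => F i x)
    ((finite_lifts_convex hq hA hA' hh hK).subset ?_) ?_
  · rintro _ ⟨i, hi, rfl⟩
    refine ⟨continuousOn_iff_continuous_domRestrict.1 (hF i hi), fun x => hFh i hi x x.2, ?_⟩
    obtain ⟨x, hx, hxK⟩ := hFK i hi
    exact ⟨⟨x, hx⟩, hxK⟩
  · intro i hi j hj hij
    exact hinj i hi j hj fun x hx => congrFun hij ⟨x, hx⟩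

end Pool.Agent.ND4
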