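import Mathlib

/-!
The two counting functions on integer vectors which detect the hyperbolic matrices
`(5 2; 2 1)` and `(5 -2; -2 1)`.
-/

open Set Filter Topology

namespace Pool.Agent.ND4

/-- the matrix `(5 2; 2 1)`. -/
def mA (v : ℤ × ℤ) : ℤ × ℤ := (5 * v.1 + 2 * v.2, 2 * v.1 + v.2)

/-- the matrix `(5 -2; -2 1)`. -/
def mA1 (v : ℤ × ℤ) : ℤ × ℤ := (5 * v.1 - 2 * v.2, -2 * v.1 + v.2)

/-- the inverse of `mA`. -/
def mB (v : ℤ × ℤ) : ℤ × ℤ := (v.1 - 2 * v.2, -2 * v.1 + 5 * v.2)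

/-- the determinant of two integer vectors. -/
def det2 (v w : ℤ × ℤ) : ℤ := v.1 * w.2 - v.2 * w.1

/-- negation of the second coordinate. -/
def flip2 (v : ℤ × ℤ) : ℤ × ℤ := (v.1, -v.2)

/-- the exponents `j` with `v` or `-v` in `mA^j` (closed positive quadrant). -/
def kset (v : ℤ × ℤ) : Set ℕ :=
  {j | ∃ w : ℤ × ℤ, 0 ≤ w.1 ∧ 0 ≤ w.2 ∧ (mA^[j] w = v ∨ mA^[j] w = -v)}

/-- the largest `j` with `v` or `-v` in `mA^j` (closed positive quadrant) (`0` if there is none). -/
noncomputable def kappa (v : ℤ × ℤ) : ℕ := sSup (kset v)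

/-- the same for the vector with negated second coordinate. -/
noncomputable def kappa1 (v : ℤ × ℤ) : ℕ := kappa (flip2 v)

theorem mA_mB (v : ℤ × ℤ) : mA (mB v) = v := by
  ext <;> simp only [mA, mB] <;> ring

theorem mB_mA (v : ℤ × ℤ) : mB (mA v) = v := by
  ext <;> simp only [mA, mB] <;> ring

theorem mA_iter_mB (j : ℕ) (v : ℤ × ℤ) : mA^[j] (mB^[j] v) = v :=
  (Function.LeftInverse.iterate mA_mB j) v

theorem mA_neg (v : ℤ × ℤ) : mA (-v) = -mA v := by
  ext <;> simp only [mA, Prod.fst_neg, Prod.snd_neg] <;> ring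

theorem mA_iter_neg (j : ℕ) (v : ℤ × ℤ) : mA^[j] (-v) = -(mA^[j] v) := by
  induction j generalizing v with
  | zero => rfl
  | succ j ih => rw [Function.iterate_succ_apply, Function.iterate_succ_apply, mA_neg, ih]

theorem det2_mA (v w : ℤ × ℤ) : det2 (mA v) (mA w) = det2 v w := by
  simp only [det2, mA]; ring

theorem det2_iter (j : ℕ) (v w : ℤ × ℤ) : det2 (mA^[j] v) (mA^[j] w) = det2 v w := by
  induction j generalizing v w with
  | zero => rfl
  | succ j ih => rw [Function.iterate_succ_apply, Function.iterate_succ_apply, ih, det2_mA]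

theorem det2_neg_left (v w : ℤ × ℤ) : det2 (-v) w = -det2 v w := by
  simp only [det2, Prod.fst_neg, Prod.snd_neg]; ring

theorem det2_comm (v w : ℤ × ℤ) : det2 w v = -det2 v w := by
  simp only [det2]; ring

theorem det2_flip (v w : ℤ × ℤ) : det2 (flip2 v) (flip2 w) = -det2 v w := by
  simp only [det2, flip2]; ring

theorem flip2_ne {v : ℤ × ℤ} (hv : v ≠ 0) : flip2 v ≠ 0 := by
  intro h
  apply hv
  have h1 := congrArg Prod.fst h
  have h2 := congrArg Prod.snd h
  simp only [flip2, Prod.fst_zero, Prod.snd_zero] at h1 h2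
  ext
  · simpa using h1
  · simp only [Prod.snd_zero]; omega

/-- growth of the sum of the coordinates on the positive quadrant. -/
theorem iter_nonneg {w : ℤ × ℤ} (h1 : 0 ≤ w.1) (h2 : 0 ≤ w.2) (j : ℕ) :
    0 ≤ (mA^[j] w).1 ∧ 0 ≤ (mA^[j] w).2 ∧
      3 ^ j * (w.1 + w.2) ≤ (mA^[j] w).1 + (mA^[j] w).2 := by
  induction j with
  | zero => simp [h1, h2]
  | succ j ih =>
    rw [Function.iterate_succ_apply']
    obtain ⟨a, b, c⟩ := ih
    simp only [mA]
    refine ⟨by linarith, by linarith, ?_⟩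
    rw [pow_succ]
    nlinarith

theorem kset_bdd {v : ℤ × ℤ} (hv : v ≠ 0) : ∀ j ∈ kset v, (j : ℤ) ≤ |v.1| + |v.2| := by
  rintro j ⟨w, h1, h2, h⟩
  obtain ⟨a, b, c⟩ := iter_nonneg h1 h2 j
  have hw : 1 ≤ w.1 + w.2 := by
    by_contra hlt
    have e1 : w.1 = 0 := by omega
    have e2 : w.2 = 0 := by omega
    have hw0 : w = 0 := Prod.ext e1 e2
    have hz : mA^[j] (0 : ℤ × ℤ) = 0 := by
      have := mA_iter_neg j (0 : ℤ × ℤ)
      rw [neg_zero] at this
      have h1 := congrArg Prod.fst this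
      have h2 := congrArg Prod.snd this
      simp only [Prod.fst_neg, Prod.snd_neg] at h1 h2
      ext <;> simp only [Prod.fst_zero, Prod.snd_zero] <;> omega
    rw [hw0, hz] at h
    rcases h with h | h
    · exact hv h.symm
    · exact hv (by rw [← neg_neg v, ← h, neg_zero])
  have h3 : (j : ℤ) ≤ 3 ^ j := by
    have : j < 3 ^ j := Nat.lt_pow_self (by norm_num)
    exact_mod_cast this.le
  have h4 : (3 : ℤ) ^ j ≤ 3 ^ j * (w.1 + w.2) := le_mul_of_one_le_right (by positivity) hw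
  have h5 : (mA^[j] w).1 + (mA^[j] w).2 ≤ |v.1| + |v.2| := by
    rcases h with h | h
    · rw [h]; exact add_le_add (le_abs_self _) (le_abs_self _)
    · rw [h]; exact add_le_add (neg_le_abs _) (neg_le_abs _)
  omega

theorem kset_bddAbove {v : ℤ × ℤ} (hv : v ≠ 0) : BddAbove (kset v) := by
  refine ⟨(|v.1| + |v.2|).toNat, fun j hj => ?_⟩
  have := kset_bdd hv j hj
  omega

theorem le_kappa {v : ℤ × ℤ} (hv : v ≠ 0) {j : ℕ} (hj : j ∈ kset v) : j ≤ kappa v :=
  le_csSup (kset_bddAbove hv) hj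

theorem kset_neg (v : ℤ × ℤ) : kset (-v) = kset v := by
  ext j
  constructor <;> rintro ⟨w, h1, h2, h⟩ <;> refine ⟨w, h1, h2, ?_⟩
  · rw [neg_neg] at h; exact h.symm
  · rw [neg_neg]; exact h.symm

theorem kappa_neg (v : ℤ × ℤ) : kappa (-v) = kappa v := by
  rw [kappa, kappa, kset_neg]

theorem kappa1_neg (v : ℤ × ℤ) : kappa1 (-v) = kappa1 v := by
  have : flip2 (-v) = -flip2 v := by ext <;> simp [flip2]
  rw [kappa1, kappa1, this, kappa_neg]

/-- if `kappa w < kappa v` then the determinant is large. -/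
theorem pow_le_det2 {v w : ℤ × ℤ} (hv : v ≠ 0) (hw : w ≠ 0) (h : kappa w < kappa v) :
    3 ^ (kappa v - kappa w - 1) ≤ |det2 v w| := by
  have hne : (kset v).Nonempty := by
    by_contra hc
    rw [Set.not_nonempty_iff_eq_empty] at hc
    have : kappa v = 0 := by rw [kappa, hc]; simp
    omega
  have hmem : kappa v ∈ kset v := Nat.sSup_mem hne (kset_bddAbove hv)
  obtain ⟨p, p1, p2, hp⟩ := hmem
  set a := kappa v
  set b := kappa w with hb
  obtain ⟨m, hm⟩ : ∃ m, a = (b + 1) + m := ⟨a - b - 1, by omega⟩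
  have hm' : a - b - 1 = m := by omega
  rw [hm']
  obtain ⟨q1, q2, q3⟩ := iter_nonneg p1 p2 m
  set q := mA^[m] p with hq
  have hpq : mA^[a] p = mA^[b + 1] q := by rw [hm, Function.iterate_add_apply]
  set w0 := mB^[b + 1] w with hw0
  have hww : mA^[b + 1] w0 = w := mA_iter_mB _ _
  have hnot : b + 1 ∉ kset w := fun hc => by
    have := le_kappa hw hc
    omega
  have hn1 : ¬(0 ≤ w0.1 ∧ 0 ≤ w0.2) := fun hc => hnot ⟨w0, hc.1, hc.2, Or.inl hww⟩
  have hn2 : ¬(w0.1 ≤ 0 ∧ w0.2 ≤ 0) := fun hc => hnot ⟨-w0, by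
    simpa using hc.1, by simpa using hc.2, Or.inr (by rw [mA_iter_neg, hww])⟩
  have hps : 1 ≤ p.1 + p.2 := by
    by_contra hlt
    have e1 : p.1 = 0 := by omega
    have e2 : p.2 = 0 := by omega
    have hp0 : p = 0 := Prod.ext e1 e2
    have hz : mA^[a] (0 : ℤ × ℤ) = 0 := by
      have := mA_iter_neg a (0 : ℤ × ℤ)
      rw [neg_zero] at this
      have h1 := congrArg Prod.fst this
      have h2 := congrArg Prod.snd this
      simp only [Prod.fst_neg, Prod.snd_neg] at h1 h2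
      ext <;> simp only [Prod.fst_zero, Prod.snd_zero] <;> omega
    rw [hp0, hz] at hp
    rcases hp with hp | hp
    · exact hv hp.symm
    · exact hv (by rw [← neg_neg v, ← hp, neg_zero])
  have hq3 : (3 : ℤ) ^ m ≤ q.1 + q.2 :=
    (le_mul_of_one_le_right (by positivity) hps).trans q3
  have hdet : |det2 v w| = |det2 q w0| := by
    rw [← det2_iter (b + 1) q w0, hww, ← hpq]
    rcases hp with hp | hp
    · rw [hp]
    · rw [hp, det2_neg_left, abs_neg]
  rw [hdet]
  refine hq3.trans ?_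
  have hcase : (w0.1 ≤ -1 ∧ 1 ≤ w0.2) ∨ (1 ≤ w0.1 ∧ w0.2 ≤ -1) := by omega
  rcases hcase with ⟨x, y⟩ | ⟨x, y⟩
  · refine le_trans ?_ (le_abs_self _)
    simp only [det2]
    nlinarith
  · refine le_trans ?_ (neg_le_abs _)
    simp only [det2]
    nlinarith

theorem kappa_near_aux {v w : ℤ × ℤ} (hv : v ≠ 0) (hw : w ≠ 0) :
    (kappa v : ℤ) - kappa w ≤ |det2 v w| + 1 := by
  rcases Nat.lt_or_ge (kappa w) (kappa v) with h | h
  · have h1 := pow_le_det2 hv hw h
    have h2 : ((kappa v - kappa w - 1 : ℕ) : ℤ) ≤ 3 ^ (kappa v - kappa w - 1) := by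
      have : (kappa v - kappa w - 1) < 3 ^ (kappa v - kappa w - 1) :=
        Nat.lt_pow_self (by norm_num)
      exact_mod_cast this.le
    omega
  · have := abs_nonneg (det2 v w)
    omega

/-- vectors with a small determinant have nearly the same `kappa`. -/
theorem kappa_near {v w : ℤ × ℤ} (hv : v ≠ 0) (hw : w ≠ 0) :
    |(kappa v : ℤ) - kappa w| ≤ |det2 v w| + 1 := by
  rw [abs_le]
  have h1 := kappa_near_aux hv hw
  have h2 := kappa_near_aux hw hv
  rw [det2_comm v w, abs_neg] at h2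
  constructor <;> linarith

theorem kappa1_near {v w : ℤ × ℤ} (hv : v ≠ 0) (hw : w ≠ 0) :
    |(kappa1 v : ℤ) - kappa1 w| ≤ |det2 v w| + 1 := by
  have := kappa_near (flip2_ne hv) (flip2_ne hw)
  rwa [det2_flip, abs_neg] at this

theorem kappa_eq_zero {v : ℤ × ℤ} (h : v.1 * v.2 < 0) : kappa v = 0 := by
  have : kset v = ∅ := by
    rw [Set.eq_empty_iff_forall_notMem]
    rintro j ⟨w, h1, h2, hw⟩
    obtain ⟨a, b, -⟩ := iter_nonneg h1 h2 j
    rcases hw with hw | hw
    · rw [hw] at a b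
      nlinarith [mul_nonneg a b]
    · rw [hw] at a b
      simp only [Prod.fst_neg, Prod.snd_neg] at a b
      nlinarith [mul_nonneg a b]
  rw [kappa, this]
  simp

theorem kappa_e1 (n : ℕ) : kappa (mA^[n] (1, 0)) = n := by
  have hpos := iter_nonneg (w := (1, 0)) (by norm_num) (by norm_num) n
  have hne : mA^[n] ((1, 0) : ℤ × ℤ) ≠ 0 := by
    intro h
    rw [h] at hpos
    have h3 : (0 : ℤ) < 3 ^ n := by positivity
    simp only [Prod.fst_zero, Prod.snd_zero] at hpos
    linarith [hpos.2.2]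
  apply le_antisymm
  · apply csSup_le'
    rintro j ⟨w, h1, h2, hw⟩
    by_contra hlt
    push Not at hlt
    obtain ⟨m, rfl⟩ : ∃ m, j = n + (m + 1) := ⟨j - n - 1, by omega⟩
    have hinj : Function.Injective (mA^[n]) :=
      (Function.LeftInverse.injective mB_mA).iterate n
    rw [Function.iterate_add_apply] at hw
    have hw' : mA^[m + 1] w = (1, 0) ∨ mA^[m + 1] w = -(1, 0) := by
      rcases hw with hw | hw
      · exact Or.inl (hinj hw)
      · rw [← mA_iter_neg] at hw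
        exact Or.inr (hinj hw)
    rw [Function.iterate_succ_apply'] at hw'
    obtain ⟨a, b, -⟩ := iter_nonneg h1 h2 m
    simp only [mA, Prod.ext_iff, Prod.fst_neg, Prod.snd_neg] at hw'
    omega
  · exact le_kappa hne ⟨(1, 0), by norm_num, by norm_num, Or.inl rfl⟩

theorem flip2_mA (v : ℤ × ℤ) : flip2 (mA v) = mA1 (flip2 v) := by
  ext <;> simp only [flip2, mA, mA1] <;> ring

theorem flip2_flip2 (v : ℤ × ℤ) : flip2 (flip2 v) = v := by
  ext <;> simp [flip2]

theorem flip2_iter (n : ℕ) (v : ℤ × ℤ) : flip2 (mA^[n] v) = mA1^[n] (flip2 v) := by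
  induction n generalizing v with
  | zero => rfl
  | succ n ih => rw [Function.iterate_succ_apply, Function.iterate_succ_apply, ih, flip2_mA]

theorem flip2_iter1 (n : ℕ) (v : ℤ × ℤ) : flip2 (mA1^[n] v) = mA^[n] (flip2 v) := by
  rw [← flip2_flip2 (mA^[n] (flip2 v)), flip2_iter, flip2_flip2]

theorem kappa1_e1 (n : ℕ) : kappa1 (mA^[n] (1, 0)) = 0 := by
  rcases n with _ | n
  · have := kappa_e1 0
    simpa [kappa1, flip2] using this
  · rw [kappa1]
    apply kappa_eq_zero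
    rw [Function.iterate_succ_apply']
    obtain ⟨a, b, c⟩ := iter_nonneg (w := (1, 0)) (by norm_num) (by norm_num) n
    have h3 : (0 : ℤ) < 3 ^ n := by positivity
    simp only [flip2, mA]
    have h4 : 0 < 5 * (mA^[n] (1, 0)).1 + 2 * (mA^[n] (1, 0)).2 := by nlinarith
    have h5 : 0 < 2 * (mA^[n] (1, 0)).1 + (mA^[n] (1, 0)).2 := by nlinarith
    nlinarith [mul_pos h4 h5]

theorem kappa1_e1' (n : ℕ) : kappa1 (mA1^[n] (1, 0)) = n := by
  rw [kappa1, flip2_iter1]
  have : flip2 (1, 0) = (1, 0) := by simp [flip2]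
  rw [this, kappa_e1]

theorem kappa_e1' (n : ℕ) : kappa (mA1^[n] (1, 0)) = 0 := by
  have h := kappa1_e1 n
  rw [kappa1, flip2_iter] at h
  have : flip2 (1, 0) = (1, 0) := by simp [flip2]
  rwa [this] at h

end Pool.Agent.ND4
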