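import Mathlib
import Pool.Agent.ND4.Kappa

/-!
# Integer powers of the two hyperbolic matrices
-/

set_option autoImplicit false

namespace Pool.Agent.ND4

/-- `(x, y) ↦ (5 x + 2 y, 2 x + y)`. -/
def mulA : Equiv.Perm (ℤ × ℤ) where
  toFun := mA
  invFun := mB
  left_inv := mB_mA
  right_inv := mA_mB

/-- `(x, y) ↦ (5 x - 2 y, -2 x + y)`. -/
def mulB : Equiv.Perm (ℤ × ℤ) where
  toFun := mA1
  invFun u := (u.1 + 2 * u.2, 2 * u.1 + 5 * u.2)
  left_inv u := by ext <;> simp [mA1] <;> ring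
  right_inv u := by ext <;> simp [mA1] <;> ring

theorem mulA_pow (n : ℕ) (v : ℤ × ℤ) : (mulA ^ (n : ℤ)) v = mA^[n] v := by
  rw [zpow_natCast, ← Equiv.Perm.iterate_eq_pow]
  rfl

theorem mulB_pow (n : ℕ) (v : ℤ × ℤ) : (mulB ^ (n : ℤ)) v = mA1^[n] v := by
  rw [zpow_natCast, ← Equiv.Perm.iterate_eq_pow]
  rfl

theorem mulA_pow_neg (n : ℕ) (v : ℤ × ℤ) : (mulA ^ (-(n : ℤ))) v = mB^[n] v := by
  rw [zpow_neg, zpow_natCast, ← inv_pow, ← Equiv.Perm.iterate_eq_pow]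
  rfl

theorem kappa_mulA (n : ℕ) : kappa ((mulA ^ (n : ℤ)) (1, 0)) = n := by
  rw [mulA_pow, kappa_e1]

theorem kappa1_mulB (n : ℕ) : kappa1 ((mulB ^ (n : ℤ)) (1, 0)) = n := by
  rw [mulB_pow, kappa1_e1']

/-- the matrix `(1 2; 2 5)`. -/
def mD (v : ℤ × ℤ) : ℤ × ℤ := (v.1 + 2 * v.2, 2 * v.1 + 5 * v.2)

theorem flip2_mB (v : ℤ × ℤ) : flip2 (mB v) = mD (flip2 v) := by
  ext <;> simp only [flip2, mB, mD] <;> ring

theorem flip2_mB_iter (n : ℕ) (v : ℤ × ℤ) : flip2 (mB^[n] v) = mD^[n] (flip2 v) := by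
  induction n generalizing v with
  | zero => rfl
  | succ n ih => rw [Function.iterate_succ_apply, Function.iterate_succ_apply, ih, flip2_mB]

theorem mD_iter_pos (n : ℕ) : 0 < (mD^[n] (1, 0)).1 ∧ 0 ≤ (mD^[n] (1, 0)).2 := by
  induction n with
  | zero => simp
  | succ n ih =>
    rw [Function.iterate_succ_apply']
    simp only [mD]
    exact ⟨by linarith [ih.1, ih.2], by linarith [ih.1, ih.2]⟩

theorem kappa_mD {u : ℤ × ℤ} (h1 : 0 < u.1) (h2 : 0 ≤ u.2) : kappa (mD u) = 0 := by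
  apply le_antisymm _ (Nat.zero_le _)
  apply csSup_le'
  rintro j ⟨w, hw1, hw2, hw⟩
  rcases j with _ | j
  · exact le_rfl
  exfalso
  obtain ⟨a, b, -⟩ := iter_nonneg hw1 hw2 j
  rw [Function.iterate_succ_apply'] at hw
  set z := mA^[j] w
  rcases hw with hw | hw
  · have h3 : z = mB (mD u) := by rw [← hw, mB_mA]
    rw [h3] at a
    simp only [mB, mD] at a
    linarith
  · have h3 : z = mB (-mD u) := by rw [← hw, mB_mA]
    rw [h3] at b
    simp only [mB, mD, Prod.fst_neg, Prod.snd_neg] at b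
    linarith

@[simp] theorem mulA_fst (v : ℤ × ℤ) : (mulA v).1 = 5 * v.1 + 2 * v.2 := rfl
@[simp] theorem mulA_snd (v : ℤ × ℤ) : (mulA v).2 = 2 * v.1 + v.2 := rfl
@[simp] theorem mulB_fst (v : ℤ × ℤ) : (mulB v).1 = 5 * v.1 - 2 * v.2 := rfl
@[simp] theorem mulB_snd (v : ℤ × ℤ) : (mulB v).2 = -2 * v.1 + v.2 := rfl

theorem kappa1_mulA (n : ℤ) : kappa1 ((mulA ^ n) (1, 0)) = 0 := by
  obtain ⟨m, rfl | rfl⟩ := n.eq_nat_or_neg
  · rw [mulA_pow, kappa1_e1]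
  · rw [mulA_pow_neg]
    rcases m with _ | m
    · exact kappa1_e1 0
    · rw [kappa1, flip2_mB_iter, Function.iterate_succ_apply']
      have h := mD_iter_pos m
      have h0 : flip2 ((1 : ℤ), (0 : ℤ)) = (1, 0) := by simp [flip2]
      rw [h0]
      exact kappa_mD h.1 h.2

end Pool.Agent.ND4
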