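import Mathlib
import Pool.Agent.ND4.Basic
import Pool.Agent.ND4.Kappa
import Pool.Agent.Helper2.Planar.Induce

/-!
# The length function

The facts on slopes which are used (counting, behaviour near the identity) are hypotheses here.
-/

set_option autoImplicit false

open Topology Set Filter

namespace Pool.Agent.ND4

open Pool.Agent.Helper2.Planar

variable {Y : Type*} [TopologicalSpace Y]

/-- The slopes of the two curves seen through `k`. -/
def Sl (R : HoledSphere Y) (k : Y ≃ₜ Y) (v : ℤ × ℤ) : Prop :=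
  Slope R.q (fun t => k (R.curve0 t)) v ∨ Slope R.q (fun t => k (R.curve1 t)) v

open Classical in
/-- The length function. -/
noncomputable def len (R : HoledSphere Y) (H : Subgroup (Y ≃ₜ Y)) (g : Y ≃ₜ Y) : ℝ :=
  if ∀ k ∈ H, ∀ v, (Sl R k v ↔ Sl R (k * g) v) then 0 else
    sSup {r : ℝ | ∃ k ∈ H, ∃ v w, Sl R k v ∧ Sl R (k * g) w ∧
      r = |(kappa v : ℝ) - kappa w| + |(kappa1 v : ℝ) - kappa1 w|}

/-- The distance of two slopes. -/
private noncomputable def lenD (v w : ℤ × ℤ) : ℝ :=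
  |(kappa v : ℝ) - kappa w| + |(kappa1 v : ℝ) - kappa1 w|

/-- The set of distances. -/
private def lenSet (R : HoledSphere Y) (H : Subgroup (Y ≃ₜ Y)) (g : Y ≃ₜ Y) : Set ℝ :=
  {r : ℝ | ∃ k ∈ H, ∃ v w, Sl R k v ∧ Sl R (k * g) w ∧
      r = |(kappa v : ℝ) - kappa w| + |(kappa1 v : ℝ) - kappa1 w|}

/-- `g` does not change the slopes. -/
private def lenT (R : HoledSphere Y) (H : Subgroup (Y ≃ₜ Y)) (g : Y ≃ₜ Y) : Prop :=
  ∀ k ∈ H, ∀ v, (Sl R k v ↔ Sl R (k * g) v)

private lemma lenD_comm (v w : ℤ × ℤ) : lenD v w = lenD w v := by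
  unfold lenD
  rw [abs_sub_comm, abs_sub_comm (kappa1 v : ℝ)]

private lemma lenD_nonneg (v w : ℤ × ℤ) : 0 ≤ lenD v w :=
  add_nonneg (abs_nonneg _) (abs_nonneg _)

private lemma lenD_triangle (u v w : ℤ × ℤ) : lenD u w ≤ lenD u v + lenD v w := by
  unfold lenD
  have h1 := abs_sub_le (kappa u : ℝ) (kappa v) (kappa w)
  have h2 := abs_sub_le (kappa1 u : ℝ) (kappa1 v) (kappa1 w)
  linarith

private lemma lenD_le {v w : ℤ × ℤ} (hv : v ≠ 0) (hw : w ≠ 0) {C : ℕ} (h : |det v w| ≤ C) :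
    lenD v w ≤ 2 * (C + 1) := by
  have h0 : |det2 v w| ≤ C := h
  have h1 := (kappa_near hv hw).trans (add_le_add_left h0 1)
  have h2 := (kappa1_near hv hw).trans (add_le_add_left h0 1)
  have h3 : |(kappa v : ℝ) - kappa w| ≤ C + 1 := by exact_mod_cast h1
  have h4 : |(kappa1 v : ℝ) - kappa1 w| ≤ C + 1 := by exact_mod_cast h2
  unfold lenD
  linarith

section

variable {R : HoledSphere Y} {H : Subgroup (Y ≃ₜ Y)}

private lemma len_of_T {g : Y ≃ₜ Y} (h : lenT R H g) : len R H g = 0 := if_pos h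

private lemma len_of_not {g : Y ≃ₜ Y} (h : ¬ lenT R H g) : len R H g = sSup (lenSet R H g) :=
  if_neg h

private lemma lenSet_nonneg (g : Y ≃ₜ Y) : ∀ r ∈ lenSet R H g, 0 ≤ r := by
  rintro r ⟨k, -, v, w, -, -, rfl⟩
  exact lenD_nonneg v w

private lemma len_nonneg (g : Y ≃ₜ Y) : 0 ≤ len R H g := by
  by_cases h : lenT R H g
  · rw [len_of_T h]
  · rw [len_of_not h]
    exact Real.sSup_nonneg (lenSet_nonneg g)

private lemma Sl_ne {k : Y ≃ₜ Y} {v : ℤ × ℤ} (h : Sl R k v) : v ≠ 0 := by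
  rcases h with h | h
  · exact h.1
  · exact h.1

/-- The counting statement for all pairs of curves gives the boundedness for all `g`. -/
theorem Sl_count (hc : ∀ a b : ℝ → Y, Continuous a → Continuous b → (∀ t, a (t + 1) = a t) →
      (∀ t, b (t + 1) = b t) → ∃ C : ℕ, ∀ (k : Y ≃ₜ Y) (v w : ℤ × ℤ),
        Slope R.q (fun t => k (a t)) v → Slope R.q (fun t => k (b t)) w → |det v w| ≤ C)
    (hc0 : Continuous R.curve0) (hc1 : Continuous R.curve1)
    (hp0 : ∀ t, R.curve0 (t + 1) = R.curve0 t) (hp1 : ∀ t, R.curve1 (t + 1) = R.curve1 t)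
    (g : Y ≃ₜ Y) : ∃ C : ℕ, ∀ (k : Y ≃ₜ Y) (v w : ℤ × ℤ), Sl R k v → Sl R (k * g) w →
      |det v w| ≤ C := by
  obtain ⟨C₁, h₁⟩ := hc R.curve0 (fun t => g (R.curve0 t)) hc0 (g.continuous.comp hc0) hp0
    (fun t => congrArg g (hp0 t))
  obtain ⟨C₂, h₂⟩ := hc R.curve0 (fun t => g (R.curve1 t)) hc0 (g.continuous.comp hc1) hp0
    (fun t => congrArg g (hp1 t))
  obtain ⟨C₃, h₃⟩ := hc R.curve1 (fun t => g (R.curve0 t)) hc1 (g.continuous.comp hc0) hp1
    (fun t => congrArg g (hp0 t))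
  obtain ⟨C₄, h₄⟩ := hc R.curve1 (fun t => g (R.curve1 t)) hc1 (g.continuous.comp hc1) hp1
    (fun t => congrArg g (hp1 t))
  refine ⟨C₁ + C₂ + C₃ + C₄, fun k v w hv hw => ?_⟩
  push_cast
  rcases hv with hv | hv <;> rcases hw with hw | hw
  · have := h₁ k v w hv hw
    linarith [Nat.cast_nonneg (α := ℤ) C₂, Nat.cast_nonneg (α := ℤ) C₃,
      Nat.cast_nonneg (α := ℤ) C₄]
  · have := h₂ k v w hv hw
    linarith [Nat.cast_nonneg (α := ℤ) C₁, Nat.cast_nonneg (α := ℤ) C₃,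
      Nat.cast_nonneg (α := ℤ) C₄]
  · have := h₃ k v w hv hw
    linarith [Nat.cast_nonneg (α := ℤ) C₁, Nat.cast_nonneg (α := ℤ) C₂,
      Nat.cast_nonneg (α := ℤ) C₄]
  · have := h₄ k v w hv hw
    linarith [Nat.cast_nonneg (α := ℤ) C₁, Nat.cast_nonneg (α := ℤ) C₂,
      Nat.cast_nonneg (α := ℤ) C₃]

variable (hb : ∀ g : Y ≃ₜ Y, ∃ C : ℕ, ∀ (k : Y ≃ₜ Y) (v w : ℤ × ℤ), Sl R k v →
  Sl R (k * g) w → |det v w| ≤ C)

include hb

private lemma lenSet_bdd (g : Y ≃ₜ Y) : BddAbove (lenSet R H g) := by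
  obtain ⟨C, hC⟩ := hb g
  refine ⟨2 * (C + 1), ?_⟩
  rintro r ⟨k, -, v, w, hv, hw, rfl⟩
  exact lenD_le (Sl_ne hv) (Sl_ne hw) (hC k v w hv hw)

private lemma lenD_le_len {g : Y ≃ₜ Y} (hg : ¬ lenT R H g) {k : Y ≃ₜ Y} (hk : k ∈ H)
    {v w : ℤ × ℤ} (hv : Sl R k v) (hw : Sl R (k * g) w) : lenD v w ≤ len R H g := by
  rw [len_of_not hg]
  exact le_csSup (lenSet_bdd hb g) ⟨k, hk, v, w, hv, hw, rfl⟩

theorem isLen_of (hN : ∀ k ∈ H, ∃ v, Sl R k v) : IsLen (len R H) H where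
  one := by
    refine len_of_T ?_
    intro k _ v
    rw [mul_one]
  inv := by
    have hT : ∀ g ∈ H, lenT R H g → lenT R H g⁻¹ := by
      intro g hg h k hk v
      have := h (k * g⁻¹) (H.mul_mem hk (H.inv_mem hg)) v
      rw [inv_mul_cancel_right] at this
      exact this.symm
    have hS : ∀ g ∈ H, lenSet R H g⁻¹ ⊆ lenSet R H g := by
      rintro g hg r ⟨k, hk, v, w, hv, hw, rfl⟩
      refine ⟨k * g⁻¹, H.mul_mem hk (H.inv_mem hg), w, v, hw, ?_, lenD_comm v w⟩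
      rwa [inv_mul_cancel_right]
    intro g hg
    by_cases h : lenT R H g
    · rw [len_of_T h, len_of_T (hT g hg h)]
    · have h' : ¬ lenT R H g⁻¹ := by
        intro h'
        have := hT _ (H.inv_mem hg) h'
        rw [inv_inv] at this
        exact h this
      rw [len_of_not h, len_of_not h']
      congr 1
      refine Subset.antisymm (hS g hg) ?_
      have := hS _ (H.inv_mem hg)
      rwa [inv_inv] at this
  mul := by
    intro g hg h hh
    by_cases hgh : lenT R H (g * h)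
    · rw [len_of_T hgh]
      exact add_nonneg (len_nonneg g) (len_nonneg h)
    rw [len_of_not hgh]
    refine Real.sSup_le ?_ (add_nonneg (len_nonneg g) (len_nonneg h))
    rintro r ⟨k, hk, v, w, hv, hw, rfl⟩
    change lenD v w ≤ _
    have hkg : k * g ∈ H := H.mul_mem hk hg
    rw [← mul_assoc] at hw
    by_cases hTg : lenT R H g
    · have hTh : ¬ lenT R H h := by
        intro hTh
        refine hgh fun k' hk' v' => ?_
        rw [hTg k' hk' v', hTh (k' * g) (H.mul_mem hk' hg) v', mul_assoc]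
      have := lenD_le_len hb hTh hkg ((hTg k hk v).mp hv) hw
      rw [len_of_T hTg]
      linarith
    · by_cases hTh : lenT R H h
      · have := lenD_le_len hb hTg hk hv ((hTh (k * g) hkg w).mpr hw)
        rw [len_of_T hTh]
        linarith
      · obtain ⟨u, hu⟩ := hN (k * g) hkg
        have h1 := lenD_le_len hb hTg hk hv hu
        have h2 := lenD_le_len hb hTh hkg hu hw
        have h3 := lenD_triangle v u w
        linarith

theorem le_len_of : ∃ C : ℝ, ∀ g ∈ H, ∀ k ∈ H, ∀ v w, Sl R k v → Sl R (k * g) w →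
      |(kappa v : ℝ) - kappa w| + |(kappa1 v : ℝ) - kappa1 w| ≤ len R H g + C := by
  obtain ⟨C, hC⟩ := hb 1
  refine ⟨2 * (C + 1), fun g _ k hk v w hv hw => ?_⟩
  change lenD v w ≤ _
  by_cases hg : lenT R H g
  · have hw' : Sl R (k * 1) w := by
      rw [mul_one]
      exact (hg k hk w).mpr hw
    have := lenD_le (Sl_ne hv) (Sl_ne hw') (hC k v w hv hw')
    rw [len_of_T hg]
    linarith
  · have := lenD_le_len hb hg hk hv hw
    have h0 : (0 : ℝ) ≤ 2 * (C + 1) := by positivity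
    linarith

end

theorem len_eq_zero {R : HoledSphere Y} {H : Subgroup (Y ≃ₜ Y)} {g : Y ≃ₜ Y}
    (h : ∀ k ∈ H, ∀ v, (Sl R k v ↔ Sl R (k * g) v)) : len R H g = 0 := if_pos h

end Pool.Agent.ND4
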