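import Mathlib
import Pool.Agent.ND4.Len
import Pool.Agent.ND4.Pseudo
import Pool.Agent.ND4.Kappa2
import Pool.Agent.Helper2.Genus.Criterion

/-!
# The final argument, from the facts on slopes
-/

set_option autoImplicit false

open Topology Set Filter

namespace Pool.Agent.ND4

open Pool.Agent.Helper50.Ends Pool.Agent.Helper2.Genus Pool.Agent.Helper2.Planar

variable {Y : Type*} [TopologicalSpace Y]

lemma continuous_pt0 : Continuous pt0 := by
  unfold pt0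
  fun_prop

lemma continuous_pt1 : Continuous pt1 := by
  unfold pt1
  fun_prop

lemma HoledSphere.continuous_curve0 (R : HoledSphere Y) : Continuous R.curve0 :=
  R.isCoveringMap.continuous.comp continuous_pt0

lemma HoledSphere.continuous_curve1 (R : HoledSphere Y) : Continuous R.curve1 :=
  R.isCoveringMap.continuous.comp continuous_pt1

lemma HoledSphere.curve0_add_one (R : HoledSphere Y) (t : ℝ) :
    R.curve0 (t + 1) = R.curve0 t := by
  refine (R.map_rel _ _ ⟨(1, 0), Or.inl ?_⟩).symm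
  ext <;> simp [pt0, lat]
  ring

lemma HoledSphere.curve1_add_one (R : HoledSphere Y) (t : ℝ) :
    R.curve1 (t + 1) = R.curve1 t := by
  refine (R.map_rel _ _ ⟨(0, 1), Or.inl ?_⟩).symm
  ext <;> simp [pt1, lat]
  ring

/-- The final argument: `hcount`, `hnear`, `hhom`, `hA`, `hB` are the facts on slopes. -/
theorem not_two_of (R : HoledSphere Y)
    (hcount : ∀ a b : ℝ → Y, Continuous a → Continuous b → (∀ t, a (t + 1) = a t) →
      (∀ t, b (t + 1) = b t) → ∃ C : ℕ, ∀ (k : Y ≃ₜ Y) (v w : ℤ × ℤ),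
        Slope R.q (fun t => k (a t)) v → Slope R.q (fun t => k (b t)) w → |det v w| ≤ C)
    (hnear : ∀ᶠ g : Y ≃ₜ Y in 𝓝 1, ∀ (k : Y ≃ₜ Y) (v : ℤ × ℤ),
      (Slope R.q (fun t => k (g (R.curve0 t))) v ↔ Slope R.q (fun t => k (R.curve0 t)) v) ∧
      (Slope R.q (fun t => k (g (R.curve1 t))) v ↔ Slope R.q (fun t => k (R.curve1 t)) v))
    (hhom : ∀ (F : unitInterval × ℝ → Y), Continuous F → (∀ s t, F (s, t + 1) = F (s, t)) →
      ∀ v : ℤ × ℤ, Slope R.q (fun t => F (0, t)) v ↔ Slope R.q (fun t => F (1, t)) v)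
    (hA : ∃ f : Y ≃ₜ Y, ∀ n : ℤ, Slope R.q (fun t => (f ^ n) (R.curve0 t)) ((mulA ^ n) (1, 0)))
    (hB : ∃ f : Y ≃ₜ Y, ∀ n : ℤ, Slope R.q (fun t => (f ^ n) (R.curve0 t)) ((mulB ^ n) (1, 0)))
    (H : Subgroup (Y ≃ₜ Y)) (hH : H.FiniteIndex)
    (hN : ∀ k ∈ H, Essential R.q (fun t => k (R.curve0 t)) ∨
      Essential R.q (fun t => k (R.curve1 t)))
    (S : Set (MCG H)) (hS : CoarselyBounded S) (hgen : Subgroup.closure S = ⊤) :
    numEnds (cayley S) ≠ 2 := by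
  obtain ⟨f₀, hf₀⟩ := hA
  obtain ⟨g₀, hg₀⟩ := hB
  have hb := Sl_count (R := R) hcount R.continuous_curve0 R.continuous_curve1
    R.curve0_add_one R.curve1_add_one
  have hN' : ∀ k ∈ H, ∃ v, Sl R k v := by
    intro k hk
    rcases hN k hk with ⟨v, hv⟩ | ⟨v, hv⟩
    · exact ⟨v, Or.inl hv⟩
    · exact ⟨v, Or.inr hv⟩
  have hlen : IsLen (len R H) H := isLen_of hb hN'
  obtain ⟨C, hC⟩ := le_len_of (H := H) hb
  have hnear0 : ∀ᶠ g : Y ≃ₜ Y in 𝓝 1, len R H g = 0 := by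
    filter_upwards [hnear] with g hg
    refine len_eq_zero fun k _ v => ?_
    exact or_congr (hg k v).1.symm (hg k v).2.symm
  have hiso : ∀ u ∈ isotopySubgroup Y, len R H u = 0 := by
    rintro u ⟨F, hF, hF0, hF1⟩
    refine len_eq_zero fun k _ v => ?_
    have key : ∀ c : ℝ → Y, Continuous c → (∀ t, c (t + 1) = c t) →
        (Slope R.q (fun t => k (c t)) v ↔ Slope R.q (fun t => k (u (c t))) v) := by
      intro c hc hp
      have h := hhom (fun p => k (F p.1 (c p.2)))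
        (k.continuous.comp (hF.comp (continuous_fst.prodMk (hc.comp continuous_snd))))
        (fun s t => by simp only [hp]) v
      simpa only [hF0, hF1, Homeomorph.one_apply] using h
    exact or_congr (key _ R.continuous_curve0 R.curve0_add_one)
      (key _ R.continuous_curve1 R.curve1_add_one)
  obtain ⟨d, hd⟩ := exists_pseudometric_sub H hlen hnear0 hiso
  obtain ⟨m, hm0, -, hm⟩ := Subgroup.exists_pow_mem_of_index_ne_zero hH.index_ne_zero f₀
  obtain ⟨l, hl0, -, hl⟩ := Subgroup.exists_pow_mem_of_index_ne_zero hH.index_ne_zero g₀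
  have hm1 : (1 : ℝ) ≤ m := by exact_mod_cast Nat.one_le_iff_ne_zero.mpr (by omega)
  have hl1 : (1 : ℝ) ≤ l := by exact_mod_cast Nat.one_le_iff_ne_zero.mpr (by omega)
  have hfm : ∀ n : ℤ, f₀ ^ ((m : ℤ) * n) ∈ H := by
    intro n
    rw [zpow_mul, zpow_natCast]
    exact H.zpow_mem hm n
  have hgl : ∀ n : ℤ, g₀ ^ ((l : ℤ) * n) ∈ H := by
    intro n
    rw [zpow_mul, zpow_natCast]
    exact H.zpow_mem hl n
  -- the powers of `f₀`
  have hLf' : ∀ n : ℕ, ((m * n : ℕ) : ℝ) ≤ len R H (f₀ ^ ((m : ℤ) * n)) + C := by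
    intro n
    have h0 := hf₀ 0
    have h1 := hf₀ ((m : ℤ) * n)
    have h2 : Sl R 1 (1, 0) := by
      refine Or.inl ?_
      simpa using h0
    have h3 : Sl R (1 * f₀ ^ ((m : ℤ) * n)) ((mulA ^ ((m : ℤ) * n)) (1, 0)) := by
      rw [one_mul]
      exact Or.inl h1
    have h4 := hC _ (hfm n) 1 H.one_mem _ _ h2 h3
    have h5 : kappa ((mulA ^ ((m : ℤ) * n)) (1, 0)) = m * n := by
      have := kappa_mulA (m * n)
      push_cast at this
      exact this
    have h6 : kappa (1, 0) = 0 := by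
      have := kappa_mulA 0
      simpa using this
    rw [h5, h6] at h4
    have h7 : ((m * n : ℕ) : ℝ) ≤ |((0 : ℕ) : ℝ) - ((m * n : ℕ) : ℝ)| := by
      rw [Nat.cast_zero, zero_sub, abs_neg]
      exact le_abs_self _
    have h8 := abs_nonneg ((kappa1 (1, 0) : ℝ) - kappa1 ((mulA ^ ((m : ℤ) * n)) (1, 0)))
    linarith
  have hLf : ∀ n : ℤ, |(n : ℝ)| ≤ len R H (f₀ ^ ((m : ℤ) * n)) + C := by
    intro n
    have key : ∀ n : ℕ, (n : ℝ) ≤ len R H (f₀ ^ ((m : ℤ) * n)) + C := by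
      intro n
      refine le_trans ?_ (hLf' n)
      push_cast
      nlinarith [Nat.cast_nonneg (α := ℝ) n]
    obtain ⟨n, rfl | rfl⟩ := n.eq_nat_or_neg
    · have := key n
      simpa using this
    · have h1 := key n
      have h2 := hlen.inv _ (hfm n)
      rw [← zpow_neg, ← mul_neg] at h2
      rw [h2]
      simpa using h1
  have hLg : ∀ (n : ℤ) (k : ℕ), (k : ℝ) ≤
      len R H (f₀ ^ (-((m : ℤ) * n)) * g₀ ^ ((l : ℤ) * k)) + C := by
    intro n k
    have hmem : f₀ ^ (-((m : ℤ) * n)) * g₀ ^ ((l : ℤ) * k) ∈ H := by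
      refine H.mul_mem ?_ (hgl k)
      rw [zpow_neg]
      exact H.inv_mem (hfm n)
    have h1 : Sl R (f₀ ^ ((m : ℤ) * n)) ((mulA ^ ((m : ℤ) * n)) (1, 0)) := Or.inl (hf₀ _)
    have h2 : Sl R (f₀ ^ ((m : ℤ) * n) * (f₀ ^ (-((m : ℤ) * n)) * g₀ ^ ((l : ℤ) * k)))
        ((mulB ^ ((l : ℤ) * k)) (1, 0)) := by
      rw [zpow_neg, mul_inv_cancel_left]
      exact Or.inl (hg₀ _)
    have h3 := hC _ hmem _ (hfm n) _ _ h1 h2
    have h4 : kappa1 ((mulB ^ ((l : ℤ) * k)) (1, 0)) = l * k := by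
      have := kappa1_mulB (l * k)
      push_cast at this
      exact this
    rw [kappa1_mulA, h4] at h3
    have h5 : ((l * k : ℕ) : ℝ) ≤ |((0 : ℕ) : ℝ) - ((l * k : ℕ) : ℝ)| := by
      rw [Nat.cast_zero, zero_sub, abs_neg]
      exact le_abs_self _
    have h6 : (k : ℝ) ≤ ((l * k : ℕ) : ℝ) := by
      push_cast
      nlinarith [Nat.cast_nonneg (α := ℝ) k]
    have h7 := abs_nonneg ((kappa ((mulA ^ ((m : ℤ) * n)) (1, 0)) : ℝ) -
      kappa ((mulB ^ ((l : ℤ) * k)) (1, 0)))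
    linarith
  refine not_two_of_far S hS hgen d ((⟨f₀ ^ m, hm⟩ : H) : MCG H) ?_ ?_
  · intro R'
    set N : ℕ := ⌈R' + C⌉₊ with hN
    refine (Set.finite_Icc (-(N : ℤ)) N).subset ?_
    intro n hn
    have hn' : d.d 1 (((⟨f₀ ^ m, hm⟩ : H) : MCG H) ^ n) ≤ R' := hn
    rw [← QuotientGroup.mk_zpow, ← QuotientGroup.mk_one, hd] at hn'
    have e1 : (((1 : H) : Y ≃ₜ Y))⁻¹ * (((⟨f₀ ^ m, hm⟩ : H) ^ n : H) : Y ≃ₜ Y) =
        f₀ ^ ((m : ℤ) * n) := by
      rw [Subgroup.coe_one, inv_one, one_mul, Subgroup.coe_zpow, zpow_mul, zpow_natCast]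
    rw [e1] at hn'
    have e3 := hLf n
    have e8 : |(n : ℝ)| ≤ N := (by linarith : |(n : ℝ)| ≤ R' + C).trans (Nat.le_ceil _)
    have e9 := abs_le.mp e8
    constructor
    · have := e9.1
      exact_mod_cast this
    · have := e9.2
      exact_mod_cast this
  · intro R'
    set k : ℕ := ⌈R' + C⌉₊ + 1 with hk
    refine ⟨(((⟨g₀ ^ l, hl⟩ : H) ^ (k : ℤ) : H) : MCG H), fun n => ?_⟩
    rw [← QuotientGroup.mk_zpow, hd]
    have e1 : ((((⟨f₀ ^ m, hm⟩ : H) ^ n : H) : Y ≃ₜ Y))⁻¹ *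
        (((⟨g₀ ^ l, hl⟩ : H) ^ (k : ℤ) : H) : Y ≃ₜ Y) =
        f₀ ^ (-((m : ℤ) * n)) * g₀ ^ ((l : ℤ) * k) := by
      rw [Subgroup.coe_zpow, Subgroup.coe_zpow, zpow_neg, zpow_mul, zpow_mul, zpow_natCast f₀,
        zpow_natCast g₀]
    rw [e1]
    have e3 := hLg n k
    have e5 : R' + C < k := by
      have := Nat.le_ceil (R' + C)
      rw [hk]
      push_cast
      linarith
    linarith

end Pool.Agent.ND4
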