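import Mathlib
import Pool.Agent.ND4.Basic
import Pool.Agent.ND4.Fin

/-!
# Homotopy invariance of the slopes
-/

set_option autoImplicit false

open Topology Set Filter

namespace Pool.Agent.ND4

variable {Y : Type*} [TopologicalSpace Y]

/-- A small circle around a lattice point is compact. -/
lemma isCompact_circle (x : ℤ × ℤ) {r : ℝ} (hr : 0 < r) (hr1 : r < 1) :
    IsCompact {z : PPlane | ‖(z : ℝ × ℝ) - lat x‖ = r} := by
  rw [Topology.IsEmbedding.subtypeVal.isCompact_iff]
  have h : Subtype.val '' {z : PPlane | ‖(z : ℝ × ℝ) - lat x‖ = r} =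
      Metric.sphere (lat x) r := by
    ext z
    simp only [mem_image, mem_ofPred_eq, mem_sphere_iff_norm]
    constructor
    · rintro ⟨z, hz, rfl⟩
      exact hz
    · intro hz
      refine ⟨⟨z, fun u hu => ?_⟩, hz, rfl⟩
      subst hu
      by_cases hux : u = x
      · subst hux
        simp at hz
        linarith
      · have := one_le_norm_lat_sub hux
        linarith
  rw [h]
  exact isCompact_sphere _ _

/-- The limit of a lift at infinity does not change along a homotopy. -/
lemma tendsto_homotopy [T2Space Y] (R : HoledSphere Y) {G : unitInterval × ℝ → PPlane}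
    (hG : Continuous G) (hper : ∀ s t, R.q (G (s, t + 1)) = R.q (G (s, t))) {x : ℤ × ℤ}
    (h0 : Tendsto (fun t => (G (0, t) : ℝ × ℝ)) atTop (𝓝 (lat x))) (s : unitInterval) :
    Tendsto (fun t => (G (s, t) : ℝ × ℝ)) atTop (𝓝 (lat x)) := by
  have hpern : ∀ (n : ℕ) s t, R.q (G (s, t + n)) = R.q (G (s, t)) := by
    intro n
    induction n with
    | zero => intro s t; simp
    | succ n ih =>
      intro s t
      have : t + ((n + 1 : ℕ) : ℝ) = (t + n) + 1 := by push_cast; ring
      rw [this, hper, ih]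
  rw [Metric.tendsto_atTop]
  intro ε hε
  set r : ℝ := min ε (1 / 2) with hr
  have hr0 : 0 < r := lt_min hε (by norm_num)
  have hr1 : r < 1 := (min_le_right _ _).trans_lt (by norm_num)
  have hrε : r ≤ ε := min_le_left _ _
  let T : ℕ → unitInterval × unitInterval → PPlane := fun n p => G (p.1, (p.2 : ℝ) + n)
  have hT : ∀ n, Continuous (T n) := fun n => by
    refine hG.comp ?_
    fun_prop
  have hI : LocallyPathConnectedSpace unitInterval :=
    (convex_Icc (0 : ℝ) 1).locallyPathConnectedSpace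
  have hfin := finite_lifts R.isCoveringMap (X := unitInterval × unitInterval)
    (h := fun p => R.q (G (p.1, (p.2 : ℝ)))) (by
      refine R.continuous_q.comp (hG.comp ?_)
      fun_prop) (isCompact_circle x hr0 hr1)
  have hfib : ∀ F : unitInterval × unitInterval → PPlane, {n : ℕ | T n = F}.Finite := by
    intro F
    have h1 : Tendsto (fun n : ℕ => (G (0, (n : ℝ)) : ℝ × ℝ)) atTop (𝓝 (lat x)) :=
      h0.comp tendsto_natCast_atTop_atTop
    have h2 := h1.eventually_ne (show lat x ≠ (F (0, 0) : ℝ × ℝ) from fun h => (F (0, 0)).2 x h.symm)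
    rw [← Nat.cofinite_eq_atTop, Filter.eventually_cofinite] at h2
    refine h2.subset ?_
    intro n hn
    simp only [mem_ofPred_eq, not_not] at hn ⊢
    rw [← hn]
    simp [T]
  have hmeet : {n : ℕ | ∃ p, T n p ∈ {z : PPlane | ‖(z : ℝ × ℝ) - lat x‖ = r}}.Finite := by
    refine (hfin.biUnion (t := fun F => {n : ℕ | T n = F}) fun F _ => hfib F).subset ?_
    rintro n ⟨p, hp⟩
    refine mem_biUnion (x := T n) ⟨hT n, ?_, p, hp⟩ rfl
    funext p
    exact hpern n p.1 p.2
  have hev1 : ∀ᶠ n : ℕ in atTop, ∀ p, ‖(T n p : ℝ × ℝ) - lat x‖ ≠ r := by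
    rw [← Nat.cofinite_eq_atTop, Filter.eventually_cofinite]
    refine hmeet.subset ?_
    intro n hn
    simp only [mem_ofPred_eq, not_forall, not_not] at hn
    exact hn
  have hev2 : ∀ᶠ n : ℕ in atTop, ‖(G (0, (n : ℝ)) : ℝ × ℝ) - lat x‖ < r := by
    have h1 : Tendsto (fun n : ℕ => (G (0, (n : ℝ)) : ℝ × ℝ)) atTop (𝓝 (lat x)) :=
      h0.comp tendsto_natCast_atTop_atTop
    have h2 := Metric.tendsto_nhds.mp h1 r hr0
    filter_upwards [h2] with n hn
    rwa [dist_eq_norm] at hn
  obtain ⟨N, hN⟩ := Filter.eventually_atTop.mp (hev1.and hev2)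
  refine ⟨N, fun t ht => ?_⟩
  have ht0 : 0 ≤ t := le_trans (Nat.cast_nonneg N) ht
  have hNt : N ≤ ⌊t⌋₊ := Nat.le_floor ht
  obtain ⟨ha, hb⟩ := hN ⌊t⌋₊ hNt
  have hθ : t - ⌊t⌋₊ ∈ Icc (0 : ℝ) 1 :=
    ⟨sub_nonneg.mpr (Nat.floor_le ht0), by linarith [Nat.lt_floor_add_one t]⟩
  have hval : (G (s, t) : PPlane) = T ⌊t⌋₊ (s, ⟨t - ⌊t⌋₊, hθ⟩) := by
    simp [T]
  rw [hval, dist_eq_norm]
  refine lt_of_lt_of_le ?_ hrε
  by_contra hcon
  rw [not_lt] at hcon
  have hcont : Continuous fun p => ‖(T ⌊t⌋₊ p : ℝ × ℝ) - lat x‖ :=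
    ((continuous_subtype_val.comp (hT _)).sub continuous_const).norm
  obtain ⟨p, hp⟩ := mem_range_of_exists_le_of_exists_ge hcont (c := r)
    ⟨(0, 0), by
      have : T ⌊t⌋₊ (0, 0) = G (0, (⌊t⌋₊ : ℝ)) := by simp [T]
      rw [this]
      exact hb.le⟩ ⟨_, hcon⟩
  exact ha p hp

/-- The limit of a lift at minus infinity does not change along a homotopy. -/
lemma tendsto_homotopy_atBot [T2Space Y] (R : HoledSphere Y) {G : unitInterval × ℝ → PPlane}
    (hG : Continuous G) (hper : ∀ s t, R.q (G (s, t + 1)) = R.q (G (s, t))) {x : ℤ × ℤ}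
    (h0 : Tendsto (fun t => (G (0, t) : ℝ × ℝ)) atBot (𝓝 (lat x))) (s : unitInterval) :
    Tendsto (fun t => (G (s, t) : ℝ × ℝ)) atBot (𝓝 (lat x)) := by
  have h1 := tendsto_homotopy R (G := fun p => G (p.1, -p.2)) (hG.comp (by fun_prop))
    (fun s t => by
      have h := hper s (-(t + 1))
      have h' : -(t + 1) + 1 = -t := by ring
      rw [h'] at h
      exact h.symm) (x := x) (h0.comp tendsto_neg_atTop_atBot) s
  have h2 := h1.comp tendsto_neg_atBot_atTop
  simpa [Function.comp_def] using h2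

/-- One direction of the homotopy invariance. -/
lemma slope_of_homotopy [T2Space Y] (R : HoledSphere Y) {F : unitInterval × ℝ → Y}
    (hF : Continuous F) (hper : ∀ s t, F (s, t + 1) = F (s, t)) {v : ℤ × ℤ}
    (h : Slope R.q (fun t => F (0, t)) v) (s : unitInterval) :
    Slope R.q (fun t => F (s, t)) v := by
  obtain ⟨hv, l, hl, hq, hk⟩ := h
  let H : C(unitInterval × ℝ, Y) := ⟨F, hF⟩
  let f : C(ℝ, PPlane) := ⟨l, hl⟩
  have H0 : ∀ a, H (0, a) = R.q (f a) := fun a => (hq a).symm
  set G := R.isCoveringMap.liftHomotopy H f H0 with hGdef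
  have hGq : ∀ p, R.q (G p) = F p := fun p =>
    congrFun (R.isCoveringMap.liftHomotopy_lifts H f H0) p
  have hG0 : ∀ t, G (0, t) = l t := fun t => R.isCoveringMap.liftHomotopy_zero H f H0 t
  have hGc : Continuous G := G.continuous
  have hGper : ∀ s t, R.q (G (s, t + 1)) = R.q (G (s, t)) := fun s t => by
    rw [hGq, hGq, hper]
  refine ⟨hv, fun t => G (s, t), hGc.comp (by fun_prop), fun t => hGq _, ?_⟩
  rcases hk with ⟨x, hbot, htop⟩ | hk
  · left
    refine ⟨x, ?_, ?_⟩
    · refine tendsto_homotopy_atBot R hGc hGper ?_ s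
      simpa only [hG0] using hbot
    · refine tendsto_homotopy R hGc hGper ?_ s
      simpa only [hG0] using htop
  · right
    have h1 : (fun p : unitInterval × ℝ => G (p.1, p.2 + 1)) =
        fun p : unitInterval × ℝ => gactE 1 v (G p) := by
      refine R.lift_unique (A := unitInterval × ℝ) (hGc.comp (by fun_prop))
        ((continuous_gactE 1 v).comp hGc) ?_ (a := (0, 0)) ?_
      · rintro ⟨s, t⟩
        rw [R.q_gactE]
        exact hGper s t
      · show G (0, 0 + 1) = gactE 1 v (G (0, 0))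
        rw [hG0, hG0]
        refine Subtype.ext ?_
        rw [coe_gactE, gact_one]
        exact hk 0
    intro t
    have h2 : G (s, t + 1) = gactE 1 v (G (s, t)) := congrFun h1 (s, t)
    show (G (s, t + 1) : ℝ × ℝ) = G (s, t) + (2 : ℝ) • lat v
    rw [h2, coe_gactE, gact_one]

/-- **Homotopy invariance of the slopes.** -/
theorem slope_homotopy [T2Space Y] (R : HoledSphere Y) {F : unitInterval × ℝ → Y}
    (hF : Continuous F) (hper : ∀ s t, F (s, t + 1) = F (s, t)) (v : ℤ × ℤ) :
    Slope R.q (fun t => F (0, t)) v ↔ Slope R.q (fun t => F (1, t)) v := by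
  refine ⟨fun h => slope_of_homotopy R hF hper h 1, fun h => ?_⟩
  have h1 := slope_of_homotopy R (F := fun p => F (unitInterval.symm p.1, p.2))
    (hF.comp (by fun_prop)) (fun s t => hper _ _) (v := v) (by simpa using h) 1
  simpa using h1

end Pool.Agent.ND4
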