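import Mathlib
import Pool.Agent.ND4.Basic
import Pool.Agent.ND4.Hom
import Pool.Agent.Helper2.Genus.Defs

/-!
# Homeomorphisms near the identity do not change the slopes of the two curves

If `g` is close to the identity in the compact-open topology, then `g ∘ curve0` has a lift `w`
which stays close to the horizontal line `pt0`, and the straight line homotopy from `pt0` to `w`
stays in the plane minus the lattice points.
-/

set_option autoImplicit false

open Topology Set Filter

namespace Pool.Agent.ND4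

open Pool.Agent.Helper2.Genus

variable {Y : Type*} [TopologicalSpace Y]

/-! ### Evaluation along a compact family of points -/

lemma continuous_eval_comp {X : Type*} [TopologicalSpace X] [LocallyCompactSpace X] {a : X → Y}
    (ha : Continuous a) : Continuous fun p : (Y ≃ₜ Y) × X => p.1 (a p.2) := by
  have h1 : Continuous fun g : Y ≃ₜ Y => (⟨g, g.continuous⟩ : C(Y, Y)) := continuous_induced_dom
  have h2 : Continuous fun g : Y ≃ₜ Y => (⟨g, g.continuous⟩ : C(Y, Y)).comp ⟨a, ha⟩ :=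
    (ContinuousMap.continuous_precomp (⟨a, ha⟩ : C(X, Y))).comp h1
  have h3 : Continuous fun p : (Y ≃ₜ Y) × X =>
      ((⟨p.1, p.1.continuous⟩ : C(Y, Y)).comp ⟨a, ha⟩) p.2 :=
    (h2.comp continuous_fst).eval continuous_snd
  exact h3

lemma eventually_ne [T2Space Y] {X : Type*} [TopologicalSpace X] [LocallyCompactSpace X]
    [CompactSpace X] {a b : X → Y} (ha : Continuous a) (hb : Continuous b) (h : ∀ x, a x ≠ b x) :
    ∀ᶠ g : Y ≃ₜ Y in 𝓝 1, ∀ x, g (a x) ≠ b x := by
  have h1 : ∀ᶠ g : Y ≃ₜ Y in 𝓝 1, ∀ x ∈ (univ : Set X), g (a x) ≠ b x := by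
    refine isCompact_univ.eventually_forall_of_forall_eventually fun x _ => ?_
    exact (isOpen_ne_fun (continuous_eval_comp ha) (hb.comp continuous_snd)).mem_nhds (h x)
  exact h1.mono fun g hg x => hg x (mem_univ x)

/-! ### Small balls -/

lemma exists_injOn_ball (R : HoledSphere Y) {K : Set PPlane} (hK : IsCompact K) :
    ∃ δ > 0, ∀ z ∈ K, InjOn R.q (Metric.ball z δ) := by
  choose e he hqe using R.isCoveringMap.isLocalHomeomorph
  obtain ⟨δ, hδ, h⟩ := lebesgue_number_lemma_of_metric hK (c := fun z : PPlane => (e z).source)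
    (fun z => (e z).open_source) (fun z _ => mem_iUnion.2 ⟨z, he z⟩)
  refine ⟨δ, hδ, fun z hz => ?_⟩
  obtain ⟨i, hi⟩ := h z hz
  refine InjOn.mono hi ?_
  rw [hqe i]
  exact (e i).injOn

lemma dist_PPlane (z w : PPlane) : dist z w = ‖(z : ℝ × ℝ) - w‖ := by
  rw [Subtype.dist_eq, dist_eq_norm]

/-- A path `w` which starts near the path `p` and never lies on the sphere around `p`. -/
lemma dist_lt_of_forall_ne {p w : ℝ → PPlane} (hp : Continuous p) (hw : Continuous w) {r : ℝ}
    (h0 : dist (w 0) (p 0) < r) (h : ∀ t ∈ Icc (0 : ℝ) 1, dist (w t) (p t) ≠ r) :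
    ∀ t ∈ Icc (0 : ℝ) 1, dist (w t) (p t) < r := by
  intro t ht
  by_contra hc
  push Not at hc
  have hcont : ContinuousOn (fun t => dist (w t) (p t)) (Icc 0 t) := (hw.dist hp).continuousOn
  obtain ⟨s, hs, hs2⟩ := intermediate_value_Icc ht.1 hcont ⟨h0.le, hc⟩
  exact h s ⟨hs.1, hs.2.trans ht.2⟩ hs2

theorem near_curve [T2Space Y] (R : HoledSphere Y) {p : ℝ → PPlane} (hp : Continuous p)
    {u : ℤ × ℤ} (hpu : ∀ t, (p (t + 1) : ℝ × ℝ) = p t + (2 : ℝ) • lat u)
    (hd : ∀ t x, 1 / 2 ≤ ‖(p t : ℝ × ℝ) - lat x‖) :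
    ∀ᶠ g : Y ≃ₜ Y in 𝓝 1, ∀ (k : Y ≃ₜ Y) (v : ℤ × ℤ),
      (Slope R.q (fun t => k (g (R.q (p t)))) v ↔ Slope R.q (fun t => k (R.q (p t))) v) := by
  obtain ⟨δ, hδ, hinj⟩ := exists_injOn_ball R (isCompact_Icc (a := (0 : ℝ)) (b := 1) |>.image hp)
  have hinj' : ∀ t ∈ Icc (0 : ℝ) 1, InjOn R.q (Metric.ball (p t) δ) := fun t ht =>
    hinj _ (mem_image_of_mem p ht)
  set r : ℝ := min (δ / 2) (1 / 4) with hr
  have hr0 : 0 < r := lt_min (by linarith) (by norm_num)
  have hrδ : r < δ := (min_le_left _ _).trans_lt (by linarith)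
  have hr4 : r ≤ 1 / 4 := min_le_right _ _
  -- points near the path avoid the lattice
  have hoff : ∀ (t : ℝ) (e : ℝ × ℝ), ‖e‖ ≤ r → ∀ x : ℤ × ℤ, (p t : ℝ × ℝ) + e ≠ lat x := by
    intro t e he x hx
    have h1 := hd t x
    have h2 : (p t : ℝ × ℝ) - lat x = -e := by rw [← hx]; abel
    rw [h2, norm_neg] at h1
    linarith
  have hpq : ∀ t, R.q (p (t + 1)) = R.q (p t) := fun t =>
    (R.map_rel _ _ ⟨u, Or.inl (hpu t)⟩).symm
  -- the compact family
  let X : Set (ℝ × (ℝ × ℝ)) := Icc (0 : ℝ) 1 ×ˢ Metric.sphere (0 : ℝ × ℝ) r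
  have hX : IsCompact X := isCompact_Icc.prod (isCompact_sphere _ _)
  have hXc : CompactSpace X := isCompact_iff_compactSpace.1 hX
  let a : X → Y := fun x => R.q (p x.1.1)
  have hnorm : ∀ x : X, ‖x.1.2‖ = r := fun x => by
    have := x.2.2
    simpa using this
  let b : X → Y := fun x => R.q ⟨(p x.1.1 : ℝ × ℝ) + x.1.2, hoff _ _ (hnorm x).le⟩
  have ha : Continuous a := R.continuous_q.comp (hp.comp (continuous_fst.comp
    continuous_subtype_val))
  have hb : Continuous b := by
    refine R.continuous_q.comp (Continuous.subtype_mk ?_ _)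
    exact (continuous_subtype_val.comp (hp.comp (continuous_fst.comp
      continuous_subtype_val))).add (continuous_snd.comp continuous_subtype_val)
  have hab : ∀ x, a x ≠ b x := by
    intro x hx
    have h1 := hinj' x.1.1 x.2.1 (Metric.mem_ball_self hδ) (by
      rw [Metric.mem_ball, dist_PPlane]
      show ‖(p x.1.1 : ℝ × ℝ) + x.1.2 - p x.1.1‖ < δ
      rw [add_sub_cancel_left, hnorm]
      exact hrδ) hx
    have h2 : (p x.1.1 : ℝ × ℝ) = p x.1.1 + x.1.2 := congrArg Subtype.val h1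
    have h3 : x.1.2 = 0 := by simpa using h2.symm
    have h4 := hnorm x
    rw [h3, norm_zero] at h4
    exact hr0.ne h4
  have hev0 : ∀ᶠ g : Y ≃ₜ Y in 𝓝 1, g (R.q (p 0)) ∈ R.q '' Metric.ball (p 0) r := by
    have h1 : Continuous fun g : Y ≃ₜ Y => g (R.q (p 0)) := by
      have := continuous_eval_comp (X := Unit) (a := fun _ => R.q (p 0)) continuous_const
      exact this.comp (continuous_id.prodMk (continuous_const (y := ())))
    refine (((R.isCoveringMap.isLocalHomeomorph.isOpenMap _ Metric.isOpen_ball).preimage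
      h1).mem_nhds ?_)
    exact ⟨p 0, Metric.mem_ball_self hr0, rfl⟩
  filter_upwards [eventually_ne ha hb hab, hev0] with g hg1 hg0 k v
  obtain ⟨w₀, hw₀, hw₀g⟩ := hg0
  obtain ⟨w, hw, hwq, hw0⟩ := R.exists_lift_real (c := fun t => g (R.q (p t)))
    (g.continuous.comp (R.continuous_q.comp hp)) (t₀ := 0) hw₀g
  have hclose : ∀ t ∈ Icc (0 : ℝ) 1, dist (w t) (p t) < r := by
    refine dist_lt_of_forall_ne hp hw (by rw [hw0]; exact hw₀) fun t ht hc => ?_
    rw [dist_PPlane] at hc
    refine hg1 ⟨(t, (w t : ℝ × ℝ) - p t), ht, by simpa using hc⟩ ?_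
    show g (R.q (p t)) = R.q ⟨(p t : ℝ × ℝ) + ((w t : ℝ × ℝ) - p t), _⟩
    rw [← hwq t]
    congr 1
    exact Subtype.ext (by simp)
  have hwu : ∀ t, w (t + 1) = gactE 1 u (w t) := by
    have h1 : (fun t => w (t + 1)) = fun t => gactE 1 u (w t) := by
      refine R.lift_unique (hw.comp (continuous_add_const 1))
        ((continuous_gactE 1 u).comp hw) (a := 0) (fun t => ?_) ?_
      · rw [hwq, R.q_gactE, hwq, hpq]
      · have hw1 := hclose 1 ⟨zero_le_one, le_rfl⟩
        have hw2 := hclose 0 ⟨le_rfl, zero_le_one⟩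
        rw [zero_add]
        refine hinj' 1 ⟨zero_le_one, le_rfl⟩ (hw1.trans hrδ) ?_ ?_
        · rw [Metric.mem_ball, dist_PPlane, coe_gactE, gact_one]
          have h2 := hpu 0
          rw [zero_add] at h2
          rw [h2, add_sub_add_right_eq_sub, ← dist_PPlane]
          exact hw2.trans hrδ
        · rw [hwq, R.q_gactE, hwq]
          have h2 := hpq 0
          rw [zero_add] at h2
          rw [h2]
    exact fun t => congrFun h1 t
  have hwu' : ∀ t, (w (t + 1) : ℝ × ℝ) = w t + (2 : ℝ) • lat u := fun t => by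
    rw [hwu, coe_gactE, gact_one]
  have hclose' : ∀ t, ‖(w t : ℝ × ℝ) - p t‖ < r := by
    intro t
    have hper : Function.Periodic (fun t => ‖(w t : ℝ × ℝ) - p t‖) 1 := by
      intro t
      show ‖(w (t + 1) : ℝ × ℝ) - p (t + 1)‖ = ‖(w t : ℝ × ℝ) - p t‖
      rw [hwu', hpu, add_sub_add_right_eq_sub]
    obtain ⟨s, hs, hst⟩ := hper.exists_mem_Ico₀ one_pos t
    have h1 := hclose s ⟨hs.1, hs.2.le⟩
    rw [dist_PPlane] at h1
    exact hst.trans_lt h1
  -- the straight line homotopy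
  have hline : ∀ (s : unitInterval) (t : ℝ) (x : ℤ × ℤ),
      (p t : ℝ × ℝ) + (s : ℝ) • ((w t : ℝ × ℝ) - p t) ≠ lat x := by
    intro s t x
    refine hoff t _ ?_ x
    rw [norm_smul, Real.norm_eq_abs, abs_of_nonneg s.2.1]
    calc (s : ℝ) * ‖(w t : ℝ × ℝ) - p t‖ ≤ 1 * ‖(w t : ℝ × ℝ) - p t‖ :=
          mul_le_mul_of_nonneg_right s.2.2 (norm_nonneg _)
      _ ≤ r := by rw [one_mul]; exact (hclose' t).le
  let F : unitInterval × ℝ → Y := fun x => k (R.q ⟨_, hline x.1 x.2⟩)
  have hF : Continuous F := by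
    refine k.continuous.comp (R.continuous_q.comp (Continuous.subtype_mk ?_ _))
    have h1 : Continuous fun x : unitInterval × ℝ => (p x.2 : ℝ × ℝ) :=
      continuous_subtype_val.comp (hp.comp continuous_snd)
    have h2 : Continuous fun x : unitInterval × ℝ => (w x.2 : ℝ × ℝ) :=
      continuous_subtype_val.comp (hw.comp continuous_snd)
    exact h1.add ((continuous_subtype_val.comp continuous_fst).smul (h2.sub h1))
  have hper : ∀ s t, F (s, t + 1) = F (s, t) := by
    intro s t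
    show k (R.q _) = k (R.q _)
    congr 1
    refine (R.map_rel _ _ ⟨u, Or.inl ?_⟩).symm
    show (p (t + 1) : ℝ × ℝ) + (s : ℝ) • ((w (t + 1) : ℝ × ℝ) - p (t + 1)) =
      (p t : ℝ × ℝ) + (s : ℝ) • ((w t : ℝ × ℝ) - p t) + (2 : ℝ) • lat u
    rw [hwu', hpu, add_sub_add_right_eq_sub]
    abel
  have hslope := slope_homotopy R hF hper v
  have e0 : (fun t => F (0, t)) = fun t => k (R.q (p t)) := by
    funext t
    show k (R.q _) = k (R.q _)
    congr 2
    exact Subtype.ext (by simp)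
  have e1 : (fun t => F (1, t)) = fun t => k (g (R.q (p t))) := by
    funext t
    show k (R.q _) = k (g (R.q (p t)))
    rw [← hwq t]
    congr 2
    exact Subtype.ext (by simp)
  rw [e0, e1] at hslope
  exact hslope.symm

lemma half_le_abs_sub (n : ℤ) : 1 / 2 ≤ |1 / 2 - (n : ℝ)| := by
  rcases le_or_gt n 0 with h | h
  · have : (n : ℝ) ≤ 0 := by exact_mod_cast h
    rw [abs_of_nonneg (by linarith)]
    linarith
  · have : (1 : ℝ) ≤ n := by exact_mod_cast h
    rw [abs_of_nonpos (by linarith)]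
    linarith

lemma continuous_pt0 : Continuous pt0 := by
  unfold pt0
  fun_prop

lemma continuous_pt1 : Continuous pt1 := by
  unfold pt1
  fun_prop

/-- **Row NEAR.** -/
theorem near_one [T2Space Y] (R : HoledSphere Y) : ∀ᶠ g : Y ≃ₜ Y in 𝓝 1, ∀ (k : Y ≃ₜ Y)
    (v : ℤ × ℤ),
    (Slope R.q (fun t => k (g (R.curve0 t))) v ↔ Slope R.q (fun t => k (R.curve0 t)) v) ∧
    (Slope R.q (fun t => k (g (R.curve1 t))) v ↔ Slope R.q (fun t => k (R.curve1 t)) v) := by
  have h0 := near_curve R continuous_pt0 (u := (1, 0))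
    (fun t => by ext <;> simp [pt0, lat]; ring)
    (fun t x => by
      refine (half_le_abs_sub x.2).trans ?_
      have := norm_snd_le ((pt0 t : ℝ × ℝ) - lat x)
      simpa [pt0] using this)
  have h1 := near_curve R continuous_pt1 (u := (0, 1))
    (fun t => by ext <;> simp [pt1, lat]; ring)
    (fun t x => by
      refine (half_le_abs_sub x.1).trans ?_
      have := norm_fst_le ((pt1 t : ℝ × ℝ) - lat x)
      simpa [pt1] using this)
  filter_upwards [h0, h1] with g hg0 hg1 k v
  exact ⟨hg0 k v, hg1 k v⟩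

end Pool.Agent.ND4
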