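import Mathlib
import Pool.Agent.ND4.Basic

/-!
# Homeomorphisms of the surface supported in the four-holed sphere
-/

set_option autoImplicit false

open Topology Set Filter

namespace Pool.Agent.ND4

variable {Y : Type*} [TopologicalSpace Y]

/-- `T` normalises the group of translations and half turns, acting by `M` on the translations,
preserves the core and agrees with an element of the group near the boundary of the core. -/
structure Good (T : PPlane ≃ₜ PPlane) (M : Equiv.Perm (ℤ × ℤ)) : Prop where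
  tr : ∀ (g : ℤ × ℤ) (z : PPlane), T (gactE 1 g z) = gactE 1 (M g) (T z)
  ng : ∀ z : PPlane, T (gactE (-1) 0 z) = gactE (-1) 0 (T z)
  cor : ∀ z : PPlane, T z ∈ core ↔ z ∈ core
  bd : ∀ z : PPlane, z ∈ core → (∃ u, ‖(z : ℝ × ℝ) - lat u‖ ≤ 1 / 4) → Rel z (T z)

lemma gactE_split (ε : ℤˣ) (g : ℤ × ℤ) (z : PPlane) :
    gactE ε g z = gactE 1 g (gactE ε 0 z) := by
  rw [gactE_gactE]
  simp

lemma Good.map_gactE {T : PPlane ≃ₜ PPlane} {M : Equiv.Perm (ℤ × ℤ)} (h : Good T M) (ε : ℤˣ)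
    (g : ℤ × ℤ) (z : PPlane) : T (gactE ε g z) = gactE ε (M g) (T z) := by
  rw [gactE_split, h.tr, gactE_split ε (M g)]
  congr 1
  rcases eps_cases ε with rfl | rfl
  · rw [gactE_one_zero, gactE_one_zero]
  · exact h.ng z

lemma Good.rel {T : PPlane ≃ₜ PPlane} {M : Equiv.Perm (ℤ × ℤ)} (h : Good T M) {z z' : PPlane}
    (hz : Rel z z') : Rel (T z) (T z') := by
  obtain ⟨ε, g, rfl⟩ := rel_iff.mp hz
  rw [h.map_gactE]
  exact rel_gactE _ _ _

lemma Good.one : Good (1 : PPlane ≃ₜ PPlane) 1 where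
  tr _ _ := rfl
  ng _ := rfl
  cor _ := Iff.rfl
  bd z _ _ := Rel.refl z

lemma Good.mul {T T' : PPlane ≃ₜ PPlane} {M M' : Equiv.Perm (ℤ × ℤ)} (h : Good T M)
    (h' : Good T' M') : Good (T * T') (M * M') where
  tr g z := by
    change T (T' (gactE 1 g z)) = gactE 1 (M (M' g)) (T (T' z))
    rw [h'.tr, h.tr]
  ng z := by
    change T (T' (gactE (-1) 0 z)) = gactE (-1) 0 (T (T' z))
    rw [h'.ng, h.ng]
  cor z := by
    change T (T' z) ∈ core ↔ _
    rw [h.cor, h'.cor]
  bd z hz hu := by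
    change Rel z (T (T' z))
    have h1 := h'.bd z hz hu
    refine h1.trans (h.bd _ ((h'.cor z).mpr hz) ?_)
    obtain ⟨u, hu⟩ := hu
    obtain ⟨ε, g, h2⟩ := rel_iff.mp h1
    refine ⟨(ε : ℤ) • u + (2 : ℤ) • g, ?_⟩
    rw [h2, coe_gactE, norm_gact_sub_lat]
    exact hu

lemma Good.inv {T : PPlane ≃ₜ PPlane} {M : Equiv.Perm (ℤ × ℤ)} (h : Good T M) :
    Good T⁻¹ M⁻¹ := by
  have hT : ∀ z, T (T⁻¹ z) = z := fun z => T.apply_symm_apply z
  have hT' : ∀ z, T⁻¹ (T z) = z := fun z => T.symm_apply_apply z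
  have hM : ∀ g, M (M⁻¹ g) = g := fun g => M.apply_symm_apply g
  have hrel : ∀ z z' : PPlane, Rel z z' → Rel (T⁻¹ z) (T⁻¹ z') := by
    intro z z' hz
    obtain ⟨ε, g, rfl⟩ := rel_iff.mp hz
    have h1 : T⁻¹ (gactE ε g z) = gactE ε (M⁻¹ g) (T⁻¹ z) := by
      apply T.injective
      rw [hT, h.map_gactE, hM, hT]
    rw [h1]
    exact rel_gactE _ _ _
  constructor
  · intro g z
    apply T.injective
    rw [hT, h.tr, hM, hT]
  · intro z
    apply T.injective
    rw [hT, h.ng, hT]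
  · intro z
    rw [← h.cor (T⁻¹ z), hT]
  · intro z hz hu
    have h1 := hrel _ _ (h.bd z hz hu)
    rw [hT'] at h1
    exact h1.symm

lemma Good.zpow {T : PPlane ≃ₜ PPlane} {M : Equiv.Perm (ℤ × ℤ)} (h : Good T M) (n : ℤ) :
    Good (T ^ n) (M ^ n) := by
  induction n using Int.induction_on with
  | zero => simpa using Good.one
  | succ n ih =>
    rw [zpow_add_one, zpow_add_one]
    exact ih.mul h
  | pred n ih =>
    rw [zpow_sub_one, zpow_sub_one]
    exact ih.mul h.inv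

/-! ### The four-holed sphere is compact -/

/-- A compact set of representatives of the core. -/
def coreBox : Set PPlane := {z | z ∈ core ∧ ‖(z : ℝ × ℝ)‖ ≤ 1}

lemma isCompact_coreBox : IsCompact coreBox := by
  rw [Topology.IsEmbedding.subtypeVal.isCompact_iff]
  have h : Subtype.val '' coreBox =
      (⋂ u : ℤ × ℤ, {z : ℝ × ℝ | 1 / 4 ≤ ‖z - lat u‖}) ∩ Metric.closedBall 0 1 := by
    ext z
    simp only [coreBox, mem_image, mem_ofPred_eq, mem_inter_iff, mem_iInter,
      mem_closedBall_zero_iff]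
    constructor
    · rintro ⟨z, ⟨h1, h2⟩, rfl⟩
      exact ⟨h1, h2⟩
    · rintro ⟨h1, h2⟩
      refine ⟨⟨z, fun u hu => ?_⟩, ⟨h1, h2⟩, rfl⟩
      have h3 := h1 u
      rw [hu, sub_self, norm_zero] at h3
      norm_num at h3
  rw [h]
  exact (isCompact_closedBall _ _).inter_left
    (isClosed_iInter fun u => isClosed_le continuous_const (by fun_prop))

lemma exists_coreBox {z : PPlane} (hz : z ∈ core) : ∃ z' ∈ coreBox, Rel z z' := by
  refine ⟨gactE 1 (-round ((z : ℝ × ℝ).1 / 2), -round ((z : ℝ × ℝ).2 / 2)) z,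
    ⟨gactE_mem_core.mpr hz, ?_⟩, rel_gactE _ _ _⟩
  rw [coe_gactE, gact_one, Prod.norm_def, max_le_iff]
  have h1 := abs_sub_round ((z : ℝ × ℝ).1 / 2)
  have h2 := abs_sub_round ((z : ℝ × ℝ).2 / 2)
  constructor
  · simp only [Prod.fst_add, Prod.smul_fst, lat_fst, smul_eq_mul, Int.cast_neg,
      Real.norm_eq_abs]
    have h3 : (z : ℝ × ℝ).1 + 2 * -(round ((z : ℝ × ℝ).1 / 2) : ℝ) =
        2 * ((z : ℝ × ℝ).1 / 2 - round ((z : ℝ × ℝ).1 / 2)) := by ring
    rw [h3, abs_mul, abs_of_pos (by norm_num : (0 : ℝ) < 2)]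
    linarith
  · simp only [Prod.snd_add, Prod.smul_snd, lat_snd, smul_eq_mul, Int.cast_neg,
      Real.norm_eq_abs]
    have h3 : (z : ℝ × ℝ).2 + 2 * -(round ((z : ℝ × ℝ).2 / 2) : ℝ) =
        2 * ((z : ℝ × ℝ).2 / 2 - round ((z : ℝ × ℝ).2 / 2)) := by ring
    rw [h3, abs_mul, abs_of_pos (by norm_num : (0 : ℝ) < 2)]
    linarith

/-- The four-holed sphere. -/
def HoledSphere.sph (R : HoledSphere Y) : Set Y := R.q '' core

lemma HoledSphere.sph_eq (R : HoledSphere Y) : R.sph = R.q '' coreBox := by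
  apply Subset.antisymm
  · rintro _ ⟨z, hz, rfl⟩
    obtain ⟨z', hz', h⟩ := exists_coreBox hz
    exact ⟨z', hz', (R.map_rel _ _ h).symm⟩
  · rintro _ ⟨z, hz, rfl⟩
    exact ⟨z, hz.1, rfl⟩

lemma HoledSphere.isClosed_sph [T2Space Y] (R : HoledSphere Y) : IsClosed R.sph := by
  rw [R.sph_eq]
  exact (isCompact_coreBox.image R.continuous_q).isClosed

/-! ### The induced map -/

open Classical in
/-- The map of `Y` which is induced by `T` on the four-holed sphere and is the identity outside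
it. -/
noncomputable def ind (R : HoledSphere Y) (T : PPlane ≃ₜ PPlane) (y : Y) : Y :=
  if h : ∃ z ∈ core, R.q z = y then R.q (T h.choose) else y

lemma ind_q (R : HoledSphere Y) {T : PPlane ≃ₜ PPlane} {M : Equiv.Perm (ℤ × ℤ)} (hT : Good T M)
    {z : PPlane} (hz : z ∈ core) : ind R T (R.q z) = R.q (T z) := by
  classical
  have h : ∃ w ∈ core, R.q w = R.q z := ⟨z, hz, rfl⟩
  unfold ind
  rw [dif_pos h]
  obtain ⟨h1, h2⟩ := h.choose_spec
  exact R.map_rel _ _ (hT.rel (R.rel_of_core _ h1 _ hz h2))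

lemma ind_of_notMem (R : HoledSphere Y) (T : PPlane ≃ₜ PPlane) {y : Y} (hy : y ∉ R.sph) :
    ind R T y = y := by
  classical
  unfold ind
  exact dif_neg (show ¬ ∃ z ∈ core, R.q z = y from hy)

/-- The induced map is the identity on the closure of the complement. -/
lemma ind_closure [T2Space Y] (R : HoledSphere Y) {T : PPlane ≃ₜ PPlane}
    {M : Equiv.Perm (ℤ × ℤ)} (hT : Good T M) {y : Y} (hy : y ∈ closure R.sphᶜ) :
    ind R T y = y := by
  by_cases hs : y ∈ R.sph
  · obtain ⟨z, hz, rfl⟩ := hs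
    rw [ind_q R hT hz]
    by_cases hu : ∃ u, ‖(z : ℝ × ℝ) - lat u‖ ≤ 1 / 4
    · exact (R.map_rel _ _ (hT.bd z hz hu)).symm
    · exfalso
      push Not at hu
      -- `z` is in the interior of the core
      have hopen : IsOpenMap R.q := R.isCoveringMap.isOpenMap
      have hnear : ∃ δ : ℝ, 0 < δ ∧ ∀ w : PPlane, ‖(w : ℝ × ℝ) - z‖ < δ → w ∈ core := by
        obtain ⟨u₀, hu₀⟩ : ∃ u₀ : ℤ × ℤ, ‖(z : ℝ × ℝ) - lat u₀‖ ≤ 1 / 2 := by
          refine ⟨(round (z : ℝ × ℝ).1, round (z : ℝ × ℝ).2), ?_⟩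
          rw [Prod.norm_def, max_le_iff]
          exact ⟨abs_sub_round _, abs_sub_round _⟩
        refine ⟨min (1 / 4) (‖(z : ℝ × ℝ) - lat u₀‖ - 1 / 4), ?_, ?_⟩
        · exact lt_min (by norm_num) (by linarith [hu u₀])
        · intro w hw u
          have hw1 := hw.trans_le (min_le_left _ _)
          have hw2 := hw.trans_le (min_le_right _ _)
          by_cases huu : u = u₀
          · subst huu
            have h1 : (z : ℝ × ℝ) - lat u = ((w : ℝ × ℝ) - lat u) - ((w : ℝ × ℝ) - z) := by abel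
            have h2 := norm_sub_le ((w : ℝ × ℝ) - lat u) ((w : ℝ × ℝ) - z)
            rw [← h1] at h2
            linarith
          · have h0 := one_le_norm_lat_sub huu
            have h1 : lat u - lat u₀ = ((z : ℝ × ℝ) - lat u₀) + ((w : ℝ × ℝ) - z) -
                ((w : ℝ × ℝ) - lat u) := by abel
            rw [h1] at h0
            have h2 := norm_sub_le (((z : ℝ × ℝ) - lat u₀) + ((w : ℝ × ℝ) - z))
              ((w : ℝ × ℝ) - lat u)
            have h3 := norm_add_le ((z : ℝ × ℝ) - lat u₀) ((w : ℝ × ℝ) - z)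
            linarith
      obtain ⟨δ, hδ, hin⟩ := hnear
      have hU : IsOpen {w : PPlane | ‖(w : ℝ × ℝ) - z‖ < δ} :=
        isOpen_lt (by fun_prop) continuous_const
      have hqU := hopen _ hU
      obtain ⟨y', hy'1, hy'2⟩ := mem_closure_iff.mp hy _ hqU ⟨z, by simpa using hδ, rfl⟩
      obtain ⟨w, hw, rfl⟩ := hy'1
      exact hy'2 ⟨w, hin w hw, rfl⟩
  · exact ind_of_notMem R T hs

lemma continuous_ind [T2Space Y] (R : HoledSphere Y) {T : PPlane ≃ₜ PPlane}
    {M : Equiv.Perm (ℤ × ℤ)} (hT : Good T M) : Continuous (ind R T) := by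
  rw [continuous_iff_isClosed]
  intro V hV
  have h : ind R T ⁻¹' V =
      R.q '' (coreBox ∩ (fun z => R.q (T z)) ⁻¹' V) ∪ (V ∩ closure R.sphᶜ) := by
    ext y
    constructor
    · intro hy
      by_cases hs : y ∈ R.sph
      · left
        rw [R.sph_eq] at hs
        obtain ⟨z, hz, rfl⟩ := hs
        refine ⟨z, ⟨hz, ?_⟩, rfl⟩
        rw [mem_preimage, ind_q R hT hz.1] at hy
        exact hy
      · right
        rw [mem_preimage, ind_of_notMem R T hs] at hy
        exact ⟨hy, subset_closure hs⟩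
    · rintro (⟨z, ⟨hz, hzV⟩, rfl⟩ | ⟨hy, hc⟩)
      · rw [mem_preimage, ind_q R hT hz.1]
        exact hzV
      · rw [mem_preimage, ind_closure R hT hc]
        exact hy
  rw [h]
  refine IsClosed.union ?_ (hV.inter isClosed_closure)
  refine ((isCompact_coreBox.inter_right ?_).image R.continuous_q).isClosed
  exact hV.preimage (R.continuous_q.comp T.continuous)

lemma ind_inv (R : HoledSphere Y) {T : PPlane ≃ₜ PPlane} {M : Equiv.Perm (ℤ × ℤ)}
    (hT : Good T M) (y : Y) : ind R T⁻¹ (ind R T y) = y := by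
  by_cases hs : y ∈ R.sph
  · obtain ⟨z, hz, rfl⟩ := hs
    rw [ind_q R hT hz, ind_q R hT.inv ((hT.cor z).mpr hz)]
    exact congrArg R.q (T.symm_apply_apply z)
  · rw [ind_of_notMem R T hs, ind_of_notMem R _ hs]

/-- The homeomorphism of `Y` induced by `T`. -/
noncomputable def indHomeo [T2Space Y] (R : HoledSphere Y) {T : PPlane ≃ₜ PPlane}
    {M : Equiv.Perm (ℤ × ℤ)} (hT : Good T M) : Y ≃ₜ Y where
  toFun := ind R T
  invFun := ind R T⁻¹
  left_inv := ind_inv R hT
  right_inv y := by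
    have h := ind_inv R hT.inv y
    rwa [inv_inv] at h
  continuous_toFun := continuous_ind R hT
  continuous_invFun := continuous_ind R hT.inv

lemma indHomeo_q [T2Space Y] (R : HoledSphere Y) {T : PPlane ≃ₜ PPlane}
    {M : Equiv.Perm (ℤ × ℤ)} (hT : Good T M) {z : PPlane} (hz : z ∈ core) :
    indHomeo R hT (R.q z) = R.q (T z) := ind_q R hT hz

lemma indHomeo_zpow [T2Space Y] (R : HoledSphere Y) {T : PPlane ≃ₜ PPlane}
    {M : Equiv.Perm (ℤ × ℤ)} (hT : Good T M) (n : ℤ) {z : PPlane} (hz : z ∈ core) :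
    ((indHomeo R hT) ^ n) (R.q z) = R.q ((T ^ n) z) := by
  induction n using Int.induction_on generalizing z with
  | zero => rfl
  | succ n ih =>
    rw [zpow_add_one, zpow_add_one]
    change ((indHomeo R hT) ^ (n : ℤ)) (indHomeo R hT (R.q z)) = R.q ((T ^ (n : ℤ)) (T z))
    rw [indHomeo_q R hT hz, ih ((hT.cor z).mpr hz)]
  | pred n ih =>
    rw [zpow_sub_one, zpow_sub_one]
    change ((indHomeo R hT) ^ (-(n : ℤ))) ((indHomeo R hT)⁻¹ (R.q z)) =
      R.q ((T ^ (-(n : ℤ))) (T⁻¹ z))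
    have h1 : (indHomeo R hT)⁻¹ (R.q z) = R.q (T⁻¹ z) := ind_q R hT.inv hz
    rw [h1, ih ((hT.inv.cor z).mpr hz)]

/-- The slopes of the images of the horizontal curve. -/
theorem slope_ind [T2Space Y] (R : HoledSphere Y) {T : PPlane ≃ₜ PPlane}
    {M : Equiv.Perm (ℤ × ℤ)} (hT : Good T M) (n : ℤ) (hM : (M ^ n) 0 = 0) :
    Slope R.q (fun t => ((indHomeo R hT) ^ n) (R.curve0 t)) ((M ^ n) (1, 0)) := by
  have hcore : ∀ t, pt0 t ∈ core := by
    intro t u
    have h1 : ((pt0 t : ℝ × ℝ) - lat u).2 = 1 / 2 - u.2 := rfl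
    rw [Prod.norm_def]
    refine le_trans ?_ (le_max_right _ _)
    rw [h1, Real.norm_eq_abs]
    rcases le_or_gt u.2 0 with h | h
    · have h' : (u.2 : ℝ) ≤ 0 := by exact_mod_cast h
      rw [abs_of_nonneg (by linarith)]
      linarith
    · have h' : (1 : ℝ) ≤ u.2 := by exact_mod_cast h
      rw [abs_of_nonpos (by linarith)]
      linarith
  refine ⟨?_, fun t => (T ^ n) (pt0 t), ?_, fun t => ?_, Or.inr fun t => ?_⟩
  · intro h
    rw [← hM] at h
    exact absurd ((M ^ n).injective h) (by simp)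
  · refine (T ^ n).continuous.comp (Continuous.subtype_mk ?_ _)
    fun_prop
  · exact (indHomeo_zpow R hT n (hcore t)).symm
  · have h1 : pt0 (t + 1) = gactE 1 (1, 0) (pt0 t) := by
      refine Subtype.ext ?_
      rw [coe_gactE, gact_one]
      ext
      · simp [pt0]
        ring
      · simp [pt0]
    have h2 := (hT.zpow n).tr (1, 0) (pt0 t)
    show ((T ^ n) (pt0 (t + 1)) : ℝ × ℝ) =
      ((T ^ n) (pt0 t) : ℝ × ℝ) + (2 : ℝ) • lat ((M ^ n) (1, 0))
    rw [h1, h2, coe_gactE, gact_one]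

end Pool.Agent.ND4
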