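import Mathlib
import Pool.Agent.ND4.Ind
import Pool.Agent.ND4.Kappa2

/-!
# The two hyperbolic twists
-/

set_option autoImplicit false

open Topology Set Filter

namespace Pool.Agent.ND4

/-! ### The function `ψ` -/

/-- The difference of `ψ` and the identity, on the unit interval. -/
noncomputable def psg (s : ℝ) : ℝ := max 0 (min 1 (2 * s - 1 / 2)) - s

/-- A continuous odd function, `ψ (y + 1) = ψ y + 1`, equal to `n` near the integer `n`. -/
noncomputable def psi (y : ℝ) : ℝ := y + psg (Int.fract y)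

lemma continuous_psi : Continuous psi := by
  have h : Continuous (psg ∘ Int.fract) := by
    refine ContinuousOn.comp_fract'' ?_ ?_
    · have : Continuous psg := by
        unfold psg
        fun_prop
      exact this.continuousOn
    · unfold psg
      norm_num
  exact continuous_id.add h

lemma psi_add_int (y : ℝ) (n : ℤ) : psi (y + n) = psi y + n := by
  unfold psi
  rw [Int.fract_add_intCast]
  ring

lemma psg_neg {s : ℝ} : psg (1 - s) = -psg s := by
  unfold psg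
  rcases le_total (2 * s - 1 / 2) 0 with h | h
  · rw [min_eq_right (by linarith : 2 * s - 1 / 2 ≤ 1), max_eq_left h,
      min_eq_left (by linarith : (1 : ℝ) ≤ 2 * (1 - s) - 1 / 2), max_eq_right (by norm_num)]
    ring
  rcases le_total (2 * s - 1 / 2) 1 with h' | h'
  · rw [min_eq_right h', max_eq_right h,
      min_eq_right (by linarith : 2 * (1 - s) - 1 / 2 ≤ (1 : ℝ)), max_eq_right (by linarith)]
    ring
  · rw [min_eq_left h', max_eq_right (by norm_num : (0 : ℝ) ≤ 1),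
      min_eq_right (by linarith : 2 * (1 - s) - 1 / 2 ≤ (1 : ℝ)), max_eq_left (by linarith)]
    ring

lemma psi_neg (y : ℝ) : psi (-y) = -psi y := by
  unfold psi
  by_cases h : Int.fract y = 0
  · rw [Int.fract_neg_eq_zero.mpr h, h]
    have : psg 0 = 0 := by
      unfold psg
      norm_num
    rw [this]
    ring
  · rw [Int.fract_neg h, psg_neg]
    ring

lemma psi_near {y : ℝ} {n : ℤ} (h : |y - n| ≤ 1 / 4) : psi y = n := by
  obtain ⟨s, hs⟩ : ∃ s, s = y - n := ⟨_, rfl⟩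
  have hy : y = s + n := by rw [hs]; ring
  rw [hy, psi_add_int]
  rw [← hs, abs_le] at h
  unfold psi
  rcases le_or_gt 0 s with h0 | h0
  · rw [Int.fract_eq_self.mpr ⟨h0, by linarith⟩]
    unfold psg
    rw [min_eq_right (by linarith), max_eq_left (by linarith)]
    ring
  · have h1 : Int.fract s = s + 1 := by
      rw [← Int.fract_add_one, Int.fract_eq_self.mpr ⟨by linarith, by linarith⟩]
    rw [h1]
    unfold psg
    rw [min_eq_left (by linarith), max_eq_right (by norm_num)]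
    ring

lemma psi_int (n : ℤ) : psi n = n := psi_near (by simp)

/-! ### Shears -/

/-- The horizontal shear `(x, y) ↦ (x + 2 c ψ(y), y)`. -/
noncomputable def shearH (c : ℤ) : (ℝ × ℝ) ≃ₜ (ℝ × ℝ) where
  toFun z := (z.1 + 2 * c * psi z.2, z.2)
  invFun z := (z.1 - 2 * c * psi z.2, z.2)
  left_inv z := by ext <;> simp
  right_inv z := by ext <;> simp
  continuous_toFun := by
    have := continuous_psi
    fun_prop
  continuous_invFun := by
    have := continuous_psi
    fun_prop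

/-- The vertical shear `(x, y) ↦ (x, y + 2 c ψ(x))`. -/
noncomputable def shearV (c : ℤ) : (ℝ × ℝ) ≃ₜ (ℝ × ℝ) where
  toFun z := (z.1, z.2 + 2 * c * psi z.1)
  invFun z := (z.1, z.2 - 2 * c * psi z.1)
  left_inv z := by ext <;> simp
  right_inv z := by ext <;> simp
  continuous_toFun := by
    have := continuous_psi
    fun_prop
  continuous_invFun := by
    have := continuous_psi
    fun_prop

/-- The action of the horizontal shear on the lattice. -/
def permH (c : ℤ) : Equiv.Perm (ℤ × ℤ) where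
  toFun g := (g.1 + 2 * c * g.2, g.2)
  invFun g := (g.1 - 2 * c * g.2, g.2)
  left_inv g := by ext <;> simp
  right_inv g := by ext <;> simp

/-- The action of the vertical shear on the lattice. -/
def permV (c : ℤ) : Equiv.Perm (ℤ × ℤ) where
  toFun g := (g.1, g.2 + 2 * c * g.1)
  invFun g := (g.1, g.2 - 2 * c * g.1)
  left_inv g := by ext <;> simp
  right_inv g := by ext <;> simp

/-- A homeomorphism of the plane which normalises the group of translations and half turns and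
agrees with elements of the group on the closed discs. -/
structure Nice (T : (ℝ × ℝ) ≃ₜ (ℝ × ℝ)) (M : Equiv.Perm (ℤ × ℤ)) : Prop where
  tr : ∀ (g : ℤ × ℤ) (z : ℝ × ℝ), T (z + (2 : ℝ) • lat g) = T z + (2 : ℝ) • lat (M g)
  ng : ∀ z : ℝ × ℝ, T (-z) = -T z
  disc : ∀ (u : ℤ × ℤ), ∃ v : ℤ × ℤ, ∀ z : ℝ × ℝ, ‖z - lat u‖ ≤ 1 / 4 →
    T z = z + (2 : ℝ) • lat v
  disc' : ∀ (u : ℤ × ℤ), ∃ v : ℤ × ℤ, ∀ z : ℝ × ℝ, ‖z - lat u‖ ≤ 1 / 4 →
    T.symm z = z + (2 : ℝ) • lat v

lemma nice_shearH (c : ℤ) : Nice (shearH c) (permH c) := by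
  have hd : ∀ (c : ℤ) (u : ℤ × ℤ) (z : ℝ × ℝ), ‖z - lat u‖ ≤ 1 / 4 →
      ((z.1 + 2 * c * psi z.2, z.2) : ℝ × ℝ) = z + (2 : ℝ) • lat (c * u.2, 0) := by
    intro c u z hz
    rw [Prod.norm_def, max_le_iff] at hz
    have h2 : |z.2 - u.2| ≤ 1 / 4 := hz.2
    ext
    · simp only [Prod.fst_add, Prod.smul_fst, lat_fst, smul_eq_mul, psi_near h2]
      push_cast
      ring
    · simp
  constructor
  · intro g z
    have h2 : z.2 + 2 * (g.2 : ℝ) = z.2 + ((2 * g.2 : ℤ) : ℝ) := by push_cast; ring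
    ext
    · change z.1 + 2 * (g.1 : ℝ) + 2 * c * psi (z.2 + 2 * (g.2 : ℝ)) =
        z.1 + 2 * c * psi z.2 + 2 * ((g.1 + 2 * c * g.2 : ℤ) : ℝ)
      rw [h2, psi_add_int]
      push_cast
      ring
    · rfl
  · intro z
    ext
    · change -z.1 + 2 * c * psi (-z.2) = -(z.1 + 2 * c * psi z.2)
      rw [psi_neg]
      ring
    · rfl
  · intro u
    exact ⟨_, fun z hz => hd c u z hz⟩
  · intro u
    refine ⟨(-c * u.2, 0), fun z hz => ?_⟩
    have h := hd (-c) u z hz
    rw [← h]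
    change ((z.1 - 2 * c * psi z.2, z.2) : ℝ × ℝ) = _
    ext
    · simp only
      push_cast
      ring
    · rfl

lemma nice_shearV (c : ℤ) : Nice (shearV c) (permV c) := by
  have hd : ∀ (c : ℤ) (u : ℤ × ℤ) (z : ℝ × ℝ), ‖z - lat u‖ ≤ 1 / 4 →
      ((z.1, z.2 + 2 * c * psi z.1) : ℝ × ℝ) = z + (2 : ℝ) • lat (0, c * u.1) := by
    intro c u z hz
    rw [Prod.norm_def, max_le_iff] at hz
    have h2 : |z.1 - u.1| ≤ 1 / 4 := hz.1
    ext
    · simp
    · simp only [Prod.snd_add, Prod.smul_snd, lat_snd, smul_eq_mul, psi_near h2]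
      push_cast
      ring
  constructor
  · intro g z
    have h2 : z.1 + 2 * (g.1 : ℝ) = z.1 + ((2 * g.1 : ℤ) : ℝ) := by push_cast; ring
    ext
    · rfl
    · change z.2 + 2 * (g.2 : ℝ) + 2 * c * psi (z.1 + 2 * (g.1 : ℝ)) =
        z.2 + 2 * c * psi z.1 + 2 * ((g.2 + 2 * c * g.1 : ℤ) : ℝ)
      rw [h2, psi_add_int]
      push_cast
      ring
  · intro z
    ext
    · rfl
    · change -z.2 + 2 * c * psi (-z.1) = -(z.2 + 2 * c * psi z.1)
      rw [psi_neg]
      ring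
  · intro u
    exact ⟨_, fun z hz => hd c u z hz⟩
  · intro u
    refine ⟨(0, -c * u.1), fun z hz => ?_⟩
    have h := hd (-c) u z hz
    rw [← h]
    change ((z.1, z.2 - 2 * c * psi z.1) : ℝ × ℝ) = _
    ext
    · rfl
    · simp only
      push_cast
      ring

/-- A nice homeomorphism permutes the lattice points. -/
lemma Nice.lat_iff {T : (ℝ × ℝ) ≃ₜ (ℝ × ℝ)} {M : Equiv.Perm (ℤ × ℤ)} (h : Nice T M)
    (z : ℝ × ℝ) : (∀ u : ℤ × ℤ, z ≠ lat u) ↔ ∀ u : ℤ × ℤ, T z ≠ lat u := by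
  have e : ∀ (u v : ℤ × ℤ), lat u + (2 : ℝ) • lat v = lat (u + (2 : ℤ) • v) := by
    intro u v
    rw [lat_add, lat_zsmul]
    norm_num
  constructor
  · intro hz u hu
    obtain ⟨v, hv⟩ := h.disc' u
    refine hz (u + (2 : ℤ) • v) ?_
    rw [← e, ← hv _ (by simp), ← hu, T.symm_apply_apply]
  · intro hz u hu
    obtain ⟨v, hv⟩ := h.disc u
    refine hz (u + (2 : ℤ) • v) ?_
    rw [← e, hu, hv _ (by simp)]

/-- The restriction to the plane minus the lattice points. -/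
noncomputable def Nice.restr {T : (ℝ × ℝ) ≃ₜ (ℝ × ℝ)} {M : Equiv.Perm (ℤ × ℤ)} (h : Nice T M) :
    PPlane ≃ₜ PPlane := T.subtype h.lat_iff

lemma Nice.coe_restr {T : (ℝ × ℝ) ≃ₜ (ℝ × ℝ)} {M : Equiv.Perm (ℤ × ℤ)} (h : Nice T M)
    (z : PPlane) : (h.restr z : ℝ × ℝ) = T z := rfl

lemma Nice.good {T : (ℝ × ℝ) ≃ₜ (ℝ × ℝ)} {M : Equiv.Perm (ℤ × ℤ)} (h : Nice T M) :
    Good h.restr M where
  tr g z := by
    refine Subtype.ext ?_
    rw [h.coe_restr, coe_gactE, coe_gactE, h.coe_restr, gact_one, gact_one, h.tr]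
  ng z := by
    refine Subtype.ext ?_
    rw [h.coe_restr, coe_gactE, coe_gactE, h.coe_restr, gact_neg_one, gact_neg_one]
    simp only [lat_zero, smul_zero, add_zero]
    exact h.ng _
  cor z := by
    have e : ∀ (z : ℝ × ℝ) (u v : ℤ × ℤ),
        ‖(z + (2 : ℝ) • lat v) - lat (u + (2 : ℤ) • v)‖ = ‖z - lat u‖ := by
      intro z u v
      congr 1
      rw [lat_add, lat_zsmul]
      push_cast
      abel
    rw [← not_iff_not, notMem_core_iff, notMem_core_iff]
    constructor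
    · rintro ⟨u, hu⟩
      obtain ⟨v, hv⟩ := h.disc' u
      refine ⟨u + (2 : ℤ) • v, ?_⟩
      have hu' : ‖((h.restr z : PPlane) : ℝ × ℝ) - lat u‖ < 1 / 4 := hu
      have h1 := hv _ hu'.le
      rw [h.coe_restr, T.symm_apply_apply] at h1
      change ‖(z : ℝ × ℝ) - lat (u + (2 : ℤ) • v)‖ < 1 / 4
      rw [h1, e]
      exact hu'
    · rintro ⟨u, hu⟩
      obtain ⟨v, hv⟩ := h.disc u
      refine ⟨u + (2 : ℤ) • v, ?_⟩
      have hu' : ‖(z : ℝ × ℝ) - lat u‖ < 1 / 4 := hu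
      have h1 := hv _ hu'.le
      change ‖((h.restr z : PPlane) : ℝ × ℝ) - lat (u + (2 : ℤ) • v)‖ < 1 / 4
      rw [h.coe_restr, h1, e]
      exact hu'
  bd z _ hu := by
    obtain ⟨u, hu⟩ := hu
    obtain ⟨v, hv⟩ := h.disc u
    exact ⟨v, Or.inl (hv _ hu)⟩

variable {Y : Type*} [TopologicalSpace Y]

lemma mulA_eq : mulA = permH 1 * permV 1 := by
  ext g
  · change 5 * g.1 + 2 * g.2 = g.1 + 2 * 1 * (g.2 + 2 * 1 * g.1)
    ring
  · change 2 * g.1 + g.2 = g.2 + 2 * 1 * g.1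
    ring

lemma mulB_eq : mulB = permH (-1) * permV (-1) := by
  ext g
  · change 5 * g.1 - 2 * g.2 = g.1 + 2 * (-1) * (g.2 + 2 * (-1) * g.1)
    ring
  · change -2 * g.1 + g.2 = g.2 + 2 * (-1) * g.1
    ring

lemma mulA_zpow_zero (n : ℤ) : (mulA ^ n) 0 = 0 := by
  have h : mulA 0 = 0 := rfl
  exact Equiv.Perm.zpow_apply_eq_self_of_apply_eq_self h n

lemma mulB_zpow_zero (n : ℤ) : (mulB ^ n) 0 = 0 := by
  have h : mulB 0 = 0 := rfl
  exact Equiv.Perm.zpow_apply_eq_self_of_apply_eq_self h n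

theorem exists_twistA [T2Space Y] (R : HoledSphere Y) : ∃ f : Y ≃ₜ Y, ∀ n : ℤ,
    Slope R.q (fun t => (f ^ n) (R.curve0 t)) ((mulA ^ n) (1, 0)) := by
  have hg := (nice_shearH 1).good.mul (nice_shearV 1).good
  refine ⟨indHomeo R hg, fun n => ?_⟩
  have e : mulA ^ n = (permH 1 * permV 1) ^ n := by rw [mulA_eq]
  rw [e]
  exact slope_ind R hg n (by rw [← mulA_eq]; exact mulA_zpow_zero n)

theorem exists_twistB [T2Space Y] (R : HoledSphere Y) : ∃ f : Y ≃ₜ Y, ∀ n : ℤ,
    Slope R.q (fun t => (f ^ n) (R.curve0 t)) ((mulB ^ n) (1, 0)) := by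
  have hg := (nice_shearH (-1)).good.mul (nice_shearV (-1)).good
  refine ⟨indHomeo R hg, fun n => ?_⟩
  have e : mulB ^ n = (permH (-1) * permV (-1)) ^ n := by rw [mulB_eq]
  rw [e]
  exact slope_ind R hg n (by rw [← mulB_eq]; exact mulB_zpow_zero n)

end Pool.Agent.ND4
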