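import Mathlib
import Pool.Agent.ND4.FinalOf
import Pool.Agent.ND4.Count
import Pool.Agent.ND4.Near
import Pool.Agent.ND4.Twist

/-!
# Surfaces with a non-displaceable four-holed sphere: not two ends
-/

set_option autoImplicit false

open Topology Set Filter

namespace Pool.Agent.ND4

variable {Y : Type*} [TopologicalSpace Y]

open Pool.Agent.Helper50.Ends Pool.Agent.Helper2.Genus in
theorem not_two [T2Space Y] (R : HoledSphere Y) (H : Subgroup (Y ≃ₜ Y)) (hH : H.FiniteIndex)
    (hN : ∀ k ∈ H, Essential R.q (fun t => k (R.curve0 t)) ∨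
      Essential R.q (fun t => k (R.curve1 t)))
    (S : Set (MCG H)) (hS : CoarselyBounded S) (hgen : Subgroup.closure S = ⊤) :
    numEnds (cayley S) ≠ 2 :=
  not_two_of R (fun _ _ ha hb pa pb => count R ha hb pa pb) (near_one R)
    (fun _ hF hper v => slope_homotopy R hF hper v) (exists_twistA R) (exists_twistB R) H hH hN S
    hS hgen

end Pool.Agent.ND4
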